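import Pool.Agent.Helper8.UV3.Anti
import Pool.Agent.Helper20.UV3.Mono

set_option autoImplicit false
set_option linter.unusedSectionVars false

/-!
Anticoncentration of a polynomial in independent variables, each of which is uniform on the
integers below `P` with a certain probability, around the small numbers `low`.
-/

open Finset
open scoped BigOperators

namespace Pool.Agent.Helper14.PR

open Pool.Agent.Helper8.UV3

section
variable {V : Type} [Fintype V] [DecidableEq V] {a P : ℕ}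

/-- The big part of a variable. -/
def mac (P : ℕ) {a : ℕ} (x : Fin a) : ℕ := if (x : ℕ) < P then (x : ℕ) else 0

theorem mac_le (x : Fin a) : mac P x ≤ P := by
  unfold mac
  split_ifs with h
  · exact h.le
  · exact Nat.zero_le _

theorem mac_lt (hP : 0 < P) (x : Fin a) : mac P x < P := by
  unfold mac
  split_ifs with h
  · exact h
  · exact hP

/-- The values of the variables. -/
def wv (P : ℕ) (low : V → ℝ) (μ : V → Fin a) (e : V) : ℝ := (mac P (μ e) : ℝ) + low e

open Classical in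
/-- Double counting over one variable. -/
theorem one_count' (e : V) (p : (V → Fin a) → Prop) (N : ℕ)
    (hp : ∀ μ, (univ.filter fun x : Fin a =>
      (x : ℕ) < P ∧ p (Function.update μ e x)).card ≤ N) :
    (univ.filter fun μ : V → Fin a => (μ e : ℕ) < P ∧ p μ).card * a ≤
      N * Fintype.card (V → Fin a) := by
  have h1 : (univ.filter fun μ : V → Fin a => (μ e : ℕ) < P ∧ p μ).card * a =
      ∑ q : (V → Fin a) × Fin a, if ((q.1 e : ℕ) < P ∧ p q.1) then 1 else 0 := by
    rw [Fintype.sum_prod_type, Finset.card_filter, Finset.sum_mul]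
    refine Finset.sum_congr rfl fun μ _ => ?_
    show _ = ∑ _y : Fin a, (if ((μ e : ℕ) < P ∧ p μ) then 1 else 0)
    rw [Finset.sum_const, Finset.card_univ, Fintype.card_fin, smul_eq_mul, mul_comm]
  let E : (V → Fin a) × Fin a ≃ (V → Fin a) × Fin a :=
    { toFun := fun q => (Function.update q.1 e q.2, q.1 e)
      invFun := fun q => (Function.update q.1 e q.2, q.1 e)
      left_inv := fun q => by simp
      right_inv := fun q => by simp }
  have h2 : ∑ q : (V → Fin a) × Fin a, (if ((q.1 e : ℕ) < P ∧ p q.1) then 1 else 0) =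
      ∑ q : (V → Fin a) × Fin a,
        if ((q.2 : ℕ) < P ∧ p (Function.update q.1 e q.2)) then 1 else 0 := by
    rw [← Equiv.sum_comp E]
    refine Finset.sum_congr rfl fun q _ => ?_
    simp only [E, Equiv.coe_fn_mk, Function.update_self]
  rw [h1, h2, Fintype.sum_prod_type]
  calc ∑ μ : V → Fin a, ∑ x : Fin a,
        (if ((x : ℕ) < P ∧ p (Function.update μ e x)) then 1 else 0)
      ≤ ∑ _μ : V → Fin a, N := Finset.sum_le_sum fun μ _ => by
        rw [← Finset.card_filter]
        exact hp μ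
    _ = N * Fintype.card (V → Fin a) := by
        rw [Finset.sum_const, Finset.card_univ, smul_eq_mul, mul_comm]

theorem wv_update (low : V → ℝ) (μ : V → Fin a) (e : V) (x : Fin a) (hx : (x : ℕ) < P) :
    wv P low (Function.update μ e x) = Function.update (wv P low μ) e (low e + (x : ℕ)) := by
  funext e'
  by_cases h : e' = e
  · subst h
    rw [Function.update_self]
    unfold wv mac
    rw [Function.update_self, if_pos hx, add_comm]
  · rw [Function.update_of_ne h]
    unfold wv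
    rw [Function.update_of_ne h]

theorem wv_abs (hP : 0 < P) (low : V → ℝ) (hlow : ∀ e, 0 ≤ low e ∧ low e ≤ 1) (μ : V → Fin a)
    (e : V) : |wv P low μ e| ≤ 2 * P := by
  unfold wv
  have h1 := hlow e
  have h2 : ((mac P (μ e) : ℕ) : ℝ) ≤ P := by exact_mod_cast mac_le (μ e)
  have h3 : (1 : ℝ) ≤ P := by exact_mod_cast hP
  have h4 : (0 : ℝ) ≤ (mac P (μ e) : ℝ) := Nat.cast_nonneg _
  rw [abs_of_nonneg (by linarith)]
  linarith

/-- For fixed other variables, few values of one variable make the part on `T` small and leave the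
part on `insert e T` large. -/
theorem few_x' {d : ℕ} (hP : 0 < P) (low : V → ℝ) (hlow : ∀ e, 0 ≤ low e ∧ low e ≤ 1)
    (g : MvPolynomial V ℝ) (hd : ∀ u ∈ g.support, u.degree ≤ d)
    (s : V →₀ ℕ) (T : Finset V) {e : V} (he : e ∉ T) (τ : ℝ)
    (μ : V → Fin a) (B : Finset (Fin a))
    (hB : ∀ x ∈ B, (x : ℕ) < P ∧
      |GT g s T (wv P low (Function.update μ e x))| ≤
        τ * ((P : ℝ) ^ s e * ((1 : ℝ) / (7 * P)) ^ d) ∧
      τ < |GT g s (insert e T) (wv P low (Function.update μ e x))|) :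
    B.card ≤ d := by
  by_contra hcon
  push Not at hcon
  obtain ⟨x0, hx0⟩ : B.Nonempty := Finset.card_pos.1 (by omega)
  have hP0 : (0 : ℝ) < P := by exact_mod_cast hP
  have hP1 : (1 : ℝ) ≤ P := by exact_mod_cast hP
  set W := wv P low μ with hW
  set b : ℝ := low e with hb
  have hl := hlow e
  have h := uni d (FT g s T W e) (FT_natDegree g s T W e d hd) P 1 one_pos hP b hl.1
    (B.map Fin.valEmbedding) (by
      intro x hx
      rw [mem_map] at hx
      obtain ⟨y, hy, rfl⟩ := hx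
      have h1 := (hB y hy).1
      have h2 : ((y : ℕ) : ℝ) < P := by exact_mod_cast h1
      simp only [Fin.valEmbedding_apply]
      linarith) (τ * ((P : ℝ) ^ s e * ((1 : ℝ) / (7 * P)) ^ d)) (by
      intro x hx
      rw [mem_map] at hx
      obtain ⟨y, hy, rfl⟩ := hx
      simp only [Fin.valEmbedding_apply]
      rw [FT_eval g s T W he, ← wv_update low μ e y (hB y hy).1]
      exact (hB y hy).2.1) (by rw [Finset.card_map, mul_one]; exact hcon) (s e)
  rw [FT_coeff] at h
  have h1 := (hB x0 hx0).2.2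
  rw [wv_update low μ e x0 (hB x0 hx0).1, GT_indep g s (insert e T) W
    (mem_insert_self e T)] at h1
  have h2 : 7 ^ d * (τ * ((P : ℝ) ^ s e * ((1 : ℝ) / (7 * P)) ^ d)) * ((P : ℝ) / (1 : ℕ)) ^ d =
      τ * (P : ℝ) ^ s e := by
    have h3 : (7 : ℝ) ^ d * ((1 : ℝ) / (7 * P)) ^ d * ((P : ℝ) / (1 : ℕ)) ^ d = 1 := by
      rw [← mul_pow, ← mul_pow]
      have : (7 : ℝ) * ((1 : ℝ) / (7 * P)) * ((P : ℝ) / (1 : ℕ)) = 1 := by
        push_cast
        field_simp
      rw [this, one_pow]
    calc 7 ^ d * (τ * ((P : ℝ) ^ s e * ((1 : ℝ) / (7 * P)) ^ d)) * ((P : ℝ) / (1 : ℕ)) ^ d =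
        τ * (P : ℝ) ^ s e * ((7 : ℝ) ^ d * ((1 : ℝ) / (7 * P)) ^ d * ((P : ℝ) / (1 : ℕ)) ^ d) := by
          ring
      _ = _ := by rw [h3, mul_one]
  rw [h2] at h
  have h4 := le_of_mul_le_mul_right h (by positivity : (0 : ℝ) < (P : ℝ) ^ s e)
  linarith

/-- The variables in `R` are big and the part on `T` is at most `τ`. -/
def Bd' (P : ℕ) (low : V → ℝ) (g : MvPolynomial V ℝ) (s : V →₀ ℕ)
    (R T : Finset V) (τ : ℝ) (μ : V → Fin a) : Prop :=
  (∀ e ∈ R, (μ e : ℕ) < P) ∧ |GT g s T (wv P low μ)| ≤ τ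

/-- The part on `T` is at most `τ'` and the part on `T'` is larger than `τ`. -/
def Bs' (P : ℕ) (low : V → ℝ) (g : MvPolynomial V ℝ) (s : V →₀ ℕ)
    (T T' : Finset V) (τ' τ : ℝ) (μ : V → Fin a) : Prop :=
  |GT g s T (wv P low μ)| ≤ τ' ∧ τ < |GT g s T' (wv P low μ)|

open Classical in
/-- The parts on the smaller and smaller sets of fixed variables. -/
theorem bad_count' {d : ℕ} (hP : 0 < P) (ha : 0 < a) (low : V → ℝ)
    (hlow : ∀ e, 0 ≤ low e ∧ low e ≤ 1)
    (g : MvPolynomial V ℝ) (hd : ∀ u ∈ g.support, u.degree ≤ d) (s : V →₀ ℕ)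
    (hs : s ∈ g.support) (Λ : ℝ)
    (hΛ : 8 * ((Fintype.card V + 1 : ℕ) : ℝ) ^ d ≤ Λ)
    (htop : ∀ u ∈ g.support, u ≠ 0 →
      |g.coeff u| * (Λ * P) ^ u.degree ≤ |g.coeff s| * (Λ * P) ^ s.degree)
    (R : Finset V) : R ⊆ s.support →
    ((univ.filter fun μ : V → Fin a => Bd' P low g s R (s.support \ R)
      (|g.coeff s| / 2 * ∏ e ∈ R, ((P : ℝ) ^ s e * ((1 : ℝ) / (7 * P)) ^ d)) μ).card : ℝ) ≤
      R.card * (d / a * Fintype.card (V → Fin a)) := by
  have hP0 : (0 : ℝ) < P := by exact_mod_cast hP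
  have ha0 : (0 : ℝ) < a := by exact_mod_cast ha
  induction R using Finset.induction_on with
  | empty =>
    intro _
    have h0 : 0 < |g.coeff s| := abs_pos.2 (MvPolynomial.mem_support_iff.1 hs)
    have h : (univ.filter fun μ : V → Fin a => Bd' P low g s ∅ (s.support \ ∅)
      (|g.coeff s| / 2 * ∏ e ∈ (∅ : Finset V),
          ((P : ℝ) ^ s e * ((1 : ℝ) / (7 * P)) ^ d)) μ) = ∅ := by
      refine Finset.filter_false_of_mem fun μ _ h => ?_
      have h1 := GT_top (P : ℝ) hP0 d g hd s hs Λ hΛ htop (wv P low μ)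
        (fun e => wv_abs hP low hlow μ e)
      have h2 := h.2
      rw [Finset.sdiff_empty, Finset.prod_empty, mul_one] at h2
      linarith
    rw [h]
    simp
  | insert e R he ih =>
    intro hR
    have hR' : R ⊆ s.support := fun x hx => hR (mem_insert_of_mem hx)
    have heS : e ∈ s.support := hR (mem_insert_self e R)
    set T := s.support \ insert e R with hT
    have heT : e ∉ T := by simp [hT]
    have hT' : s.support \ R = insert e T := by
      ext x
      simp only [hT, mem_sdiff, mem_insert, not_or]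
      constructor
      · rintro ⟨h1, h2⟩
        by_cases hx : x = e
        · exact Or.inl hx
        · exact Or.inr ⟨h1, hx, h2⟩
      · rintro (rfl | ⟨h1, _, h2⟩)
        · exact ⟨heS, he⟩
        · exact ⟨h1, h2⟩
    set τ : ℝ := |g.coeff s| / 2 * ∏ e ∈ R, ((P : ℝ) ^ s e * ((1 : ℝ) / (7 * P)) ^ d) with hτ
    have hτ' : |g.coeff s| / 2 * ∏ e ∈ insert e R, ((P : ℝ) ^ s e * ((1 : ℝ) / (7 * P)) ^ d) =
        τ * ((P : ℝ) ^ s e * ((1 : ℝ) / (7 * P)) ^ d) := by
      rw [Finset.prod_insert he, hτ]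
      ring
    rw [hτ']
    have IH := ih hR'
    rw [hT'] at IH
    have hsub : (univ.filter fun μ : V → Fin a => Bd' P low g s (insert e R) T
          (τ * ((P : ℝ) ^ s e * ((1 : ℝ) / (7 * P)) ^ d)) μ) ⊆
        (univ.filter fun μ : V → Fin a => Bd' P low g s R (insert e T) τ μ) ∪
        (univ.filter fun μ : V → Fin a => (μ e : ℕ) < P ∧ Bs' P low g s T (insert e T)
          (τ * ((P : ℝ) ^ s e * ((1 : ℝ) / (7 * P)) ^ d)) τ μ) := by
      intro μ hμ
      rw [mem_filter] at hμ
      obtain ⟨h1, h2, h3⟩ := hμ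
      rw [mem_union, mem_filter, mem_filter]
      by_cases h4 : |GT g s (insert e T) (wv P low μ)| ≤ τ
      · exact Or.inl ⟨h1, fun x hx => h2 x (mem_insert_of_mem hx), h4⟩
      · exact Or.inr ⟨h1, h2 e (mem_insert_self e R), h3, not_le.1 h4⟩
    have hcount := (Finset.card_le_card hsub).trans (Finset.card_union_le _ _)
    have hone := one_count' (P := P) (a := a) e (fun μ => Bs' P low g s T (insert e T)
      (τ * ((P : ℝ) ^ s e * ((1 : ℝ) / (7 * P)) ^ d)) τ μ) d (fun μ => by
      refine few_x' hP low hlow g hd s T heT τ μ _ ?_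
      intro x hx
      rw [mem_filter] at hx
      exact ⟨hx.2.1, hx.2.2.1, hx.2.2.2⟩)
    have hone' : ((univ.filter fun μ : V → Fin a => (μ e : ℕ) < P ∧ Bs' P low g s T (insert e T)
          (τ * ((P : ℝ) ^ s e * ((1 : ℝ) / (7 * P)) ^ d)) τ μ).card : ℝ) ≤
        d / a * Fintype.card (V → Fin a) := by
      rw [div_mul_eq_mul_div, le_div_iff₀ ha0]
      exact_mod_cast hone
    have hcount' : ((univ.filter fun μ : V → Fin a => Bd' P low g s (insert e R) T
          (τ * ((P : ℝ) ^ s e * ((1 : ℝ) / (7 * P)) ^ d)) μ).card : ℝ) ≤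
        ((univ.filter fun μ : V → Fin a => Bd' P low g s R (insert e T) τ μ).card : ℝ) +
        ((univ.filter fun μ : V → Fin a => (μ e : ℕ) < P ∧ Bs' P low g s T (insert e T)
          (τ * ((P : ℝ) ^ s e * ((1 : ℝ) / (7 * P)) ^ d)) τ μ).card : ℝ) := by
      exact_mod_cast hcount
    rw [Finset.card_insert_of_notMem he]
    push_cast
    linarith

/-- The threshold. -/
noncomputable def thr (d P : ℕ) (g : MvPolynomial V ℝ) (s : V →₀ ℕ) : ℝ :=
  |g.coeff s| * P ^ s.degree * (1 / 2 * ((1 : ℝ) / (7 * P)) ^ (d * d))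

theorem support_card_le {d : ℕ} {s : V →₀ ℕ} (h : s.degree ≤ d) : s.support.card ≤ d := by
  refine le_trans ?_ h
  rw [Finsupp.degree_apply]
  calc s.support.card = ∑ e ∈ s.support, 1 := by simp
    _ ≤ ∑ e ∈ s.support, s e := Finset.sum_le_sum fun e he =>
        Nat.one_le_iff_ne_zero.2 (Finsupp.mem_support_iff.1 he)

open Classical in
/-- A polynomial whose top monomial has only big variables is large, except with small
probability. -/
theorem anti' {d : ℕ} (hP : 0 < P) (ha : 0 < a) (low : V → ℝ)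
    (hlow : ∀ e, 0 ≤ low e ∧ low e ≤ 1)
    (g : MvPolynomial V ℝ) (hd : ∀ u ∈ g.support, u.degree ≤ d) (s : V →₀ ℕ)
    (hs : s ∈ g.support) (Λ : ℝ)
    (hΛ : 8 * ((Fintype.card V + 1 : ℕ) : ℝ) ^ d ≤ Λ)
    (htop : ∀ u ∈ g.support, u ≠ 0 →
      |g.coeff u| * (Λ * P) ^ u.degree ≤ |g.coeff s| * (Λ * P) ^ s.degree) :
    ((univ.filter fun μ : V → Fin a => (∀ e ∈ s.support, (μ e : ℕ) < P) ∧
      |MvPolynomial.eval (wv P low μ) g| ≤ thr d P g s).card : ℝ) ≤
      d * d / a * Fintype.card (V → Fin a) := by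
  have hP0 : (0 : ℝ) < P := by exact_mod_cast hP
  have hP1 : (1 : ℝ) ≤ P := by exact_mod_cast hP
  have h := bad_count' (a := a) hP ha low hlow g hd s hs Λ hΛ htop s.support subset_rfl
  have hcard : s.support.card ≤ d := support_card_le (hd s hs)
  have hprod : ∏ e ∈ s.support, ((P : ℝ) ^ s e * ((1 : ℝ) / (7 * P)) ^ d) =
      (P : ℝ) ^ s.degree * ((1 : ℝ) / (7 * P)) ^ (d * s.support.card) := by
    rw [Finset.prod_mul_distrib, Finset.prod_pow_eq_pow_sum, Finset.prod_const, ← pow_mul,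
      Finsupp.degree_apply]
  have hκ : ((1 : ℝ) / (7 * P)) ^ (d * d) ≤ ((1 : ℝ) / (7 * P)) ^ (d * s.support.card) := by
    refine pow_le_pow_of_le_one (by positivity) ?_ (Nat.mul_le_mul_left d hcard)
    rw [div_le_one (by positivity)]
    linarith
  have hsub : (univ.filter fun μ : V → Fin a => (∀ e ∈ s.support, (μ e : ℕ) < P) ∧
      |MvPolynomial.eval (wv P low μ) g| ≤ thr d P g s) ⊆
      (univ.filter fun μ : V → Fin a => Bd' P low g s s.support (s.support \ s.support)
        (|g.coeff s| / 2 * ∏ e ∈ s.support, ((P : ℝ) ^ s e * ((1 : ℝ) / (7 * P)) ^ d)) μ) := by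
    intro μ hμ
    rw [mem_filter] at hμ ⊢
    obtain ⟨h1, h2, h3⟩ := hμ
    refine ⟨h1, h2, ?_⟩
    rw [Finset.sdiff_self, GT_empty, hprod]
    refine h3.trans ?_
    have h4 : 0 ≤ |g.coeff s| * (P : ℝ) ^ s.degree := by positivity
    unfold thr
    calc |g.coeff s| * (P : ℝ) ^ s.degree * (1 / 2 * ((1 : ℝ) / (7 * P)) ^ (d * d))
        ≤ |g.coeff s| * (P : ℝ) ^ s.degree *
          (1 / 2 * ((1 : ℝ) / (7 * P)) ^ (d * s.support.card)) :=
          mul_le_mul_of_nonneg_left (by linarith) h4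
      _ = _ := by ring
  have h5 : ((univ.filter fun μ : V → Fin a => (∀ e ∈ s.support, (μ e : ℕ) < P) ∧
      |MvPolynomial.eval (wv P low μ) g| ≤ thr d P g s).card : ℝ) ≤
      ((univ.filter fun μ : V → Fin a => Bd' P low g s s.support (s.support \ s.support)
        (|g.coeff s| / 2 * ∏ e ∈ s.support,
          ((P : ℝ) ^ s e * ((1 : ℝ) / (7 * P)) ^ d)) μ).card : ℝ) := by
    exact_mod_cast Finset.card_le_card hsub
  refine h5.trans (h.trans ?_)
  have h6 : (s.support.card : ℝ) ≤ d := by exact_mod_cast hcard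
  have ha0 : (0 : ℝ) < a := by exact_mod_cast ha
  have h7 : (0 : ℝ) ≤ d / a * (Fintype.card (V → Fin a) : ℝ) := by positivity
  calc (s.support.card : ℝ) * (d / a * Fintype.card (V → Fin a))
      ≤ d * (d / a * Fintype.card (V → Fin a)) := mul_le_mul_of_nonneg_right h6 h7
    _ = _ := by ring

/-- The robustness at the choice of a monomial. -/
theorem robust' {d : ℕ} (hP : 0 < P) (g : MvPolynomial V ℝ)
    (hd : ∀ u ∈ g.support, u.degree ≤ d) (s : V →₀ ℕ)
    (hs : s ∈ g.support) (hs0 : s ≠ 0) (Λ q : ℝ) (hΛ : 2 ≤ Λ)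
    (htop : ∀ u ∈ g.support, u ≠ 0 →
      |g.coeff u| * (Λ * P) ^ u.degree ≤ |g.coeff s| * (Λ * P) ^ s.degree)
    (hω : ((Fintype.card V : ℝ) + 1) ^ d * d * q * Λ ^ (d - 1) / P ≤
      1 / 2 * ((1 : ℝ) / (7 * P)) ^ (d * d))
    (W W' : V → ℝ) (hW : ∀ e, |W e| ≤ 2 * P) (hW' : ∀ e, |W' e| ≤ 2 * P)
    (hWW : ∀ e, |W e - W' e| ≤ q) :
    |MvPolynomial.eval W g - MvPolynomial.eval W' g| ≤ thr d P g s := by
  have hP' : (0 : ℝ) < P := by exact_mod_cast hP
  refine (Pool.Agent.Helper20.UV3.robust d g hd s hs hs0 (P : ℝ) Λ q hP' hΛ htop W W' hW hW'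
    hWW).trans ?_
  unfold thr
  exact mul_le_mul_of_nonneg_left hω (by positivity)

/-- Two numbers that differ by less than the absolute value of one of them have the same sign. -/
theorem sign_eq_of_lt {x y τ : ℝ} (h1 : τ < |x|) (h2 : |x - y| ≤ τ) :
    SignType.sign x = SignType.sign y := by
  rw [abs_le] at h2
  rcases lt_abs.1 h1 with h | h
  · have h3 : 0 < x := by
      by_contra hc
      push Not at hc
      have : |x| = -x := abs_of_nonpos hc
      linarith [this ▸ h1]
    have h4 : 0 < y := by linarith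
    rw [sign_pos h3, sign_pos h4]
  · have h3 : x < 0 := by
      by_contra hc
      push Not at hc
      have : |x| = x := abs_of_nonneg hc
      linarith [this ▸ h1]
    have h4 : y < 0 := by linarith
    rw [sign_neg h3, sign_neg h4]

end

end Pool.Agent.Helper14.PR
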