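import Mathlib

set_option autoImplicit false

/-!
Averages over functions on a finite set.
-/

open Finset
open scoped BigOperators

namespace Pool.Agent.Helper14.PR

/-- The average of a real function on a finite type. -/
noncomputable def avg {Ω : Type} [Fintype Ω] (f : Ω → ℝ) : ℝ := (∑ ω, f ω) / Fintype.card Ω

section
variable {Ω : Type} [Fintype Ω]

theorem avg_mono {f g : Ω → ℝ} (h : ∀ ω, f ω ≤ g ω) : avg f ≤ avg g := by
  unfold avg
  exact div_le_div_of_nonneg_right (Finset.sum_le_sum fun ω _ => h ω) (Nat.cast_nonneg _)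

theorem avg_nonneg {f : Ω → ℝ} (h : ∀ ω, 0 ≤ f ω) : 0 ≤ avg f := by
  unfold avg
  exact div_nonneg (Finset.sum_nonneg fun ω _ => h ω) (Nat.cast_nonneg _)

theorem avg_add (f g : Ω → ℝ) : avg (fun ω => f ω + g ω) = avg f + avg g := by
  unfold avg
  rw [Finset.sum_add_distrib, add_div]

theorem avg_smul (a : ℝ) (f : Ω → ℝ) : avg (fun ω => a * f ω) = a * avg f := by
  unfold avg
  rw [← Finset.mul_sum, mul_div_assoc]

theorem avg_sum {ι : Type} (s : Finset ι) (f : ι → Ω → ℝ) :
    avg (fun ω => ∑ i ∈ s, f i ω) = ∑ i ∈ s, avg (f i) := by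
  unfold avg
  rw [Finset.sum_comm, Finset.sum_div]

theorem avg_const_le (a : ℝ) (ha : 0 ≤ a) : avg (fun _ : Ω => a) ≤ a := by
  unfold avg
  rw [Finset.sum_const, nsmul_eq_mul, Finset.card_univ]
  rcases Nat.eq_zero_or_pos (Fintype.card Ω) with h | h
  · rw [h]
    simpa using ha
  · rw [mul_div_assoc, mul_comm, div_mul_cancel₀ a (by exact_mod_cast h.ne')]

theorem avg_const [Nonempty Ω] (a : ℝ) : avg (fun _ : Ω => a) = a := by
  unfold avg
  rw [Finset.sum_const, nsmul_eq_mul, Finset.card_univ]
  have h : 0 < Fintype.card Ω := Fintype.card_pos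
  rw [mul_div_assoc, mul_comm, div_mul_cancel₀ a (by exact_mod_cast h.ne')]

theorem avg_le_of_le {f : Ω → ℝ} {a : ℝ} (ha : 0 ≤ a) (h : ∀ ω, f ω ≤ a) : avg f ≤ a :=
  (avg_mono h).trans (avg_const_le a ha)

open Classical in
theorem avg_ite (p : Ω → Prop) (a : ℝ) :
    avg (fun ω => if p ω then a else 0) = a * ((univ.filter p).card / Fintype.card Ω) := by
  unfold avg
  rw [← Finset.sum_filter, Finset.sum_const, nsmul_eq_mul]
  ring

end

section
variable {V α β : Type} [Fintype V] [DecidableEq V] [Fintype α] [Fintype β]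

/-- Averages over pairs. -/
theorem avg_pair (f : (V → α × β) → ℝ) :
    avg f = avg fun a : V → α => avg fun b : V → β => f fun e => (a e, b e) := by
  classical
  unfold avg
  have h : ∑ ω, f ω = ∑ a : V → α, ∑ b : V → β, f fun e => (a e, b e) := by
    rw [← Fintype.sum_prod_type' (f := fun (a : V → α) (b : V → β) => f fun e => (a e, b e))]
    exact Fintype.sum_equiv (Equiv.arrowProdEquivProdArrow V _ _) _ _ (fun ω => rfl)
  rw [h, ← Finset.sum_div, div_div]
  congr 1
  rw [Fintype.card_fun, Fintype.card_fun, Fintype.card_fun, Fintype.card_prod, mul_pow]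
  push_cast
  ring

/-- The function that is `a` on `S` and `b` outside. -/
def mix (S : Finset V) (a b : V → α) : V → α := fun e => if e ∈ S then a e else b e

theorem mix_mix (S : Finset V) (a b : V → α) : mix S (mix S a b) (mix S b a) = a := by
  funext e
  unfold mix
  split_ifs <;> rfl

/-- Resampling. -/
theorem avg_diag (S : Finset V) (Φ : (V → α) → (V → α) → ℝ)
    (h1 : ∀ a a' b, (∀ e ∈ S, a e = a' e) → Φ a b = Φ a' b)
    (h2 : ∀ a b b', (∀ e, e ∉ S → b e = b' e) → Φ a b = Φ a b') :
    avg (fun ω => Φ ω ω) = avg fun a => avg fun b => Φ a b := by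
  classical
  have key : ∑ a, ∑ b, Φ a b = Fintype.card (V → α) * ∑ ω, Φ ω ω := by
    have h3 : ∑ a, ∑ b, Φ a b = ∑ p : (V → α) × (V → α), Φ (mix S p.1 p.2) (mix S p.1 p.2) := by
      rw [Fintype.sum_prod_type' (f := fun a b => Φ (mix S a b) (mix S a b))]
      refine Finset.sum_congr rfl fun a _ => Finset.sum_congr rfl fun b _ => ?_
      rw [h1 a (mix S a b) b (fun e he => by unfold mix; rw [if_pos he]),
        h2 (mix S a b) b (mix S a b) (fun e he => by unfold mix; rw [if_neg he])]
    let E : (V → α) × (V → α) ≃ (V → α) × (V → α) :=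
      { toFun := fun p => (mix S p.1 p.2, mix S p.2 p.1)
        invFun := fun p => (mix S p.1 p.2, mix S p.2 p.1)
        left_inv := fun p => by simp only [mix_mix]
        right_inv := fun p => by simp only [mix_mix] }
    rw [h3, Fintype.sum_equiv E (fun p => Φ (mix S p.1 p.2) (mix S p.1 p.2))
      (fun q => Φ q.1 q.1) (fun p => rfl), Fintype.sum_prod_type]
    simp only [Finset.sum_const, Finset.card_univ, nsmul_eq_mul]
    rw [Finset.mul_sum]
  unfold avg
  rw [← Finset.sum_div, key]
  rcases Nat.eq_zero_or_pos (Fintype.card (V → α)) with h | h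
  · rw [h]
    simp
  · have h' : (Fintype.card (V → α) : ℝ) ≠ 0 := by exact_mod_cast h.ne'
    rw [mul_comm, mul_div_assoc, div_self h', mul_one]

end

end Pool.Agent.Helper14.PR
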