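import Pool.Agent.Helper14.PR.Law

set_option autoImplicit false

/-!
The hard instances: complete tripartite, the weights between the first two classes are the hidden
coordinates `x`, the weight of an edge `(j, k)` between the second and the third class is `-g k`,
the weights between the first and the third class are `0`.
-/

namespace Pool.Agent.Helper14.PR

variable {n m : ℕ}

/-- Position of a vertex in its class. -/
def lo (hm : 0 < m) (p : Fin n) : Fin m := ⟨p.val % m, Nat.mod_lt _ hm⟩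

/-- The flags. -/
def flagsT (n m : ℕ) : Fin n → Fin n → Bool := fun p q =>
  decide (p.val / m ≤ 2 ∧ q.val / m ≤ 2 ∧ p.val / m ≠ q.val / m)

/-- The cells: hidden coordinates and constants. -/
def sgm (hm : 0 < m) (g : Fin m → ℤ) (c : Fin n × Fin n) : ℤ ⊕ (Fin m × Fin m) :=
  if c.1.val / m = 0 ∧ c.2.val / m = 1 then Sum.inr (lo hm c.1, lo hm c.2)
  else if c.2.val / m = 0 ∧ c.1.val / m = 1 then Sum.inr (lo hm c.2, lo hm c.1)
  else if c.1.val / m = 1 ∧ c.2.val / m = 2 then Sum.inl (-g (lo hm c.2))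
  else if c.2.val / m = 1 ∧ c.1.val / m = 2 then Sum.inl (-g (lo hm c.1))
  else Sum.inl 0

/-- The weights. -/
def wT (hm : 0 < m) (g : Fin m → ℤ) (x : Fin m × Fin m → ℤ) (p q : Fin n) : ℤ :=
  cw (sgm hm g) x (p, q)

theorem wT_01 (hm : 0 < m) (g : Fin m → ℤ) (x : Fin m × Fin m → ℤ) (p q : Fin n)
    (hp : p.val / m = 0) (hq : q.val / m = 1) : wT hm g x p q = x (lo hm p, lo hm q) := by
  unfold wT cw sgm
  simp [hp, hq]

theorem wT_10 (hm : 0 < m) (g : Fin m → ℤ) (x : Fin m × Fin m → ℤ) (p q : Fin n)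
    (hp : p.val / m = 1) (hq : q.val / m = 0) : wT hm g x p q = x (lo hm q, lo hm p) := by
  unfold wT cw sgm
  simp [hp, hq]

theorem wT_12 (hm : 0 < m) (g : Fin m → ℤ) (x : Fin m × Fin m → ℤ) (p q : Fin n)
    (hp : p.val / m = 1) (hq : q.val / m = 2) : wT hm g x p q = -g (lo hm q) := by
  unfold wT cw sgm
  simp [hp, hq]

theorem wT_21 (hm : 0 < m) (g : Fin m → ℤ) (x : Fin m × Fin m → ℤ) (p q : Fin n)
    (hp : p.val / m = 2) (hq : q.val / m = 1) : wT hm g x p q = -g (lo hm p) := by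
  unfold wT cw sgm
  simp [hp, hq]

theorem wT_other (hm : 0 < m) (g : Fin m → ℤ) (x : Fin m × Fin m → ℤ) (p q : Fin n)
    (h1 : ¬ (p.val / m = 0 ∧ q.val / m = 1)) (h2 : ¬ (q.val / m = 0 ∧ p.val / m = 1))
    (h3 : ¬ (p.val / m = 1 ∧ q.val / m = 2)) (h4 : ¬ (q.val / m = 1 ∧ p.val / m = 2)) :
    wT hm g x p q = 0 := by
  unfold wT cw sgm
  simp only
  rw [if_neg h1, if_neg h2, if_neg h3, if_neg h4]
  rfl

theorem wT_symm (hm : 0 < m) (g : Fin m → ℤ) (x : Fin m × Fin m → ℤ) (p q : Fin n) :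
    wT hm g x p q = wT hm g x q p := by
  by_cases h1 : p.val / m = 0 ∧ q.val / m = 1
  · rw [wT_01 hm g x p q h1.1 h1.2, wT_10 hm g x q p h1.2 h1.1]
  by_cases h2 : q.val / m = 0 ∧ p.val / m = 1
  · rw [wT_10 hm g x p q h2.2 h2.1, wT_01 hm g x q p h2.1 h2.2]
  by_cases h3 : p.val / m = 1 ∧ q.val / m = 2
  · rw [wT_12 hm g x p q h3.1 h3.2, wT_21 hm g x q p h3.2 h3.1]
  by_cases h4 : q.val / m = 1 ∧ p.val / m = 2
  · rw [wT_21 hm g x p q h4.2 h4.1, wT_12 hm g x q p h4.1 h4.2]
  rw [wT_other hm g x p q h1 h2 h3 h4, wT_other hm g x q p h2 h1 h4 h3]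

/-- The instance with hidden coordinates `x`. -/
def instT (n : ℕ) (hm : 0 < m) (g : Fin m → ℤ) (x : Fin m × Fin m → ℤ) : Inst n where
  flag := flagsT n m
  wt := wT hm g x

theorem instT_wt (hm : 0 < m) (g : Fin m → ℤ) (x : Fin m × Fin m → ℤ) :
    (fun c : Fin n × Fin n => (instT n hm g x).wt c.1 c.2) = cw (sgm hm g) x := rfl

theorem instT_valid (hm : 0 < m) (g : Fin m → ℤ) (x : Fin m × Fin m → ℤ)
    (hx : ∀ c, |x c| ≤ (n : ℤ) ^ 300) (hg : ∀ k, |g k| ≤ (n : ℤ) ^ 300) :
    (instT n hm g x).Valid := by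
  have hn0 : (0 : ℤ) ≤ (n : ℤ) ^ 300 := by positivity
  refine ⟨?_, ?_, fun i j => wT_symm hm g x i j, ?_⟩
  · intro i j
    simp only [instT, flagsT]
    refine decide_eq_decide.2 ⟨?_, ?_⟩
    · rintro ⟨h1, h2, h3⟩
      exact ⟨h2, h1, h3.symm⟩
    · rintro ⟨h1, h2, h3⟩
      exact ⟨h2, h1, h3.symm⟩
  · intro i
    simp [instT, flagsT]
  · intro i j
    show |wT hm g x i j| ≤ _
    by_cases h1 : i.val / m = 0 ∧ j.val / m = 1
    · rw [wT_01 hm g x i j h1.1 h1.2]
      exact hx _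
    by_cases h2 : j.val / m = 0 ∧ i.val / m = 1
    · rw [wT_10 hm g x i j h2.2 h2.1]
      exact hx _
    by_cases h3 : i.val / m = 1 ∧ j.val / m = 2
    · rw [wT_12 hm g x i j h3.1 h3.2, abs_neg]
      exact hg _
    by_cases h4 : j.val / m = 1 ∧ i.val / m = 2
    · rw [wT_21 hm g x i j h4.2 h4.1, abs_neg]
      exact hg _
    rw [wT_other hm g x i j h1 h2 h3 h4, abs_zero]
    exact hn0

theorem sum_012 (hm : 0 < m) (g : Fin m → ℤ) (x : Fin m × Fin m → ℤ)
    (p q r : Fin n) (hp : p.val / m = 0) (hq : q.val / m = 1) (hr : r.val / m = 2) :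
    wT hm g x p q + wT hm g x q r + wT hm g x p r = x (lo hm p, lo hm q) - g (lo hm r) := by
  rw [wT_01 hm g x p q hp hq, wT_12 hm g x q r hq hr,
    wT_other hm g x p r (by omega) (by omega) (by omega) (by omega)]
  ring

theorem special_of_yes (hm : 0 < m) (g : Fin m → ℤ) (x : Fin m × Fin m → ℤ)
    (h : (instT n hm g x).Yes) : ∃ c k, x c = g k := by
  obtain ⟨i, j, k, _, _, _, f1, f2, f3, hs⟩ := h
  simp only [instT, flagsT, decide_eq_true_eq] at f1 f2 f3 hs
  have key : ∀ p q r : Fin n, p.val / m = 0 → q.val / m = 1 → r.val / m = 2 →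
      wT hm g x p q + wT hm g x q r + wT hm g x p r = 0 → ∃ c k, x c = g k := by
    intro p q r hp hq hr h0
    rw [sum_012 hm g x p q r hp hq hr] at h0
    exact ⟨(lo hm p, lo hm q), lo hm r, by linarith⟩
  have s := fun p q => wT_symm (n := n) hm g x p q
  have cases3 : ∀ u : ℕ, u ≤ 2 → u = 0 ∨ u = 1 ∨ u = 2 := by
    intro u hu
    omega
  have c1 := cases3 (i.val / m) f1.1
  have c2 := cases3 (j.val / m) f1.2.1
  have c3 := cases3 (k.val / m) f2.2.1
  rcases c1 with a | a | a <;> rcases c2 with b | b | b <;> rcases c3 with c | c | c <;>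
    first
      | (exfalso; omega)
      | exact key i j k a b c (by linarith [s i j, s j k, s i k])
      | exact key i k j a c b (by linarith [s i j, s j k, s i k])
      | exact key j i k b a c (by linarith [s i j, s j k, s i k])
      | exact key j k i b c a (by linarith [s i j, s j k, s i k])
      | exact key k i j c a b (by linarith [s i j, s j k, s i k])
      | exact key k j i c b a (by linarith [s i j, s j k, s i k])

theorem yes_of_special (hm : 0 < m) (h3 : 3 * m ≤ n) (g : Fin m → ℤ)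
    (x : Fin m × Fin m → ℤ) (c : Fin m × Fin m) (k : Fin m) (hx : x c = g k) :
    (instT n hm g x).Yes := by
  obtain ⟨a, b⟩ := c
  have ha' := a.2
  have hb' := b.2
  have hk' := k.2
  let p : Fin n := ⟨a.val, by omega⟩
  let q : Fin n := ⟨m + b.val, by omega⟩
  let r : Fin n := ⟨2 * m + k.val, by omega⟩
  have hp : p.val / m = 0 := Nat.div_eq_of_lt ha'
  have hq : q.val / m = 1 := by
    show (m + b.val) / m = 1
    rw [Nat.add_div_left _ hm, Nat.div_eq_of_lt hb']
  have hr : r.val / m = 2 := by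
    show (2 * m + k.val) / m = 2
    rw [mul_comm 2 m, Nat.mul_add_div hm, Nat.div_eq_of_lt hk']
  have hlr : lo hm r = k := by
    apply Fin.ext
    show (2 * m + k.val) % m = k.val
    rw [mul_comm 2 m, Nat.mul_add_mod, Nat.mod_eq_of_lt hk']
  have hlp : lo hm p = a := by
    apply Fin.ext
    show a.val % m = a.val
    exact Nat.mod_eq_of_lt ha'
  have hlq : lo hm q = b := by
    apply Fin.ext
    show (m + b.val) % m = b.val
    rw [Nat.add_mod_left, Nat.mod_eq_of_lt hb']
  have hpq : p ≠ q := fun h => by rw [h] at hp; omega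
  have hqr : q ≠ r := fun h => by rw [h] at hq; omega
  have hpr : p ≠ r := fun h => by rw [h] at hp; omega
  refine ⟨p, q, r, hpq, hqr, hpr, ?_, ?_, ?_, ?_⟩
  · simp [instT, flagsT, hp, hq]
  · simp [instT, flagsT, hq, hr]
  · simp [instT, flagsT, hp, hr]
  · show wT hm g x p q + wT hm g x q r + wT hm g x p r = 0
    rw [sum_012 hm g x p q r hp hq hr, hlp, hlq, hlr, hx]
    ring

end Pool.Agent.Helper14.PR
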