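import Pool.Agent.Helper14.PR.Levels
import Pool.Agent.Helper14.PR.Embed

set_option autoImplicit false

/-!
From an algorithm for Exact Triangle to the inequality between the parameters.
-/

open Finset
open scoped BigOperators

namespace Pool.Agent.Helper14.PR

theorem exists_enum (F : Finset ℤ) (hF : F.Nonempty) {m : ℕ} (hm : F.card ≤ m) :
    ∃ g : Fin m → ℤ, (∀ k, g k ∈ F) ∧ ∀ z ∈ F, ∃ k, g k = z := by
  classical
  obtain ⟨z0, hz0⟩ := hF
  refine ⟨fun k => if h : (k : ℕ) < F.card then (F.equivFin.symm ⟨k, h⟩ : ℤ) else z0, ?_, ?_⟩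
  · intro k
    by_cases h : (k : ℕ) < F.card
    · simp only [dif_pos h]
      exact (F.equivFin.symm ⟨k, h⟩).2
    · simp only [dif_neg h]
      exact hz0
  · intro z hz
    have h1 := (F.equivFin ⟨z, hz⟩).2
    refine ⟨⟨(F.equivFin ⟨z, hz⟩ : ℕ), by omega⟩, ?_⟩
    simp only [dif_pos h1]
    simp

open Classical in
/-- The main inequality. -/
theorem core {n m d D e t Z B R M P H Lb Q a b h : ℕ} {Λ : ℝ} (hm : 0 < m) (h3 : 3 * m ≤ n)
    (hh : 0 < h) (hHP : H = h * P) (hL : 0 < Lb) (hQ : 0 < Q) (hM : 0 < M)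
    (hS : ∀ k, Scl (m * m) d P Λ (sm M P Lb Q a b k) (rho M P Lb Q a b k))
    (hS₂ : ∀ k, Scl (m * m) d M Λ (sd M P Lb Q a b k) (rho2 M P Lb Q a b k))
    (hML : M ^ t * Lb ≤ m) (hρ : rho M P Lb Q a b t ≤ n ^ 300)
    (A : Alg n d D e t Z B R) (hA : Decides A) :
    ((m : ℝ) * m) * (1 - 1 / h) ^ t / 3 ≤
      B + t * (D * (d * d / M) * phc (m * m) d h H) +
        Z * (e * (2 * (((m * m : ℕ) : ℝ) / Q) + 1 / Lb)) := by
  have hcV : Fintype.card (Fin m × Fin m) = m * m := by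
    rw [Fintype.card_prod, Fintype.card_fin]
  rw [← hcV] at hS hS₂
  have hP : 0 < P := (hS 0).hP
  have hH : 0 < H := by rw [hHP]; positivity
  set L := law M P H Lb Q a b t with hLdef
  have hne := data_nonempty (M := M) (H := H) (Lb := Lb) (Q := Q) hM hH hL hQ t
  -- the targets
  obtain ⟨F, hFc, hF⟩ := law_tgt (M := M) (P := P) (H := H) (Lb := Lb) (Q := Q) (a := a) (b := b) t
  set F' := (univ : Finset (Data M H Lb Q t)).image L.τ with hF'
  have hF'c : F'.card ≤ m := by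
    refine (card_le_card ?_).trans (hFc.trans hML)
    intro z hz
    obtain ⟨x, _, rfl⟩ := mem_image.1 hz
    exact hF x
  obtain ⟨g, hg1, hg2⟩ := exists_enum F' ⟨L.τ hne.some, mem_image_of_mem _ (mem_univ _)⟩ hF'c
  set σ : Fin n × Fin n → ℤ ⊕ (Fin m × Fin m) := sgm hm g with hσ
  have hbig : ((rho M P Lb Q a b t : ℕ) : ℤ) ≤ (n : ℤ) ^ 300 := by exact_mod_cast hρ
  have hgb : ∀ k, |g k| ≤ (n : ℤ) ^ 300 := by
    intro k
    obtain ⟨x, _, hx⟩ := mem_image.1 (hg1 k)
    have h1 := (law_r (M := M) (P := P) (H := H) (Lb := Lb) (a := a) (b := b) hQ t x).2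
    rw [← hx, abs_of_nonneg h1.1]
    exact h1.2.trans hbig
  have hrb : ∀ x : Data M H Lb Q t, |L.r x| ≤ (n : ℤ) ^ 300 := by
    intro x
    have h1 := (law_r (M := M) (P := P) (H := H) (Lb := Lb) (a := a) (b := b) hQ t x).1
    rw [abs_of_nonneg h1.1]
    exact h1.2.trans hbig
  have hτb : ∀ x : Data M H Lb Q t, |L.τ x| ≤ (n : ℤ) ^ 300 := by
    intro x
    have h1 := (law_r (M := M) (P := P) (H := H) (Lb := Lb) (a := a) (b := b) hQ t x).2
    rw [abs_of_nonneg h1.1]
    exact h1.2.trans hbig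
  have hne' : ∀ (x : Data M H Lb Q t) (k : Fin m), L.r x ≠ g k := by
    intro x k hxk
    obtain ⟨x', _, hx'⟩ := mem_image.1 (hg1 k)
    obtain ⟨⟨c, y, hy, h1⟩, _⟩ := law_res (M := M) (P := P) (H := H) (Lb := Lb) (Q := Q)
      (a := a) (b := b) t x
    obtain ⟨_, c', h2⟩ := law_res (M := M) (P := P) (H := H) (Lb := Lb) (Q := Q)
      (a := a) (b := b) t x'
    have h4 : ((Q : ℤ) + 1) * c + 1 + y = (Q + 1) * c' := by
      rw [← h1, ← h2]
      exact hxk.trans hx'.symm
    have h5 : (1 : ℤ) + y = (Q + 1) * (c' - c) := by linarith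
    have hy' : (y : ℤ) < Q := by exact_mod_cast hy
    have hy0 : (0 : ℤ) ≤ (y : ℤ) := Int.natCast_nonneg _
    have h6 : 0 < c' - c := by
      by_contra hcon
      push Not at hcon
      nlinarith
    nlinarith
  -- the instances
  have hno : ∀ ω : Fin m × Fin m → Data M H Lb Q t,
      (instT n hm g (val L ∅ 0 ω)).Valid ∧ ¬ (instT n hm g (val L ∅ 0 ω)).Yes := by
    intro ω
    have hv : ∀ c, val L ∅ 0 ω c = L.r (ω c) := by
      intro c
      unfold val
      simp
    refine ⟨instT_valid hm g _ (fun c => by rw [hv]; exact hrb _) hgb, fun h => ?_⟩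
    obtain ⟨c, k, hck⟩ := special_of_yes hm g _ h
    rw [hv] at hck
    exact hne' _ _ hck
  have hyes : ∀ (ω : Fin m × Fin m → Data M H Lb Q t) (c : Fin m × Fin m),
      (instT n hm g (plant L ∅ 0 ω c)).Valid ∧ (instT n hm g (plant L ∅ 0 ω c)).Yes := by
    intro ω c
    have hv : ∀ c', plant L ∅ 0 ω c c' = if c' = c then L.τ (ω c) else L.r (ω c') := by
      intro c'
      unfold plant
      by_cases hc : c' = c
      · subst hc
        rw [Function.update_self, if_pos rfl]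
        simp
      · rw [Function.update_of_ne hc, if_neg hc]
        unfold val
        simp
    refine ⟨instT_valid hm g _ (fun c' => ?_) hgb, ?_⟩
    · rw [hv]
      split_ifs
      · exact hτb _
      · exact hrb _
    · obtain ⟨k, hk⟩ := hg2 (L.τ (ω c)) (mem_image_of_mem _ (mem_univ _))
      refine yes_of_special hm h3 g _ c k ?_
      rw [hv, if_pos rfl, hk]
  -- the trees
  set T : (Fin R → Bool) → Tree (Fin n × Fin n) d D e t Z B := fun ρ => A (flagsT n m) ρ with hT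
  have hdiff : ∀ (ω : Fin m × Fin m → Data M H Lb Q t) (c : Fin m × Fin m),
      (2 : ℝ) ^ R / 3 ≤ ∑ ρ : Fin R → Bool,
        if (T ρ).eval (cw σ (val L ∅ 0 ω)) ≠ (T ρ).eval (cw σ (plant L ∅ 0 ω c))
          then (1 : ℝ) else 0 := by
    intro ω c
    have h1 := hA _ (hno ω).1
    have h2 := hA _ (hyes ω c).1
    have h1' : (univ.filter fun ρ : Fin R → Bool =>
        ((A (instT n hm g (val L ∅ 0 ω)).flag ρ).eval
          (fun c => (instT n hm g (val L ∅ 0 ω)).wt c.1 c.2) = true ↔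
            (instT n hm g (val L ∅ 0 ω)).Yes)) =
        univ.filter fun ρ => (T ρ).eval (cw σ (val L ∅ 0 ω)) = false := by
      refine filter_congr fun ρ _ => ?_
      rw [iff_false_right (hno ω).2]
      exact Bool.not_eq_true _ ▸ Iff.rfl
    have h2' : (univ.filter fun ρ : Fin R → Bool =>
        ((A (instT n hm g (plant L ∅ 0 ω c)).flag ρ).eval
          (fun c' => (instT n hm g (plant L ∅ 0 ω c)).wt c'.1 c'.2) = true ↔
            (instT n hm g (plant L ∅ 0 ω c)).Yes)) =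
        univ.filter fun ρ => (T ρ).eval (cw σ (plant L ∅ 0 ω c)) = true := by
      refine filter_congr fun ρ _ => ?_
      rw [iff_true_right (hyes ω c).2]
      exact Iff.rfl
    rw [h1'] at h1
    rw [h2'] at h2
    have h4 : (∑ ρ : Fin R → Bool,
        if (T ρ).eval (cw σ (val L ∅ 0 ω)) ≠ (T ρ).eval (cw σ (plant L ∅ 0 ω c))
          then (1 : ℝ) else 0) = ((univ.filter fun ρ : Fin R → Bool =>
          (T ρ).eval (cw σ (val L ∅ 0 ω)) ≠ (T ρ).eval (cw σ (plant L ∅ 0 ω c))).card : ℝ) := by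
      rw [Finset.card_filter]
      push_cast
      rfl
    rw [h4]
    have h5 : (univ.filter fun ρ => (T ρ).eval (cw σ (val L ∅ 0 ω)) = false) ∩
        (univ.filter fun ρ => (T ρ).eval (cw σ (plant L ∅ 0 ω c)) = true) ⊆
        (univ.filter fun ρ : Fin R → Bool =>
          (T ρ).eval (cw σ (val L ∅ 0 ω)) ≠ (T ρ).eval (cw σ (plant L ∅ 0 ω c))) := by
      intro ρ hρ
      rw [mem_inter, mem_filter, mem_filter] at hρ
      rw [mem_filter]
      refine ⟨mem_univ _, ?_⟩
      rw [hρ.1.2, hρ.2.2]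
      simp
    have h6 := card_le_card h5
    have h7 := card_union_add_card_inter
      (univ.filter fun ρ => (T ρ).eval (cw σ (val L ∅ 0 ω)) = false)
      (univ.filter fun ρ => (T ρ).eval (cw σ (plant L ∅ 0 ω c)) = true)
    have h8 := card_le_univ ((univ.filter fun ρ => (T ρ).eval (cw σ (val L ∅ 0 ω)) = false) ∪
      (univ.filter fun ρ => (T ρ).eval (cw σ (plant L ∅ 0 ω c)) = true))
    have h9 : Fintype.card (Fin R → Bool) = 2 ^ R := by
      rw [Fintype.card_fun, Fintype.card_bool, Fintype.card_fin]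
    rw [h9] at h8
    have h10 : 2 ^ R ≤ 3 * (univ.filter fun ρ : Fin R → Bool =>
          (T ρ).eval (cw σ (val L ∅ 0 ω)) ≠ (T ρ).eval (cw σ (plant L ∅ 0 ω c))).card := by
      omega
    have h11 : (2 : ℝ) ^ R ≤ 3 * ((univ.filter fun ρ : Fin R → Bool =>
          (T ρ).eval (cw σ (val L ∅ 0 ω)) ≠
            (T ρ).eval (cw σ (plant L ∅ 0 ω c))).card : ℝ) := by
      exact_mod_cast h10
    linarith
  -- the sum over the random bits
  have hFn : ∀ (ω : Fin m × Fin m → Data M H Lb Q t) (ρ : Fin R → Bool),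
      Fn σ L (T ρ) ∅ 0 ω = ∑ c : Fin m × Fin m, (if L.ia (ω c) then (1 : ℝ) else 0) *
        (if (T ρ).eval (cw σ (val L ∅ 0 ω)) ≠ (T ρ).eval (cw σ (plant L ∅ 0 ω c))
          then (1 : ℝ) else 0) := by
    intro ω ρ
    unfold Fn
    rw [Finset.card_filter]
    push_cast
    refine Finset.sum_congr rfl fun c _ => ?_
    by_cases h1 : L.ia (ω c)
    · by_cases h2 : (T ρ).eval (cw σ (val L ∅ 0 ω)) ≠ (T ρ).eval (cw σ (plant L ∅ 0 ω c))
      · rw [if_pos h1, if_pos h2, if_pos ⟨by simp, h1, h2⟩, mul_one]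
      · rw [if_neg h2, if_neg fun h => h2 h.2.2, mul_zero]
    · rw [if_neg h1, if_neg fun h => h1 h.2.1, zero_mul]
  have hlow : ∀ ω : Fin m × Fin m → Data M H Lb Q t,
      (2 : ℝ) ^ R / 3 * ∑ c : Fin m × Fin m, (if L.ia (ω c) then (1 : ℝ) else 0) ≤
        ∑ ρ : Fin R → Bool, Fn σ L (T ρ) ∅ 0 ω := by
    intro ω
    simp only [hFn]
    rw [Finset.sum_comm, Finset.mul_sum]
    refine Finset.sum_le_sum fun c _ => ?_
    rw [← Finset.mul_sum, mul_comm]
    refine mul_le_mul_of_nonneg_left (hdiff ω c) ?_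
    split_ifs <;> norm_num
  have h1 := avg_mono hlow
  rw [avg_smul, avg_sum, avg_sum] at h1
  have h2 : ∀ c : Fin m × Fin m, avg (fun ω : Fin m × Fin m → Data M H Lb Q t =>
      if L.ia (ω c) then (1 : ℝ) else 0) = (1 - 1 / h) ^ t := by
    intro c
    rw [avg_marginal c (fun x : Data M H Lb Q t => if L.ia x then (1 : ℝ) else 0)]
    convert law_ia (a := a) (b := b) hM hP hh hHP hL hQ t
  rw [Finset.sum_congr rfl fun c _ => h2 c, Finset.sum_const, Finset.card_univ, hcV,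
    nsmul_eq_mul] at h1
  have h3' : ∑ ρ : Fin R → Bool, avg (fun ω => Fn σ L (T ρ) ∅ 0 ω) ≤
      2 ^ R * (B + t * (D * (d * d / M) * phc (m * m) d h H) +
        Z * (e * (2 * (((m * m : ℕ) : ℝ) / Q) + 1 / Lb))) := by
    have h4 : ∀ ρ : Fin R → Bool, avg (fun ω => Fn σ L (T ρ) ∅ 0 ω) ≤
        (B + t * (D * (d * d / M) * phc (m * m) d h H) +
        Z * (e * (2 * (((m * m : ℕ) : ℝ) / Q) + 1 / Lb))) := by
      intro ρ
      have h5 := main_bound (σ := σ) hh hHP hL hQ hM hS hS₂ (T ρ) ∅ 0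
      rw [hcV] at h5
      exact h5
    refine (Finset.sum_le_sum fun ρ _ => h4 ρ).trans (le_of_eq ?_)
    rw [Finset.sum_const, Finset.card_univ, Fintype.card_fun, Fintype.card_bool,
      Fintype.card_fin, nsmul_eq_mul]
    push_cast
    rfl
  have h6 := h1.trans h3'
  have h7 : (0 : ℝ) < 2 ^ R := by positivity
  have h8 : (2 : ℝ) ^ R / 3 * (((m * m : ℕ) : ℝ) * (1 - 1 / h) ^ t) =
      2 ^ R * ((m : ℝ) * m * (1 - 1 / h) ^ t / 3) := by
    push_cast
    ring
  rw [h8] at h6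
  exact le_of_mul_le_mul_left h6 h7

end Pool.Agent.Helper14.PR
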