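import Mathlib

set_option autoImplicit false

/-!
Exact Triangle for algorithms that ask at most `t` times for the signs of many polynomials in all
the weights at once, and besides ask for zero tests and read weights.
-/

namespace Pool.Agent.Helper14.PR

/-- An instance of Exact Triangle on `n` vertices: an edge flag and an integer weight in every
cell of an `n × n` matrix. -/
structure Inst (n : ℕ) where
  flag : Fin n → Fin n → Bool
  wt : Fin n → Fin n → ℤ

/-- Valid instances: symmetric, loopless, all weights in `[-n^300, n^300]`. -/
def Inst.Valid {n : ℕ} (I : Inst n) : Prop :=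
  (∀ i j, I.flag i j = I.flag j i) ∧ (∀ i, I.flag i i = false) ∧
  (∀ i j, I.wt i j = I.wt j i) ∧ (∀ i j, |I.wt i j| ≤ (n : ℤ) ^ 300)

/-- Yes-instances: some triangle of edges has total weight zero. -/
def Inst.Yes {n : ℕ} (I : Inst n) : Prop :=
  ∃ i j k : Fin n, i ≠ j ∧ j ≠ k ∧ i ≠ k ∧
    I.flag i j = true ∧ I.flag j k = true ∧ I.flag i k = true ∧
    I.wt i j + I.wt j k + I.wt i k = 0

/-- Computation trees on integers `w c`, where `c` runs through the cells `κ`. A node of the tree
`Tree κ d D e t Z B` is an output, or it reads one of the integers (at most `B` such nodes on a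
path), or it tests whether a real polynomial of degree at most `e` vanishes (at most `Z` such
nodes on a path), or it asks for the signs of `D` real polynomials of degree at most `d` at once
(at most `t` such nodes on a path). The variables of the polynomials are all the integers. The
further course depends in an arbitrary way on the answers. -/
inductive Tree (κ : Type) (d D e : ℕ) : ℕ → ℕ → ℕ → Type
  | out {t Z B : ℕ} (b : Bool) : Tree κ d D e t Z B
  | read {t Z B : ℕ} (c : κ) (next : ℤ → Tree κ d D e t Z B) : Tree κ d D e t Z (B + 1)
  | zero {t Z B : ℕ} (p : MvPolynomial κ ℝ) (hp : p.totalDegree ≤ e)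
      (next : Bool → Tree κ d D e t Z B) : Tree κ d D e t (Z + 1) B
  | signs {t Z B : ℕ} (p : Fin D → MvPolynomial κ ℝ) (hp : ∀ j, (p j).totalDegree ≤ d)
      (next : (Fin D → SignType) → Tree κ d D e t Z B) : Tree κ d D e (t + 1) Z B

/-- The value of a polynomial at the integers `w`. -/
noncomputable def pval {κ : Type} (w : κ → ℤ) (p : MvPolynomial κ ℝ) : ℝ :=
  MvPolynomial.eval (fun c => (w c : ℝ)) p

/-- The output of a computation tree on the integers `w`. -/
noncomputable def Tree.eval {κ : Type} {d D e : ℕ} :
    {t Z B : ℕ} → Tree κ d D e t Z B → (κ → ℤ) → Bool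
  | _, _, _, .out b, _ => b
  | _, _, _, .read c next, w => (next (w c)).eval w
  | _, _, _, .zero p _ next, w => (next (decide (pval w p = 0))).eval w
  | _, _, _, .signs p _ next, w => (next fun j => SignType.sign (pval w (p j))).eval w

/-- A randomized algorithm on `n`-vertex instances with `R` random bits: for all flags and all
random bits a computation tree on the weights. -/
abbrev Alg (n d D e t Z B R : ℕ) : Type :=
  (Fin n → Fin n → Bool) → (Fin R → Bool) → Tree (Fin n × Fin n) d D e t Z B

open Classical in
/-- The algorithm decides Exact Triangle with bounded error: on every valid instance the output is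
correct with probability at least `2/3` over the random bits. -/
def Decides {n d D e t Z B R : ℕ} (A : Alg n d D e t Z B R) : Prop :=
  ∀ I : Inst n, I.Valid →
    2 * 2 ^ R ≤ 3 * (Finset.univ.filter fun ρ : Fin R → Bool =>
      ((A I.flag ρ).eval (fun c => I.wt c.1 c.2) = true ↔ I.Yes)).card

end Pool.Agent.Helper14.PR
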