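import Pool.Agent.Helper14.PR.Defs

set_option autoImplicit false

/-!
The upper bounds: linear sign tests in `t` rounds that divide the interval of possible values of
every weight into `b` parts; and zero tests of products of sums of three weights.
-/

namespace Pool.Agent.Helper14.PR

variable {n b d e : ℕ}

/-- The index of a query: a cell and a threshold. -/
def dec (n b : ℕ) : Fin (n * n * b) ≃ (Fin n × Fin n) × Fin b :=
  finProdFinEquiv.symm.trans (Equiv.prodCongr finProdFinEquiv.symm (Equiv.refl _))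

/-- The polynomial `w c - z`. -/
noncomputable def lin (c : Fin n × Fin n) (z : ℤ) : MvPolynomial (Fin n × Fin n) ℝ :=
  MvPolynomial.X c + MvPolynomial.C (-(z : ℝ))

theorem lin_deg (c : Fin n × Fin n) (z : ℤ) : (lin c z).totalDegree ≤ 1 := by
  unfold lin
  refine (MvPolynomial.totalDegree_add _ _).trans ?_
  rw [MvPolynomial.totalDegree_C, MvPolynomial.totalDegree_X]
  simp

theorem pval_lin (w : Fin n × Fin n → ℤ) (c : Fin n × Fin n) (z : ℤ) :
    pval w (lin c z) = ((w c - z : ℤ) : ℝ) := by
  unfold pval lin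
  rw [map_add, MvPolynomial.eval_X, MvPolynomial.eval_C]
  push_cast
  ring

/-- Number of thresholds of the cell `c` that are at most the weight. -/
def cnt (s : Fin (n * n * b) → SignType) (c : Fin n × Fin n) : ℕ :=
  (Finset.univ.filter fun k : Fin b => s ((dec n b).symm (c, k)) ≠ -1).card

open Classical in
/-- The search tree: the weight of the cell `c` is known to be in `[lo c, lo c + b ^ t)`. -/
noncomputable def search (hd : 1 ≤ d) (fl : Fin n → Fin n → Bool) {Z B : ℕ} :
    (t : ℕ) → (Fin n × Fin n → ℤ) → Tree (Fin n × Fin n) d (n * n * b) e t Z B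
  | 0, lo => .out (decide (Inst.Yes ⟨fl, fun i j => lo (i, j)⟩))
  | t + 1, lo => .signs
      (fun l => lin (dec n b l).1 (lo (dec n b l).1 + ((dec n b l).2 : ℕ) * (b : ℤ) ^ t))
      (fun _ => (lin_deg _ _).trans hd)
      (fun s => search hd fl t (fun c => lo c + ((cnt s c : ℤ) - 1) * (b : ℤ) ^ t))

theorem card_lt_div (W x : ℤ) (hW : 0 < W) (hx0 : 0 ≤ x) (hx : x < b * W) :
    ((Finset.univ.filter fun c : Fin b => ¬ (x - (c : ℕ) * W < 0)).card : ℤ) = x / W + 1 := by
  have hq0 : 0 ≤ x / W := Int.ediv_nonneg hx0 hW.le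
  have hqb : x / W < b := by
    apply Int.ediv_lt_of_lt_mul hW
    exact hx
  obtain ⟨q, hq⟩ := Int.eq_ofNat_of_zero_le hq0
  rw [hq] at hqb ⊢
  have hqb' : q < b := by exact_mod_cast hqb
  have h1 : (Finset.univ.filter fun c : Fin b => ¬ (x - (c : ℕ) * W < 0)) =
      Finset.univ.filter fun c : Fin b => (c : ℕ) ≤ q := by
    apply Finset.filter_congr
    intro c _
    have h2 : ((c : ℕ) : ℤ) ≤ x / W ↔ (c : ℕ) * W ≤ x := Int.le_ediv_iff_mul_le hW
    rw [hq] at h2
    constructor
    · intro h3
      have : ((c : ℕ) : ℤ) ≤ (q : ℤ) := h2.2 (by linarith)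
      exact_mod_cast this
    · intro h3
      have h4 : ((c : ℕ) : ℤ) ≤ (q : ℤ) := by exact_mod_cast h3
      have := h2.1 h4
      linarith
  rw [h1]
  have h3 : (Finset.univ.filter fun c : Fin b => (c : ℕ) ≤ q).card = q + 1 := by
    have h4 : (Finset.univ.filter fun c : Fin b => (c : ℕ) ≤ q) =
        Finset.univ.filter fun c : Fin b => (c : ℕ) < q + 1 := by
      apply Finset.filter_congr
      intro c _
      omega
    rw [h4]
    have h5 := Fin.card_filter_val_lt (n := b) (m := q + 1)
    rw [h5]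
    omega
  rw [h3]
  push_cast
  ring

theorem search_eval (hd : 1 ≤ d) (hb : 0 < b) (fl : Fin n → Fin n → Bool) {Z B : ℕ}
    (w : Fin n × Fin n → ℤ) : ∀ (t : ℕ) (lo : Fin n × Fin n → ℤ),
    (∀ c, lo c ≤ w c ∧ w c < lo c + (b : ℤ) ^ t) →
    ((search (e := e) (Z := Z) (B := B) (b := b) hd fl t lo).eval w = true ↔
      Inst.Yes ⟨fl, fun i j => w (i, j)⟩) := by
  intro t
  induction t with
  | zero =>
    intro lo h
    have h1 : lo = w := by
      funext c
      have := h c
      rw [pow_zero] at this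
      omega
    subst h1
    simp only [search, Tree.eval, decide_eq_true_eq]
  | succ t ih =>
    intro lo h
    simp only [search, Tree.eval]
    apply ih
    intro c
    have hc := h c
    set W : ℤ := (b : ℤ) ^ t with hW
    have hbZ : (0 : ℤ) < b := by exact_mod_cast hb
    have hW0 : 0 < W := by positivity
    have hbW : (b : ℤ) ^ (t + 1) = b * W := by rw [hW, pow_succ, mul_comm]
    rw [hbW] at hc
    set s : Fin (n * n * b) → SignType := fun j => SignType.sign (pval w
      (lin (dec n b j).1 (lo (dec n b j).1 + ((dec n b j).2 : ℕ) * W))) with hs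
    have hcnt : (cnt s c : ℤ) = (w c - lo c) / W + 1 := by
      have h1 : cnt s c = (Finset.univ.filter fun k : Fin b =>
          ¬ ((w c - lo c) - (k : ℕ) * W < 0)).card := by
        unfold cnt
        congr 1
        apply Finset.filter_congr
        intro k _
        rw [hs]
        simp only [Equiv.apply_symm_apply]
        rw [pval_lin, ne_eq, sign_eq_neg_one_iff, Int.cast_lt_zero]
        have h2 : w c - (lo c + (k : ℕ) * W) = w c - lo c - (k : ℕ) * W := by ring
        rw [h2]
      rw [h1]
      exact card_lt_div W _ hW0 (by linarith [hc.1]) (by linarith [hc.2])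
    rw [hcnt]
    have h5 := Int.emod_add_mul_ediv (w c - lo c) W
    have h6 := Int.emod_nonneg (w c - lo c) hW0.ne'
    have h7 := Int.emod_lt_of_pos (w c - lo c) hW0
    have h9 : ((w c - lo c) / W + 1 - 1) * W = W * ((w c - lo c) / W) := by ring
    rw [h9]
    constructor <;> linarith

theorem decides_of_correct {D t Z B : ℕ} (A : Alg n d D e t Z B 0)
    (h : ∀ I : Inst n, I.Valid → ∀ ρ : Fin 0 → Bool,
      ((A I.flag ρ).eval (fun c => I.wt c.1 c.2) = true ↔ I.Yes)) : Decides A := by
  classical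
  intro I hI
  have h1 : (Finset.univ.filter fun ρ : Fin 0 → Bool =>
      ((A I.flag ρ).eval (fun c => I.wt c.1 c.2) = true ↔ I.Yes)) = Finset.univ := by
    apply Finset.filter_true_of_mem
    intro ρ _
    exact h I hI ρ
  have h2 : (Finset.univ.filter fun ρ : Fin 0 → Bool =>
      ((A I.flag ρ).eval (fun c => I.wt c.1 c.2) = true ↔ I.Yes)).card = 1 := by
    rw [h1]
    simp
  have h3 : 2 * 2 ^ 0 ≤ 3 * (Finset.univ.filter fun ρ : Fin 0 → Bool =>
      ((A I.flag ρ).eval (fun c => I.wt c.1 c.2) = true ↔ I.Yes)).card := by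
    rw [h2]
    norm_num
  convert h3

/-- The upper bound for rounds of sign tests. -/
theorem upper_signs (n t d e Z B b : ℕ) (hd : 1 ≤ d) (hbt : 2 * n ^ 300 + 1 ≤ b ^ t) :
    ∃ A : Alg n d (n * n * b) e t Z B 0, Decides A := by
  classical
  rcases Nat.eq_zero_or_pos n with hn | hn
  · subst hn
    refine ⟨fun _ _ => .out false, decides_of_correct _ ?_⟩
    intro I _ ρ
    simp only [Tree.eval]
    constructor
    · intro h
      exact absurd h (by simp)
    · rintro ⟨i, _⟩
      exact Fin.elim0 i
  · have hb : 0 < b := by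
      rcases Nat.eq_zero_or_pos b with hb0 | hb
      · rcases Nat.eq_zero_or_pos t with ht | ht
        · subst ht
          rw [pow_zero] at hbt
          have : 1 ≤ n ^ 300 := Nat.one_le_pow _ _ hn
          omega
        · rw [hb0, zero_pow ht.ne'] at hbt
          omega
      · exact hb
    refine ⟨fun fl _ => search hd fl t (fun _ => -((n : ℤ) ^ 300)), decides_of_correct _ ?_⟩
    intro I hI ρ
    refine search_eval hd hb I.flag (fun c => I.wt c.1 c.2) t _ ?_
    intro c
    have h1 := abs_le.1 (hI.2.2.2 c.1 c.2)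
    have h2 : (2 : ℤ) * (n : ℤ) ^ 300 + 1 ≤ (b : ℤ) ^ t := by exact_mod_cast hbt
    exact ⟨h1.1, by linarith [h1.2]⟩

/-- The sum of the three weights of a triangle. -/
noncomputable def tri (p : Fin n × Fin n × Fin n) : MvPolynomial (Fin n × Fin n) ℝ :=
  MvPolynomial.X (p.1, p.2.1) + MvPolynomial.X (p.2.1, p.2.2) + MvPolynomial.X (p.1, p.2.2)

theorem tri_deg (p : Fin n × Fin n × Fin n) : (tri p).totalDegree ≤ 1 := by
  unfold tri
  refine (MvPolynomial.totalDegree_add _ _).trans (max_le ?_ ?_)
  · refine (MvPolynomial.totalDegree_add _ _).trans (max_le ?_ ?_)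
    · rw [MvPolynomial.totalDegree_X]
    · rw [MvPolynomial.totalDegree_X]
  · rw [MvPolynomial.totalDegree_X]

theorem pval_tri (w : Fin n × Fin n → ℤ) (p : Fin n × Fin n × Fin n) :
    pval w (tri p) = ((w (p.1, p.2.1) + w (p.2.1, p.2.2) + w (p.1, p.2.2) : ℤ) : ℝ) := by
  unfold pval tri
  rw [map_add, map_add, MvPolynomial.eval_X, MvPolynomial.eval_X, MvPolynomial.eval_X]
  push_cast
  ring

theorem prod_deg (L : List (Fin n × Fin n × Fin n)) :
    ((L.map tri).prod).totalDegree ≤ L.length := by
  induction L with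
  | nil => simp
  | cons p L ih =>
    rw [List.map_cons, List.prod_cons, List.length_cons]
    refine (MvPolynomial.totalDegree_mul _ _).trans ?_
    have := tri_deg p
    omega

theorem pval_prod (w : Fin n × Fin n → ℤ) (L : List (Fin n × Fin n × Fin n)) :
    pval w ((L.map tri).prod) = 0 ↔
      ∃ p ∈ L, w (p.1, p.2.1) + w (p.2.1, p.2.2) + w (p.1, p.2.2) = 0 := by
  induction L with
  | nil => simp [pval]
  | cons p L ih =>
    rw [List.map_cons, List.prod_cons]
    have h1 : pval w (tri p * (L.map tri).prod) = pval w (tri p) * pval w ((L.map tri).prod) := by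
      unfold pval
      rw [map_mul]
    rw [h1, mul_eq_zero, ih, pval_tri, Int.cast_eq_zero]
    simp

/-- Zero tests of products of `e` sums of three weights. -/
noncomputable def prods {D t B : ℕ} :
    (Z : ℕ) → List (Fin n × Fin n × Fin n) → Tree (Fin n × Fin n) d D e t Z B
  | 0, _ => .out false
  | Z + 1, L => .zero (((L.take e).map tri).prod)
      ((prod_deg _).trans (by rw [List.length_take]; exact min_le_left _ _))
      (fun a => if a then .out true else prods Z (L.drop e))

theorem prods_eval {D t B : ℕ} (w : Fin n × Fin n → ℤ) : ∀ (Z : ℕ)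
    (L : List (Fin n × Fin n × Fin n)), L.length ≤ e * Z →
    ((prods (d := d) (e := e) (D := D) (t := t) (B := B) Z L).eval w = true ↔
      ∃ p ∈ L, w (p.1, p.2.1) + w (p.2.1, p.2.2) + w (p.1, p.2.2) = 0) := by
  intro Z
  induction Z with
  | zero =>
    intro L hL
    have h1 : L = [] := by
      rw [Nat.mul_zero, Nat.le_zero, List.length_eq_zero_iff] at hL
      exact hL
    subst h1
    simp [prods, Tree.eval]
  | succ Z ih =>
    intro L hL
    have hL' : (L.drop e).length ≤ e * Z := by
      rw [List.length_drop]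
      rw [Nat.mul_succ] at hL
      omega
    have h1 := pval_prod w (L.take e)
    have h2 := ih (L.drop e) hL'
    have h3 : (∃ p ∈ L, w (p.1, p.2.1) + w (p.2.1, p.2.2) + w (p.1, p.2.2) = 0) ↔
        (∃ p ∈ L.take e, w (p.1, p.2.1) + w (p.2.1, p.2.2) + w (p.1, p.2.2) = 0) ∨
        (∃ p ∈ L.drop e, w (p.1, p.2.1) + w (p.2.1, p.2.2) + w (p.1, p.2.2) = 0) := by
      conv_lhs => rw [← List.take_append_drop e L]
      simp only [List.mem_append, or_and_right, exists_or]
    rw [h3, ← h1, ← h2]
    simp only [prods, Tree.eval]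
    generalize pval w (((L.take e).map tri).prod) = v
    by_cases h4 : v = 0
    · rw [decide_eq_true h4, if_pos rfl]
      simp [h4, Tree.eval]
    · rw [decide_eq_false h4, if_neg (by simp)]
      simp [h4]

/-- The upper bound for zero tests. -/
theorem upper_zero (n d D e t Z B : ℕ) (h : n ^ 3 ≤ e * Z) :
    ∃ A : Alg n d D e t Z B 0, Decides A := by
  classical
  refine ⟨fun fl _ => prods Z ((Finset.univ.filter fun p : Fin n × Fin n × Fin n =>
    p.1 ≠ p.2.1 ∧ p.2.1 ≠ p.2.2 ∧ p.1 ≠ p.2.2 ∧ fl p.1 p.2.1 = true ∧ fl p.2.1 p.2.2 = true ∧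
      fl p.1 p.2.2 = true).toList), decides_of_correct _ ?_⟩
  intro I _ ρ
  rw [prods_eval]
  · simp only [Finset.mem_toList, Finset.mem_filter, Finset.mem_univ, true_and]
    constructor
    · rintro ⟨⟨i, j, k⟩, ⟨h1, h2, h3, h4, h5, h6⟩, h7⟩
      exact ⟨i, j, k, h1, h2, h3, h4, h5, h6, h7⟩
    · rintro ⟨i, j, k, h1, h2, h3, h4, h5, h6, h7⟩
      exact ⟨(i, j, k), ⟨h1, h2, h3, h4, h5, h6⟩, h7⟩
  · rw [Finset.length_toList]
    refine (Finset.card_filter_le _ _).trans ?_
    rw [Finset.card_univ, Fintype.card_prod, Fintype.card_prod, Fintype.card_fin]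
    calc n * (n * n) = n ^ 3 := by ring
      _ ≤ e * Z := h

end Pool.Agent.Helper14.PR
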