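import Pool.Agent.Helper14.PR.Defs
import Pool.Agent.Helper14.PR.Avg

set_option autoImplicit false
set_option linter.unusedSectionVars false

/-!
Hidden coordinates, planted coordinates, and the number of coordinates whose planting changes the
output of a computation tree.
-/

open Finset
open scoped BigOperators

namespace Pool.Agent.Helper14.PR

/-- The law of a hidden coordinate: the value, the planted value, and whether it may be planted. -/
structure Law (β : Type) where
  r : β → ℤ
  τ : β → ℤ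
  ia : β → Prop

section
variable {κ V β : Type} [Fintype V] [DecidableEq V]

/-- The integers in the cells: constants and hidden coordinates. -/
def cw (σ : κ → ℤ ⊕ V) (x : V → ℤ) (c : κ) : ℤ := Sum.elim id x (σ c)

/-- The hidden coordinates; those in `A` are known, the others are `v` plus a random value. -/
def val (L : Law β) (A : Finset V) (v : V → ℤ) (ω : V → β) (e : V) : ℤ :=
  if e ∈ A then v e else v e + L.r (ω e)

/-- The hidden coordinates after planting at `a`. -/
def plant (L : Law β) (A : Finset V) (v : V → ℤ) (ω : V → β) (a : V) : V → ℤ :=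
  Function.update (val L A v ω) a (v a + L.τ (ω a))

open Classical in
/-- The number of unknown coordinates whose planting changes the output. -/
noncomputable def Fn (σ : κ → ℤ ⊕ V) (L : Law β) {d D e t Z B : ℕ} (T : Tree κ d D e t Z B)
    (A : Finset V) (v : V → ℤ) (ω : V → β) : ℝ :=
  ((univ.filter fun a : V => a ∉ A ∧ L.ia (ω a) ∧
    T.eval (cw σ (val L A v ω)) ≠ T.eval (cw σ (plant L A v ω a))).card : ℝ)

variable {σ : κ → ℤ ⊕ V} {L : Law β} {d D e t Z B : ℕ}

theorem Fn_nonneg (T : Tree κ d D e t Z B) (A : Finset V) (v : V → ℤ) (ω : V → β) :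
    0 ≤ Fn σ L T A v ω := Nat.cast_nonneg _

theorem Fn_le_card (T : Tree κ d D e t Z B) (A : Finset V) (v : V → ℤ) (ω : V → β) :
    Fn σ L T A v ω ≤ Fintype.card V := by
  unfold Fn
  exact_mod_cast Finset.card_le_univ _

theorem val_congr {A : Finset V} {v : V → ℤ} {ω ω' : V → β} (h : ∀ e, e ∉ A → ω e = ω' e) :
    val L A v ω = val L A v ω' := by
  funext e
  unfold val
  by_cases he : e ∈ A
  · rw [if_pos he, if_pos he]
  · rw [if_neg he, if_neg he, h e he]

theorem Fn_congr (T : Tree κ d D e t Z B) {A : Finset V} {v : V → ℤ} {ω ω' : V → β}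
    (h : ∀ e, e ∉ A → ω e = ω' e) : Fn σ L T A v ω = Fn σ L T A v ω' := by
  classical
  unfold Fn
  congr 1
  congr 1
  refine Finset.filter_congr fun a _ => ?_
  rw [val_congr h]
  unfold plant
  rw [val_congr h]
  constructor
  · rintro ⟨h1, h2, h3⟩
    rw [h a h1] at h2 h3
    exact ⟨h1, h2, h3⟩
  · rintro ⟨h1, h2, h3⟩
    rw [← h a h1] at h2 h3
    exact ⟨h1, h2, h3⟩

/-- The known values after the coordinates in `S` have been read. -/
def rdv (L : Law β) (A S : Finset V) (v : V → ℤ) (ω : V → β) (e : V) : ℤ :=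
  if e ∈ S ∧ e ∉ A then v e + L.r (ω e) else v e

theorem rdv_congr {A S : Finset V} {v : V → ℤ} {ω ω' : V → β} (h : ∀ e ∈ S, ω e = ω' e) :
    rdv L A S v ω = rdv L A S v ω' := by
  funext e
  unfold rdv
  by_cases he : e ∈ S ∧ e ∉ A
  · rw [if_pos he, if_pos he, h e he.1]
  · rw [if_neg he, if_neg he]

theorem val_rdv (A S : Finset V) (v : V → ℤ) (ω : V → β) :
    val L (A ∪ S) (rdv L A S v ω) ω = val L A v ω := by
  funext e
  unfold val rdv
  by_cases h1 : e ∈ A
  · simp [h1]
  · by_cases h2 : e ∈ S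
    · simp [h1, h2]
    · simp [h1, h2]

theorem plant_rdv (A S : Finset V) (v : V → ℤ) (ω : V → β) {a : V} (ha : a ∉ S) :
    plant L (A ∪ S) (rdv L A S v ω) ω a = plant L A v ω a := by
  unfold plant
  rw [val_rdv]
  congr 1
  unfold rdv
  rw [if_neg (fun h => ha h.1)]

theorem Fn_rdv (T : Tree κ d D e t Z B) (A S : Finset V) (v : V → ℤ) (ω : V → β) :
    Fn σ L T A v ω ≤ S.card + Fn σ L T (A ∪ S) (rdv L A S v ω) ω := by
  classical
  unfold Fn
  have h : (univ.filter fun a : V => a ∉ A ∧ L.ia (ω a) ∧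
      T.eval (cw σ (val L A v ω)) ≠ T.eval (cw σ (plant L A v ω a))) ⊆
      S ∪ (univ.filter fun a : V => a ∉ A ∪ S ∧ L.ia (ω a) ∧
        T.eval (cw σ (val L (A ∪ S) (rdv L A S v ω) ω)) ≠
          T.eval (cw σ (plant L (A ∪ S) (rdv L A S v ω) ω a))) := by
    intro a ha
    rw [mem_filter] at ha
    obtain ⟨_, h1, h2, h3⟩ := ha
    rw [mem_union, mem_filter]
    by_cases haS : a ∈ S
    · exact Or.inl haS
    · refine Or.inr ⟨mem_univ _, ?_, h2, ?_⟩
      · rw [mem_union, not_or]
        exact ⟨h1, haS⟩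
      · rw [val_rdv, plant_rdv A S v ω haS]
        exact h3
  have h' := (Finset.card_le_card h).trans (Finset.card_union_le _ _)
  exact_mod_cast h'

variable [Fintype β]

/-- The average number of coordinates whose planting changes the output is at most `b`. -/
def Bdd (σ : κ → ℤ ⊕ V) (L : Law β) {d D e t Z B : ℕ} (T : Tree κ d D e t Z B) (b : ℝ) : Prop :=
  ∀ (A : Finset V) (v : V → ℤ), avg (fun ω : V → β => Fn σ L T A v ω) ≤ b

theorem Bdd_out (b : Bool) : Bdd σ L (Tree.out b : Tree κ d D e t Z B) 0 := by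
  intro A v
  refine avg_le_of_le le_rfl fun ω => ?_
  unfold Fn
  simp [Tree.eval]

/-- A read node whose value is known. -/
theorem Fn_read_known (c : κ) (next : ℤ → Tree κ d D e t Z B) (A : Finset V) (v : V → ℤ)
    (ω : V → β) (k : ℤ) (h : σ c = Sum.inl k ∨ ∃ a ∈ A, σ c = Sum.inr a ∧ v a = k) :
    Fn σ L (Tree.read c next : Tree κ d D e t Z (B + 1)) A v ω = Fn σ L (next k) A v ω := by
  classical
  unfold Fn
  congr 1
  congr 1
  refine Finset.filter_congr fun a _ => ?_
  have h1 : cw σ (val L A v ω) c = k := by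
    rcases h with h | ⟨a', ha', h, hk⟩
    · unfold cw; rw [h]; rfl
    · unfold cw; rw [h]
      show val L A v ω a' = k
      unfold val
      rw [if_pos ha', hk]
  have h2 : a ∉ A → cw σ (plant L A v ω a) c = k := by
    intro ha
    rcases h with h | ⟨a', ha', h, hk⟩
    · unfold cw; rw [h]; rfl
    · unfold cw; rw [h]
      show plant L A v ω a a' = k
      unfold plant
      rw [Function.update_of_ne (by rintro rfl; exact ha ha')]
      unfold val
      rw [if_pos ha', hk]
  simp only [Tree.eval, h1]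
  constructor
  · rintro ⟨h3, h4, h5⟩
    rw [h2 h3] at h5
    exact ⟨h3, h4, h5⟩
  · rintro ⟨h3, h4, h5⟩
    rw [h2 h3]
    exact ⟨h3, h4, h5⟩

theorem Bdd_read [Nonempty β] (c : κ) (next : ℤ → Tree κ d D e t Z B) {b : ℝ}
    (h : ∀ z, Bdd σ L (next z) b) :
    Bdd σ L (Tree.read c next : Tree κ d D e t Z (B + 1)) (b + 1) := by
  intro A v
  rcases hc : σ c with k | a
  · have h1 : (fun ω : V → β => Fn σ L (Tree.read c next : Tree κ d D e t Z (B + 1)) A v ω) =
        fun ω => Fn σ L (next k) A v ω := by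
      funext ω
      exact Fn_read_known c next A v ω k (Or.inl hc)
    rw [h1]
    linarith [h k A v]
  by_cases ha : a ∈ A
  · have h1 : (fun ω : V → β => Fn σ L (Tree.read c next : Tree κ d D e t Z (B + 1)) A v ω) =
        fun ω => Fn σ L (next (v a)) A v ω := by
      funext ω
      exact Fn_read_known c next A v ω (v a) (Or.inr ⟨a, ha, hc, rfl⟩)
    rw [h1]
    linarith [h (v a) A v]
  have h1 : ∀ ω : V → β, Fn σ L (Tree.read c next : Tree κ d D e t Z (B + 1)) A v ω ≤
      1 + Fn σ L (next (v a + L.r (ω a))) (A ∪ {a}) (rdv L A {a} v ω) ω := by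
    intro ω
    refine (Fn_rdv _ A {a} v ω).trans ?_
    rw [Finset.card_singleton, Nat.cast_one, Fn_read_known c next (A ∪ {a}) _ ω
      (v a + L.r (ω a)) (Or.inr ⟨a, by simp, hc, ?_⟩)]
    unfold rdv
    rw [if_pos ⟨Finset.mem_singleton_self a, ha⟩]
  refine (avg_mono h1).trans ?_
  rw [avg_add, avg_const]
  have h2 := avg_diag {a} (fun ω₁ ω₂ : V → β =>
    Fn σ L (next (v a + L.r (ω₁ a))) (A ∪ {a}) (rdv L A {a} v ω₁) ω₂)
    (fun ω ω' ω₂ hω => by
      rw [hω a (Finset.mem_singleton_self a), rdv_congr hω])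
    (fun ω₁ ω ω' hω => Fn_congr _ fun e' he' => hω e' fun h' => he' (mem_union_right _ h'))
  rw [h2]
  have h3 : avg (fun ω₁ : V → β => avg fun ω₂ : V → β =>
      Fn σ L (next (v a + L.r (ω₁ a))) (A ∪ {a}) (rdv L A {a} v ω₁) ω₂) ≤ b := by
    refine (avg_mono (g := fun _ => b) fun ω₁ => h _ _ _).trans ?_
    rw [avg_const]
  linarith

end

end Pool.Agent.Helper14.PR
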