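import Pool.Agent.Helper14.PR.Poly
import Pool.Agent.Helper14.LK.Cells

set_option autoImplicit false
set_option linter.unusedSectionVars false

/-!
Zero tests.
-/

open Finset
open scoped BigOperators

namespace Pool.Agent.Helper14.PR

section
variable {V β α : Type} [Fintype V] [DecidableEq V] [Fintype β] [Fintype α]

/-- The marginal law of one coordinate. -/
theorem avg_marginal (a : V) (f : β → ℝ) : avg (fun ω : V → β => f (ω a)) = avg f := by
  unfold avg
  have h1 : ∑ ω : V → β, f (ω a) =
      ∑ q : β × ({j // j ≠ a} → β), f q.1 :=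
    Fintype.sum_equiv (Equiv.funSplitAt a β) _ _ (fun ω => rfl)
  have h2 : (Fintype.card (V → β) : ℝ) = Fintype.card β * Fintype.card ({j // j ≠ a} → β) := by
    rw [Fintype.card_congr (Equiv.funSplitAt a β), Fintype.card_prod]
    push_cast
    rfl
  rw [h1, h2, Fintype.sum_prod_type]
  simp only [Finset.sum_const, Finset.card_univ, nsmul_eq_mul]
  rw [← Finset.mul_sum]
  rcases Nat.eq_zero_or_pos (Fintype.card ({j // j ≠ a} → β)) with h | h
  · rw [h]
    have hβ : IsEmpty β := by
      rw [Fintype.card_eq_zero_iff] at h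
      by_contra hne
      rw [not_isEmpty_iff] at hne
      obtain ⟨b⟩ := hne
      exact h.elim (fun _ => b)
    simp
  · have h' : (Fintype.card ({j // j ≠ a} → β) : ℝ) ≠ 0 := by exact_mod_cast h.ne'
    rw [mul_comm (Fintype.card β : ℝ), mul_div_mul_left _ _ h']

open Classical in
/-- Nonzero polynomials rarely vanish. -/
def SZ (V : Type) [Fintype V] [DecidableEq V] (r : β → ℤ) (Q : ℕ) : Prop :=
  ∀ q : MvPolynomial V ℝ, q ≠ 0 →
    avg (fun ω : V → β => if MvPolynomial.eval (fun e => (r (ω e) : ℝ)) q = 0 then (1 : ℝ)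
      else 0) ≤ q.totalDegree / Q

theorem shift_ne {q : MvPolynomial V ℝ} (hq : q ≠ 0) (c : V → ℝ) :
    MvPolynomial.bind₁ (fun e => MvPolynomial.X e + MvPolynomial.C (c e)) q ≠ 0 := by
  intro h
  apply hq
  apply MvPolynomial.funext
  intro W
  have h1 := congrArg (MvPolynomial.eval (fun e => W e - c e)) h
  rw [eval_bind] at h1
  simpa using h1

theorem SZ_prod {r : β → ℤ} {Q : ℕ} (h : SZ V r Q) (s : α → ℤ) :
    SZ V (fun x : α × β => s x.1 + r x.2) Q := by
  classical
  intro q hq
  rw [avg_pair]
  refine avg_le_of_le (by positivity) fun a => ?_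
  have h1 := h (MvPolynomial.bind₁ (fun e => MvPolynomial.X e + MvPolynomial.C ((s (a e) : ℤ) : ℝ)) q)
    (shift_ne hq _)
  have h2 : (MvPolynomial.bind₁ (fun e => MvPolynomial.X e +
      MvPolynomial.C ((s (a e) : ℤ) : ℝ)) q).totalDegree ≤ q.totalDegree := by
    refine bind_deg _ (fun e => ?_) q
    refine (MvPolynomial.totalDegree_add _ _).trans ?_
    rw [MvPolynomial.totalDegree_X, MvPolynomial.totalDegree_C]
    exact max_le le_rfl (Nat.zero_le _)
  refine (avg_mono fun b => le_of_eq ?_).trans (h1.trans ?_)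
  · congr 1
    rw [eval_bind]
    simp only [map_add, MvPolynomial.eval_X, MvPolynomial.eval_C]
    push_cast
    have h3 : ∀ e, ((s (a e) : ℤ) : ℝ) + (r (b e) : ℝ) = (r (b e) : ℝ) + ((s (a e) : ℤ) : ℝ) :=
      fun e => add_comm _ _
    simp only [h3]
  · have h3 : ((MvPolynomial.bind₁ (fun e => MvPolynomial.X e +
      MvPolynomial.C ((s (a e) : ℤ) : ℝ)) q).totalDegree : ℝ) ≤ q.totalDegree := by
      exact_mod_cast h2
    exact div_le_div_of_nonneg_right h3 (Nat.cast_nonneg _)

theorem SZ_fin {Q : ℕ} (hQ : 0 < Q) : SZ V (fun y : Fin Q => ((y : ℕ) : ℤ)) Q := by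
  classical
  intro q hq
  let S : V → Finset ℝ := fun _ =>
    Finset.image (fun y : Fin Q => ((y : ℕ) : ℝ)) (univ : Finset (Fin Q))
  have hinj : Function.Injective fun y : Fin Q => ((y : ℕ) : ℝ) := by
    intro a b hab
    have hab' : ((a : ℕ) : ℝ) = ((b : ℕ) : ℝ) := hab
    exact Fin.ext (by exact_mod_cast hab')
  have hcard : ∀ e, (S e).card = Q := by
    intro e
    rw [Finset.card_image_of_injective _ hinj, Finset.card_univ, Fintype.card_fin]
  have h1 := Pool.Agent.Helper14.LK.card_zero_box q hq S Q (fun e => (hcard e).ge)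
  simp only [hcard] at h1
  rw [Finset.prod_const, Finset.card_univ] at h1
  have h2 : (univ.filter fun ω : V → Fin Q =>
      MvPolynomial.eval (fun e => ((((ω e : ℕ) : ℤ)) : ℝ)) q = 0).card ≤
      ((Fintype.piFinset S).filter fun f => MvPolynomial.eval f q = 0).card := by
    refine Finset.card_le_card_of_injOn (fun ω e => ((ω e : ℕ) : ℝ)) ?_ ?_
    · intro ω hω
      rw [mem_coe, mem_filter] at hω
      rw [mem_coe, mem_filter, Fintype.mem_piFinset]
      refine ⟨fun e => mem_image_of_mem _ (mem_univ _), ?_⟩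
      have := hω.2
      push_cast at this
      exact this
    · intro ω _ ω' _ h
      funext e
      exact hinj (congrFun h e)
  rw [avg_ite, one_mul]
  have hQ0 : (0 : ℝ) < Q := by exact_mod_cast hQ
  have hc : (Fintype.card (V → Fin Q) : ℝ) = (Q : ℝ) ^ Fintype.card V := by
    rw [Fintype.card_fun, Fintype.card_fin]
    push_cast
    rfl
  rw [hc, div_le_div_iff₀ (by positivity) hQ0]
  exact_mod_cast (Nat.mul_le_mul_right Q h2).trans h1

end

section
variable {κ V β : Type} [Fintype V] [DecidableEq V] [Fintype β] {σ : κ → ℤ ⊕ V} {L : Law β}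
  {d D e t Z B : ℕ}

theorem sub_indep (g : MvPolynomial V ℝ) (a : V) (z : ℝ) {W W' : V → ℝ}
    (h : ∀ i, i ≠ a → W i = W' i) :
    MvPolynomial.eval W (sub g a z) = MvPolynomial.eval W' (sub g a z) := by
  rw [sub_eval, sub_eval]
  congr 1
  congr 1
  funext i
  by_cases hi : i = a
  · subst hi
    rw [Function.update_self, Function.update_self]
  · rw [Function.update_of_ne hi, Function.update_of_ne hi, h i hi]

open Classical in
/-- The planted zeros of a nonzero polynomial. -/
theorem planted_zeros [Nonempty β] {Q Lb : ℕ} (hSZ : SZ V L.r Q)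
    (hLB : ∀ z : ℤ, avg (fun b : β => if L.τ b = z then (1 : ℝ) else 0) ≤ 1 / Lb)
    (g : MvPolynomial V ℝ) (hg : g ≠ 0) (he : g.totalDegree ≤ e) :
    avg (fun ω : V → β => ∑ a : V,
      if MvPolynomial.eval (Function.update (fun i => (L.r (ω i) : ℝ)) a (L.τ (ω a))) g = 0
        then (1 : ℝ) else 0) ≤ e * (Fintype.card V / Q + 1 / Lb) := by
  rw [avg_sum]
  have h1 : ∀ a : V, avg (fun ω : V → β =>
      if MvPolynomial.eval (Function.update (fun i => (L.r (ω i) : ℝ)) a (L.τ (ω a))) g = 0
        then (1 : ℝ) else 0) ≤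
      avg (fun b : β => if sub g a (L.τ b) = 0 then (1 : ℝ) else 0) + e / Q := by
    intro a
    have h2 := avg_diag {a} (fun ω₁ ω₂ : V → β =>
      if MvPolynomial.eval (fun i => (L.r (ω₂ i) : ℝ)) (sub g a (L.τ (ω₁ a))) = 0
        then (1 : ℝ) else 0)
      (fun ω ω' ω₂ hω => by rw [hω a (mem_singleton_self a)])
      (fun ω₁ ω ω' hω => by
        rw [sub_indep g a _ (W := fun i => (L.r (ω i) : ℝ)) (W' := fun i => (L.r (ω' i) : ℝ))
          (fun i hi => by rw [hω i (by simpa using hi)])])
    simp only [← sub_eval]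
    rw [h2, ← avg_marginal a (fun b : β => if sub g a (L.τ b) = 0 then (1 : ℝ) else 0)]
    have h3 : avg (fun _ : V → β => (e / Q : ℝ)) = e / Q := avg_const _
    rw [← h3, ← avg_add]
    refine avg_mono fun ω₁ => ?_
    by_cases hz : sub g a (L.τ (ω₁ a)) = 0
    · rw [if_pos hz, hz]
      simp only [map_zero, if_true]
      rw [avg_const]
      have : (0 : ℝ) ≤ e / Q := by positivity
      linarith
    · rw [if_neg hz, zero_add]
      refine (hSZ _ hz).trans ?_
      refine div_le_div_of_nonneg_right ?_ (Nat.cast_nonneg _)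
      exact_mod_cast (sub_deg g a _).trans he
  refine (Finset.sum_le_sum fun a _ => h1 a).trans ?_
  rw [Finset.sum_add_distrib, Finset.sum_const, Finset.card_univ, nsmul_eq_mul]
  -- the roots
  let Zr : V → Finset ℤ := fun a => ((univ : Finset β).image L.τ).filter fun z =>
    sub g a (z : ℝ) = 0
  have h4 : ∀ a : V, avg (fun b : β => if sub g a (L.τ b) = 0 then (1 : ℝ) else 0) ≤
      (Zr a).card * (1 / Lb) := by
    intro a
    have h5 : (fun b : β => if sub g a (L.τ b) = 0 then (1 : ℝ) else 0) =
        fun b => ∑ z ∈ Zr a, if L.τ b = z then (1 : ℝ) else 0 := by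
      funext b
      rw [Finset.sum_ite_eq]
      have h6 : L.τ b ∈ Zr a ↔ sub g a (L.τ b) = 0 := by
        simp only [Zr, mem_filter, mem_image, mem_univ, true_and]
        exact ⟨fun h => h.2, fun h => ⟨⟨b, rfl⟩, h⟩⟩
      simp only [h6]
    rw [h5, avg_sum]
    refine (Finset.sum_le_sum fun z _ => hLB z).trans ?_
    rw [Finset.sum_const, nsmul_eq_mul]
  have h7 : ∑ a : V, ((Zr a).card : ℝ) ≤ e := by
    have h8 : (univ.sigma Zr).card ≤ e := by
      have h9 := card_divs e g hg he
        ((univ.sigma Zr).map ⟨fun x : (Σ _ : V, ℤ) => (x.1, (x.2 : ℝ)), by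
          rintro ⟨a, z⟩ ⟨a', z'⟩ h
          simp only [Prod.mk.injEq, Int.cast_inj] at h
          rw [h.1, h.2]⟩) (by
          intro x hx
          rw [mem_map] at hx
          obtain ⟨⟨a, z⟩, hz, rfl⟩ := hx
          rw [mem_sigma] at hz
          exact (mem_filter.1 hz.2).2)
      rwa [card_map] at h9
    rw [card_sigma] at h8
    exact_mod_cast h8
  have h10 : ∑ a : V, avg (fun b : β => if sub g a (L.τ b) = 0 then (1 : ℝ) else 0) ≤
      e * (1 / Lb) := by
    refine (Finset.sum_le_sum fun a _ => h4 a).trans ?_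
    rw [← Finset.sum_mul]
    exact mul_le_mul_of_nonneg_right h7 (by positivity)
  have h11 : (Fintype.card V : ℝ) * (e / Q) = e * (Fintype.card V / Q) := by ring
  rw [h11]
  linarith

theorem val_eval (p : MvPolynomial κ ℝ) (A : Finset V) (v : V → ℤ) (ω : V → β) :
    pval (cw σ (val L A v ω)) p =
      MvPolynomial.eval (fun i => (L.r (ω i) : ℝ)) (gp σ A v 1 p) := by
  symm
  refine gp_eval p _ _ (fun i hi => by unfold val; rw [if_pos hi]) (fun i hi => ?_)
  unfold val
  rw [if_neg hi]
  push_cast
  ring

theorem plant_eval (p : MvPolynomial κ ℝ) (A : Finset V) (v : V → ℤ) (ω : V → β) {a : V}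
    (ha : a ∉ A) : pval (cw σ (plant L A v ω a)) p =
      MvPolynomial.eval (Function.update (fun i => (L.r (ω i) : ℝ)) a (L.τ (ω a)))
        (gp σ A v 1 p) := by
  symm
  refine gp_eval p _ _ (fun i hi => ?_) (fun i hi => ?_)
  · have hia : i ≠ a := fun h => ha (h ▸ hi)
    unfold plant
    rw [Function.update_of_ne hia]
    unfold val
    rw [if_pos hi]
  · by_cases hia : i = a
    · subst hia
      unfold plant
      rw [Function.update_self, Function.update_self]
      push_cast
      ring
    · unfold plant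
      rw [Function.update_of_ne hia, Function.update_of_ne hia]
      unfold val
      rw [if_neg hi]
      push_cast
      ring

theorem Bdd_zero [Nonempty β] {Q Lb : ℕ} (hSZ : SZ V L.r Q)
    (hLB : ∀ z : ℤ, avg (fun b : β => if L.τ b = z then (1 : ℝ) else 0) ≤ 1 / Lb)
    (p : MvPolynomial κ ℝ) (hp : p.totalDegree ≤ e) (next : Bool → Tree κ d D e t Z B) {b : ℝ}
    (h : ∀ z, Bdd σ L (next z) b) :
    Bdd σ L (Tree.zero p hp next : Tree κ d D e t (Z + 1) B)
      (b + e * (2 * (Fintype.card V / Q) + 1 / Lb)) := by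
  classical
  intro A v
  set g := gp σ A v 1 p with hg
  have hE : (0 : ℝ) ≤ e * (2 * (Fintype.card V / Q) + 1 / Lb) := by positivity
  by_cases hg0 : g = 0
  · have h1 : (fun ω : V → β => Fn σ L (Tree.zero p hp next : Tree κ d D e t (Z + 1) B) A v ω) =
        fun ω => Fn σ L (next true) A v ω := by
      funext ω
      unfold Fn
      congr 1
      congr 1
      refine Finset.filter_congr fun a _ => ?_
      have h2 : pval (cw σ (val L A v ω)) p = 0 := by
        rw [val_eval, ← hg, hg0, map_zero]
      have h3 : a ∉ A → pval (cw σ (plant L A v ω a)) p = 0 := fun ha => by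
        rw [plant_eval p A v ω ha, ← hg, hg0, map_zero]
      simp only [Tree.eval, h2]
      constructor
      · rintro ⟨h4, h5, h6⟩
        rw [h3 h4] at h6
        exact ⟨h4, h5, by simpa using h6⟩
      · rintro ⟨h4, h5, h6⟩
        rw [h3 h4]
        exact ⟨h4, h5, by simpa using h6⟩
    rw [h1]
    linarith [h true A v]
  · have hgd : g.totalDegree ≤ e := gp_totalDegree hp
    have h1 : ∀ ω : V → β, Fn σ L (Tree.zero p hp next : Tree κ d D e t (Z + 1) B) A v ω ≤
        Fn σ L (next false) A v ω +
        (Fintype.card V * (if MvPolynomial.eval (fun i => (L.r (ω i) : ℝ)) g = 0 then (1 : ℝ)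
          else 0) + ∑ a : V,
          if MvPolynomial.eval (Function.update (fun i => (L.r (ω i) : ℝ)) a (L.τ (ω a))) g = 0
            then (1 : ℝ) else 0) := by
      intro ω
      have hsum : (0 : ℝ) ≤ ∑ a : V,
          if MvPolynomial.eval (Function.update (fun i => (L.r (ω i) : ℝ)) a (L.τ (ω a))) g = 0
            then (1 : ℝ) else 0 := Finset.sum_nonneg fun a _ => by split_ifs <;> norm_num
      by_cases hz : MvPolynomial.eval (fun i => (L.r (ω i) : ℝ)) g = 0
      · rw [if_pos hz, mul_one]
        have h2 := Fn_le_card (σ := σ) (L := L)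
          (Tree.zero p hp next : Tree κ d D e t (Z + 1) B) A v ω
        have h3 := Fn_nonneg (σ := σ) (L := L) (next false) A v ω
        linarith
      · rw [if_neg hz, mul_zero, zero_add]
        have h2 : pval (cw σ (val L A v ω)) p ≠ 0 := by
          rw [val_eval]
          exact hz
        have h3 : (univ.filter fun a : V => a ∉ A ∧ L.ia (ω a) ∧
            (Tree.zero p hp next : Tree κ d D e t (Z + 1) B).eval (cw σ (val L A v ω)) ≠
            (Tree.zero p hp next : Tree κ d D e t (Z + 1) B).eval (cw σ (plant L A v ω a))) ⊆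
            (univ.filter fun a : V => a ∉ A ∧ L.ia (ω a) ∧
              (next false).eval (cw σ (val L A v ω)) ≠
                (next false).eval (cw σ (plant L A v ω a))) ∪
            (univ.filter fun a : V =>
              MvPolynomial.eval (Function.update (fun i => (L.r (ω i) : ℝ)) a (L.τ (ω a))) g
                = 0) := by
          intro a ha
          rw [mem_filter] at ha
          obtain ⟨_, h4, h5, h6⟩ := ha
          rw [mem_union, mem_filter, mem_filter]
          by_cases hz' : MvPolynomial.eval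
              (Function.update (fun i => (L.r (ω i) : ℝ)) a (L.τ (ω a))) g = 0
          · exact Or.inr ⟨mem_univ _, hz'⟩
          · refine Or.inl ⟨mem_univ _, h4, h5, ?_⟩
            have h7 : pval (cw σ (plant L A v ω a)) p ≠ 0 := by
              rw [plant_eval p A v ω h4]
              exact hz'
            simp only [Tree.eval, h2, h7, decide_false] at h6
            exact h6
        have h4 := (Finset.card_le_card h3).trans (Finset.card_union_le _ _)
        have h5 : (∑ a : V,
          if MvPolynomial.eval (Function.update (fun i => (L.r (ω i) : ℝ)) a (L.τ (ω a))) g = 0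
            then (1 : ℝ) else 0) = ((univ.filter fun a : V =>
              MvPolynomial.eval (Function.update (fun i => (L.r (ω i) : ℝ)) a (L.τ (ω a))) g
                = 0).card : ℝ) := by
          rw [Finset.card_filter]
          push_cast
          rfl
        rw [h5]
        unfold Fn
        exact_mod_cast h4
    refine (avg_mono h1).trans ?_
    rw [avg_add, avg_add, avg_smul]
    have h2 := planted_zeros hSZ hLB g hg0 hgd
    have h3 := hSZ g hg0
    have h4 : (g.totalDegree : ℝ) / Q ≤ e / Q :=
      div_le_div_of_nonneg_right (by exact_mod_cast hgd) (Nat.cast_nonneg _)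
    have h5 := mul_le_mul_of_nonneg_left (h3.trans h4) (Nat.cast_nonneg (α := ℝ) (Fintype.card V))
    have h6 := h false A v
    have h7 : (Fintype.card V : ℝ) * (e / Q) = e * (Fintype.card V / Q) := by ring
    rw [h7] at h5
    have h8 : (e : ℝ) * (2 * (Fintype.card V / Q) + 1 / Lb) =
        e * (Fintype.card V / Q) + e * (Fintype.card V / Q + 1 / Lb) := by ring
    rw [h8]
    linarith

end

end Pool.Agent.Helper14.PR
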