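import Pool.Agent.Helper14.PR.Signs
import Pool.Agent.Helper14.PR.Zero

set_option autoImplicit false
set_option linter.unusedSectionVars false

/-!
The law with `t` levels, and the bound for computation trees.
-/

open Finset
open scoped BigOperators

namespace Pool.Agent.Helper14.PR

theorem avg_prod' {α β : Type} [Fintype α] [Fintype β] (f : α × β → ℝ) :
    avg f = avg fun a : α => avg fun b : β => f (a, b) := by
  unfold avg
  rw [Fintype.sum_prod_type, ← Finset.sum_div, div_div, Fintype.card_prod]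
  push_cast
  rw [mul_comm]

/-- The data of a hidden coordinate with `t` levels. -/
def Data (M H Lb Q : ℕ) : ℕ → Type
  | 0 => Fin Lb × Fin Q
  | t + 1 => Fin M × (Fin H × Data M H Lb Q t)

noncomputable instance instData (M H Lb Q : ℕ) : (t : ℕ) → Fintype (Data M H Lb Q t)
  | 0 => inferInstanceAs (Fintype (Fin Lb × Fin Q))
  | t + 1 =>
    haveI := instData M H Lb Q t
    inferInstanceAs (Fintype (Fin M × (Fin H × Data M H Lb Q t)))

theorem data_nonempty {M H Lb Q : ℕ} (hM : 0 < M) (hH : 0 < H) (hL : 0 < Lb) (hQ : 0 < Q) :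
    ∀ t, Nonempty (Data M H Lb Q t)
  | 0 => ⟨(⟨0, hL⟩, ⟨0, hQ⟩)⟩
  | t + 1 => by
    obtain ⟨b⟩ := data_nonempty hM hH hL hQ t
    exact ⟨(⟨0, hM⟩, (⟨0, hH⟩, b))⟩

section
variable (M P H Lb Q a b : ℕ)

/-- The size of the part below level `t`. -/
def rho : ℕ → ℕ
  | 0 => Lb * (Q + 1)
  | t + 1 => M * (b * (P * (a * rho t) + rho t)) + (P * (a * rho t) + rho t)

/-- The scale of the macroscopic parts. -/
def sm (t : ℕ) : ℕ := a * rho M P Lb Q a b t

/-- The size of the part below the digits of level `t`. -/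
def rho2 (t : ℕ) : ℕ := P * sm M P Lb Q a b t + rho M P Lb Q a b t

/-- The scale of the digits. -/
def sd (t : ℕ) : ℕ := b * rho2 M P Lb Q a b t

theorem rho_succ (t : ℕ) :
    rho M P Lb Q a b (t + 1) = M * sd M P Lb Q a b t + rho2 M P Lb Q a b t := rfl

/-- The law without levels: a label and a small positive noise. -/
def law0 : Law (Fin Lb × Fin Q) where
  r := fun x => ((x.1 : ℕ) * (Q + 1) + 1 : ℤ) + ((x.2 : ℕ) : ℤ)
  τ := fun x => ((x.1 : ℕ) * (Q + 1) : ℤ)
  ia := fun _ => True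

/-- The law with `t` levels. -/
def law : (t : ℕ) → Law (Data M H Lb Q t)
  | 0 => law0 Lb Q
  | t + 1 => ((law t).mac P H (sm M P Lb Q a b t)).dig M (sd M P Lb Q a b t)

end

section
variable {M P H Lb Q a b : ℕ}

theorem law_r (hQ : 0 < Q) : ∀ (t : ℕ) (x : Data M H Lb Q t),
    (0 ≤ (law M P H Lb Q a b t).r x ∧ (law M P H Lb Q a b t).r x ≤ rho M P Lb Q a b t) ∧
    (0 ≤ (law M P H Lb Q a b t).τ x ∧ (law M P H Lb Q a b t).τ x ≤ rho M P Lb Q a b t)
  | 0, x => by
    obtain ⟨l, y⟩ := x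
    have h1 : ((l : ℕ) : ℤ) + 1 ≤ Lb := by exact_mod_cast l.2
    have h2 : ((y : ℕ) : ℤ) + 1 ≤ Q := by exact_mod_cast y.2
    have h3 : (0 : ℤ) ≤ ((l : ℕ) : ℤ) := Int.natCast_nonneg _
    have h4 : (0 : ℤ) ≤ ((y : ℕ) : ℤ) := Int.natCast_nonneg _
    have h5 : (0 : ℤ) ≤ (Q : ℤ) := Int.natCast_nonneg _
    show (0 ≤ (((l : ℕ) : ℤ) * (Q + 1) + 1 : ℤ) + ((y : ℕ) : ℤ) ∧
      (((l : ℕ) : ℤ) * (Q + 1) + 1 : ℤ) + ((y : ℕ) : ℤ) ≤ ((Lb * (Q + 1) : ℕ) : ℤ)) ∧
      (0 ≤ (((l : ℕ) : ℤ) * (Q + 1) : ℤ) ∧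
        (((l : ℕ) : ℤ) * (Q + 1) : ℤ) ≤ ((Lb * (Q + 1) : ℕ) : ℤ))
    push_cast
    refine ⟨⟨by positivity, by nlinarith⟩, ⟨by positivity, by nlinarith⟩⟩
  | t + 1, x => by
    obtain ⟨δ, μ, x⟩ := x
    obtain ⟨⟨h1, h2⟩, h3, h4⟩ := law_r hQ t x
    have h5 : ((δ : ℕ) : ℤ) ≤ M := by exact_mod_cast δ.2.le
    have h6 : ((mac P μ : ℕ) : ℤ) ≤ P := by exact_mod_cast mac_le μ
    have h7 : (0 : ℤ) ≤ ((δ : ℕ) : ℤ) := Int.natCast_nonneg _
    have h8 : (0 : ℤ) ≤ ((mac P μ : ℕ) : ℤ) := Int.natCast_nonneg _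
    have h9 : (0 : ℤ) ≤ (sm M P Lb Q a b t : ℤ) := Int.natCast_nonneg _
    have h10 : (0 : ℤ) ≤ (sd M P Lb Q a b t : ℤ) := Int.natCast_nonneg _
    have h11 : (rho M P Lb Q a b (t + 1) : ℤ) = M * sd M P Lb Q a b t +
        (P * sm M P Lb Q a b t + rho M P Lb Q a b t) := by
      rw [rho_succ]
      unfold rho2
      push_cast
      ring
    rw [h11]
    show (0 ≤ ((δ : ℕ) : ℤ) * (sd M P Lb Q a b t : ℤ) + (((mac P μ : ℕ) : ℤ) *
        (sm M P Lb Q a b t : ℤ) + (law M P H Lb Q a b t).r x) ∧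
      ((δ : ℕ) : ℤ) * (sd M P Lb Q a b t : ℤ) + (((mac P μ : ℕ) : ℤ) *
        (sm M P Lb Q a b t : ℤ) + (law M P H Lb Q a b t).r x) ≤ _) ∧
      (0 ≤ ((δ : ℕ) : ℤ) * (sd M P Lb Q a b t : ℤ) + (law M P H Lb Q a b t).τ x ∧
        ((δ : ℕ) : ℤ) * (sd M P Lb Q a b t : ℤ) + (law M P H Lb Q a b t).τ x ≤ _)
    have h12 := mul_le_mul_of_nonneg_right h5 h10
    have h13 := mul_le_mul_of_nonneg_right h6 h9
    have h14 := mul_nonneg h7 h10
    have h15 := mul_nonneg h8 h9
    have h16 : (0 : ℤ) ≤ (P : ℤ) * sm M P Lb Q a b t := by positivity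
    refine ⟨⟨by linarith, by linarith⟩, ⟨by linarith, by linarith⟩⟩

theorem rho_dvd : ∀ t, (Q + 1) ∣ rho M P Lb Q a b t
  | 0 => ⟨Lb, by unfold rho; ring⟩
  | t + 1 => by
    obtain ⟨k, hk⟩ := rho_dvd t
    unfold rho
    rw [hk]
    exact ⟨M * (b * (P * (a * k) + k)) + (P * (a * k) + k), by ring⟩

theorem law_res : ∀ (t : ℕ) (x : Data M H Lb Q t),
    (∃ (k : ℤ) (y : ℕ), y < Q ∧ (law M P H Lb Q a b t).r x = (Q + 1) * k + 1 + y) ∧
    (∃ k : ℤ, (law M P H Lb Q a b t).τ x = (Q + 1) * k)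
  | 0, x => by
    obtain ⟨l, y⟩ := x
    refine ⟨⟨l, y, y.2, ?_⟩, ⟨l, ?_⟩⟩
    · show (((l : ℕ) : ℤ) * (Q + 1) + 1 : ℤ) + ((y : ℕ) : ℤ) = _
      ring
    · show (((l : ℕ) : ℤ) * (Q + 1) : ℤ) = _
      ring
  | t + 1, x => by
    obtain ⟨δ, μ, x⟩ := x
    obtain ⟨⟨k, y, hy, h1⟩, k', h2⟩ := law_res t x
    obtain ⟨c, hc⟩ := rho_dvd (M := M) (P := P) (Lb := Lb) (Q := Q) (a := a) (b := b) t
    have hs : (sm M P Lb Q a b t : ℤ) = (Q + 1) * (a * c) := by
      unfold sm
      rw [hc]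
      push_cast
      ring
    have hS : (sd M P Lb Q a b t : ℤ) = (Q + 1) * (b * (P * (a * c) + c)) := by
      unfold sd rho2 sm
      rw [hc]
      push_cast
      ring
    refine ⟨⟨(δ : ℕ) * (b * (P * (a * c) + c)) + mac P μ * (a * c) + k, y, hy, ?_⟩,
      ⟨(δ : ℕ) * (b * (P * (a * c) + c)) + k', ?_⟩⟩
    · show ((δ : ℕ) : ℤ) * (sd M P Lb Q a b t : ℤ) + (((mac P μ : ℕ) : ℤ) *
        (sm M P Lb Q a b t : ℤ) + (law M P H Lb Q a b t).r x) = _
      rw [hs, hS, h1]
      ring
    · show ((δ : ℕ) : ℤ) * (sd M P Lb Q a b t : ℤ) + (law M P H Lb Q a b t).τ x = _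
      rw [hS, h2]
      ring

theorem law_SZ {V : Type} [Fintype V] [DecidableEq V] (hQ : 0 < Q) :
    ∀ t : ℕ, SZ V (law M P H Lb Q a b t).r Q
  | 0 => SZ_prod (V := V) (α := Fin Lb) (β := Fin Q) (r := fun y : Fin Q => ((y : ℕ) : ℤ))
      (SZ_fin (V := V) hQ) (fun l => (((l : ℕ) : ℤ) * (Q + 1) + 1 : ℤ))
  | t + 1 => by
    have h1 := SZ_prod (V := V) (α := Fin H) (law_SZ hQ t) (fun μ => (mac P μ : ℤ) * sm M P Lb Q a b t)
    exact SZ_prod (V := V) (α := Fin M) h1 (fun δ => ((δ : ℕ) : ℤ) * sd M P Lb Q a b t)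

open Classical in
theorem law_LB (hL : 0 < Lb) : ∀ (t : ℕ) (z : ℤ),
    avg (fun x : Data M H Lb Q t => if (law M P H Lb Q a b t).τ x = z then (1 : ℝ) else 0) ≤
      1 / Lb
  | 0, z => by
    have h1 : (avg fun x : Fin Lb × Fin Q => if (law0 Lb Q).τ x = z then (1 : ℝ) else 0) ≤
        1 / Lb := by
      rw [avg_prod']
      have hL0 : (0 : ℝ) < Lb := by exact_mod_cast hL
      have h2 : ∀ l : Fin Lb, (avg fun y : Fin Q => if (law0 Lb Q).τ (l, y) = z then (1 : ℝ)
          else 0) ≤ if ((l : ℕ) * (Q + 1) : ℤ) = z then (1 : ℝ) else 0 := by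
        intro l
        refine avg_le_of_le (by split_ifs <;> norm_num) fun y => le_rfl
      refine (avg_mono h2).trans ?_
      unfold avg
      rw [Fintype.card_fin]
      refine div_le_div_of_nonneg_right ?_ hL0.le
      rw [← Finset.sum_filter, Finset.sum_const, nsmul_eq_mul, mul_one]
      have h3 : (univ.filter fun l : Fin Lb => ((l : ℕ) * (Q + 1) : ℤ) = z).card ≤ 1 := by
        rw [Finset.card_le_one]
        intro l hl l' hl'
        rw [mem_filter] at hl hl'
        have h4 : (((l : ℕ) : ℤ)) * (Q + 1) = ((l' : ℕ) : ℤ) * (Q + 1) := by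
          rw [hl.2, hl'.2]
        have h5 := mul_right_cancel₀ (by positivity : ((Q : ℤ) + 1) ≠ 0) h4
        exact Fin.ext (by exact_mod_cast h5)
      exact_mod_cast h3
    exact h1
  | t + 1, z => by
    have h1 : (avg fun x : Fin M × (Fin H × Data M H Lb Q t) =>
        if (law M P H Lb Q a b (t + 1)).τ x = z then (1 : ℝ) else 0) ≤ 1 / Lb := by
      rw [avg_prod']
      refine avg_le_of_le (by positivity) fun δ => ?_
      rw [avg_prod']
      refine avg_le_of_le (by positivity) fun μ => ?_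
      refine (avg_mono fun x => le_of_eq ?_).trans
        (law_LB hL t (z - (δ : ℕ) * sd M P Lb Q a b t))
      have h2 : (law M P H Lb Q a b (t + 1)).τ (δ, (μ, x)) =
          (δ : ℕ) * sd M P Lb Q a b t + (law M P H Lb Q a b t).τ x := rfl
      rw [h2]
      have h3 : ((((δ : ℕ) : ℤ) * (sd M P Lb Q a b t : ℤ) + (law M P H Lb Q a b t).τ x) = z) ↔
          ((law M P H Lb Q a b t).τ x = z - ((δ : ℕ) : ℤ) * (sd M P Lb Q a b t : ℤ)) := by
        constructor <;> intro h <;> linarith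
      simp only [h3]
    exact h1

open Classical in
theorem law_ia {h : ℕ} (hM : 0 < M) (hP : 0 < P) (hh : 0 < h) (hH : H = h * P)
    (hL : 0 < Lb) (hQ : 0 < Q) : ∀ t : ℕ,
    avg (fun x : Data M H Lb Q t => if (law M P H Lb Q a b t).ia x then (1 : ℝ) else 0) =
      (1 - 1 / h) ^ t
  | 0 => by
    have h1 : (avg fun x : Fin Lb × Fin Q => if (law0 Lb Q).ia x then (1 : ℝ) else 0) = 1 := by
      have : Nonempty (Fin Lb × Fin Q) := ⟨(⟨0, hL⟩, ⟨0, hQ⟩)⟩
      have h2 : (fun x : Fin Lb × Fin Q => if (law0 Lb Q).ia x then (1 : ℝ) else 0) =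
          fun _ => 1 := by
        funext x
        rw [if_pos]
        exact trivial
      rw [h2, avg_const]
    rw [pow_zero]
    exact h1
  | t + 1 => by
    have hH0 : 0 < H := by rw [hH]; positivity
    have : Nonempty (Fin M) := ⟨⟨0, hM⟩⟩
    have h1 : (avg fun x : Fin M × (Fin H × Data M H Lb Q t) =>
        if (law M P H Lb Q a b (t + 1)).ia x then (1 : ℝ) else 0) = (1 - 1 / h) ^ (t + 1) := by
      rw [avg_prod']
      have h2 : ∀ δ : Fin M, (avg fun y : Fin H × Data M H Lb Q t =>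
          if (law M P H Lb Q a b (t + 1)).ia (δ, y) then (1 : ℝ) else 0) =
          (1 - 1 / h) ^ (t + 1) := by
        intro δ
        rw [avg_prod']
        have h3 : ∀ μ : Fin H, (avg fun x : Data M H Lb Q t =>
            if (law M P H Lb Q a b (t + 1)).ia (δ, (μ, x)) then (1 : ℝ) else 0) =
            (1 - 1 / h) ^ t * if P ≤ (μ : ℕ) then 1 else 0 := by
          intro μ
          by_cases hμ : P ≤ (μ : ℕ)
          · rw [if_pos hμ, mul_one, ← law_ia hM hP hh hH hL hQ t]
            congr 1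
            funext x
            have h4 : (law M P H Lb Q a b (t + 1)).ia (δ, (μ, x)) ↔
                (law M P H Lb Q a b t).ia x := ⟨fun h => h.2, fun h => ⟨hμ, h⟩⟩
            simp only [h4]
          · rw [if_neg hμ, mul_zero]
            have h4 : (fun x : Data M H Lb Q t =>
                if (law M P H Lb Q a b (t + 1)).ia (δ, (μ, x)) then (1 : ℝ) else 0) =
                fun _ => 0 := by
              funext x
              rw [if_neg]
              exact fun h => hμ h.1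
            rw [h4]
            unfold avg
            simp
        have h5 : (avg fun μ : Fin H => avg fun x : Data M H Lb Q t =>
            if (law M P H Lb Q a b (t + 1)).ia (δ, (μ, x)) then (1 : ℝ) else 0) =
            avg fun μ : Fin H => (1 - 1 / h : ℝ) ^ t * if P ≤ (μ : ℕ) then 1 else 0 := by
          congr 1
          funext μ
          exact h3 μ
        rw [h5, avg_smul, pow_succ]
        congr 1
        unfold avg
        rw [Fintype.card_fin, ← Finset.sum_filter, Finset.sum_const, nsmul_eq_mul, mul_one]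
        have h6 : (univ.filter fun μ : Fin H => P ≤ (μ : ℕ)).card = H - P := by
          have h7 : (univ.filter fun μ : Fin H => P ≤ (μ : ℕ)) =
              univ \ (univ.filter fun μ : Fin H => (μ : ℕ) < P) := by
            ext x
            simp
          have hPH : P ≤ H := by rw [hH]; nlinarith
          have h8 : (univ.filter fun x : Fin H => (x : ℕ) < P) =
              (univ : Finset (Fin P)).map (Fin.castLEEmb hPH) := by
            ext x
            simp only [mem_filter, mem_univ, true_and, mem_map]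
            constructor
            · intro hx
              exact ⟨⟨x, hx⟩, Fin.ext rfl⟩
            · rintro ⟨y, rfl⟩
              exact y.2
          rw [h7, Finset.card_sdiff_of_subset (subset_univ _), h8, card_map, card_univ,
            card_univ, Fintype.card_fin, Fintype.card_fin]
        have hPH : P ≤ H := by rw [hH]; nlinarith
        have hh0 : (0 : ℝ) < h := by exact_mod_cast hh
        have hP0 : (0 : ℝ) < P := by exact_mod_cast hP
        rw [h6, Nat.cast_sub hPH, hH]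
        push_cast
        field_simp
      have h9 : (avg fun δ : Fin M => avg fun y : Fin H × Data M H Lb Q t =>
          if (law M P H Lb Q a b (t + 1)).ia (δ, y) then (1 : ℝ) else 0) =
          avg fun _ : Fin M => (1 - 1 / h : ℝ) ^ (t + 1) := by
        congr 1
        funext δ
        exact h2 δ
      rw [h9, avg_const]
    exact h1

/-- The number of planted values. -/
theorem law_tgt : ∀ t : ℕ, ∃ F : Finset ℤ, F.card ≤ M ^ t * Lb ∧
    ∀ x : Data M H Lb Q t, (law M P H Lb Q a b t).τ x ∈ F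
  | 0 => by
    refine ⟨Finset.image (fun l : Fin Lb => (((l : ℕ) : ℤ) * (Q + 1) : ℤ)) univ, ?_,
      fun x => ?_⟩
    · refine card_image_le.trans ?_
      rw [card_univ, Fintype.card_fin, pow_zero, one_mul]
    · exact mem_image.2 ⟨x.1, mem_univ _, rfl⟩
  | t + 1 => by
    obtain ⟨F, hF, hx⟩ := law_tgt t
    refine ⟨((univ : Finset (Fin M)) ×ˢ F).image fun y =>
      ((y.1 : ℕ) : ℤ) * sd M P Lb Q a b t + y.2, ?_, fun x => ?_⟩
    · refine card_image_le.trans ?_
      rw [card_product, card_univ, Fintype.card_fin, pow_succ]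
      calc M * F.card ≤ M * (M ^ t * Lb) := Nat.mul_le_mul_left _ hF
        _ = M ^ t * M * Lb := by ring
    · obtain ⟨δ, μ, x⟩ := x
      exact mem_image.2 ⟨(δ, (law M P H Lb Q a b t).τ x), mem_product.2 ⟨mem_univ _, hx x⟩, rfl⟩

end

section
variable {κ V : Type} [Fintype V] [DecidableEq V] {σ : κ → ℤ ⊕ V} {M P H Lb Q a b d h : ℕ}
  {Λ : ℝ}

/-- The bound for computation trees. -/
theorem main_bound (hh : 0 < h) (hHP : H = h * P) (hL : 0 < Lb) (hQ : 0 < Q) (hM : 0 < M)
    (hS : ∀ k, Scl (Fintype.card V) d P Λ (sm M P Lb Q a b k) (rho M P Lb Q a b k))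
    (hS₂ : ∀ k, Scl (Fintype.card V) d M Λ (sd M P Lb Q a b k) (rho2 M P Lb Q a b k))
    {D e t Z B : ℕ} (T : Tree κ d D e t Z B) :
    Bdd σ (law M P H Lb Q a b t) T
      (B + t * (D * (d * d / M) * phc (Fintype.card V) d h H) +
        Z * (e * (2 * (Fintype.card V / Q) + 1 / Lb))) := by
  classical
  have hP : 0 < P := (hS 0).hP
  have hH : 0 < H := by rw [hHP]; positivity
  have hc := phc_nonneg (Fintype.card V) d h H
  have hX : (0 : ℝ) ≤ D * (d * d / M) * phc (Fintype.card V) d h H := by positivity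
  have hY : (0 : ℝ) ≤ e * (2 * (Fintype.card V / Q) + 1 / Lb) := by positivity
  have hne := fun t => data_nonempty (M := M) (H := H) (Lb := Lb) (Q := Q) hM hH hL hQ t
  induction T with
  | @out t Z B b' =>
    intro A v
    refine (Bdd_out b' A v).trans ?_
    positivity
  | @read t Z B c next ih =>
    have := hne t
    have h1 := Bdd_read c next ih
    intro A v
    refine (h1 A v).trans (le_of_eq ?_)
    push_cast
    ring
  | @zero t Z B p hp next ih =>
    have := hne t
    have h1 := Bdd_zero (law_SZ hQ t) (fun z => by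
      convert law_LB (M := M) (P := P) (H := H) (Q := Q) (a := a) (b := b) hL t z) p hp next ih
    intro A v
    refine (h1 A v).trans (le_of_eq ?_)
    push_cast
    ring
  | @signs t Z B p hp next ih =>
    have hβ := hne t
    have h1 := Bdd_signs (L := law M P H Lb Q a b t) hh hHP hβ (hS t) (hS₂ t)
      (by unfold rho2; push_cast; exact le_rfl) (fun x => (law_r hQ t x).1)
      (fun x => (law_r hQ t x).2) p hp next (by positivity) ih
    intro A v
    refine (h1 A v).trans (le_of_eq ?_)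
    push_cast
    ring

end

end Pool.Agent.Helper14.PR
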