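import Pool.Agent.Helper14.PR.Core

set_option autoImplicit false

/-!
The choice of the parameters.
-/

open Finset
open scoped BigOperators

namespace Pool.Agent.Helper14.PR

/-- The factor in the ratios of the scales. -/
def c0 (N d : ℕ) : ℕ := 2 * d * (N + 1) ^ d * (8 * (N + 1) ^ d) ^ (d - 1) * 7 ^ (d * d)

theorem c0_pos {N d : ℕ} (hd : 1 ≤ d) : 2 ≤ c0 N d := by
  unfold c0
  have h1 : 1 ≤ (N + 1) ^ d := Nat.one_le_pow _ _ (by omega)
  have h2 : 1 ≤ (8 * (N + 1) ^ d) ^ (d - 1) := Nat.one_le_pow _ _ (by omega)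
  have h3 : 1 ≤ 7 ^ (d * d) := Nat.one_le_pow _ _ (by omega)
  calc 2 = 2 * 1 * 1 * 1 * 1 := by norm_num
    _ ≤ 2 * d * (N + 1) ^ d * (8 * (N + 1) ^ d) ^ (d - 1) * 7 ^ (d * d) := by
        refine Nat.mul_le_mul (Nat.mul_le_mul (Nat.mul_le_mul (Nat.mul_le_mul le_rfl hd) h1) h2) h3

theorem scl_of {N d P : ℕ} (hd : 1 ≤ d) (hP : 0 < P) {ρ : ℕ} (hρ : 0 < ρ) :
    Scl N d P ((8 * (N + 1) ^ d : ℕ) : ℝ) ((c0 N d * P ^ (d * d - 1) * ρ : ℕ) : ℤ) (ρ : ℤ) := by
  have hP1 : 1 ≤ P ^ (d * d - 1) := Nat.one_le_pow _ _ hP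
  have hc := c0_pos (N := N) hd
  have hP0 : (0 : ℝ) < P := by exact_mod_cast hP
  have hρ0 : (0 : ℝ) < ρ := by exact_mod_cast hρ
  refine ⟨hP, by positivity, ?_, ?_, ?_⟩
  · have h1 : 2 * ρ ≤ c0 N d * P ^ (d * d - 1) * ρ := by
      refine Nat.mul_le_mul_right ρ ?_
      calc 2 = 2 * 1 := by norm_num
        _ ≤ c0 N d * P ^ (d * d - 1) := Nat.mul_le_mul hc hP1
    have h2 : ρ < c0 N d * P ^ (d * d - 1) * ρ := by omega
    exact_mod_cast h2
  · push_cast
    exact le_rfl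
  · have hdd : d * d = (d * d - 1) + 1 := by
      have : 1 ≤ d * d := Nat.one_le_iff_ne_zero.2 (by positivity)
      omega
    have hpow : (P : ℝ) ^ (d * d) = P ^ (d * d - 1) * P := by
      conv_lhs => rw [hdd]
      rw [pow_succ]
    have hc0 : ((c0 N d : ℕ) : ℝ) = 2 * d * ((N : ℝ) + 1) ^ d *
        (((8 * (N + 1) ^ d : ℕ) : ℝ)) ^ (d - 1) * 7 ^ (d * d) := by
      unfold c0
      push_cast
      ring
    have hd0 : (0 : ℝ) < d := by exact_mod_cast hd
    set Λ : ℝ := ((8 * (N + 1) ^ d : ℕ) : ℝ) with hΛ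
    have hΛ0 : 0 < Λ := by
      rw [hΛ]
      have : 0 < 8 * (N + 1) ^ d := by positivity
      exact_mod_cast this
    have h1 : (((ρ : ℕ) : ℤ) : ℝ) / (((c0 N d * P ^ (d * d - 1) * ρ : ℕ) : ℤ) : ℝ) =
        1 / (2 * d * ((N : ℝ) + 1) ^ d * Λ ^ (d - 1) * 7 ^ (d * d) * P ^ (d * d - 1)) := by
      push_cast
      rw [hc0]
      field_simp
    rw [h1, one_div_pow, mul_pow, hpow]
    have h7 : (0 : ℝ) < 7 ^ (d * d) := by positivity
    have hN0 : (0 : ℝ) < ((N : ℝ) + 1) ^ d := by positivity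
    have hΛd : (0 : ℝ) < Λ ^ (d - 1) := by positivity
    have hPd : (0 : ℝ) < (P : ℝ) ^ (d * d - 1) := by positivity
    refine le_of_eq ?_
    field_simp

theorem rho_pos {M P Lb Q a b : ℕ} (hL : 0 < Lb) (ha : 0 < a) :
    ∀ t, 0 < rho M P Lb Q a b t
  | 0 => by unfold rho; positivity
  | t + 1 => by
    have h := rho_pos (M := M) (P := P) (Q := Q) (b := b) hL ha t
    unfold rho
    positivity

theorem rho_le {M P Lb Q a b : ℕ} (hM : 0 < M) (hP : 0 < P) (ha : 0 < a) (hb : 0 < b) :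
    ∀ t, rho M P Lb Q a b t ≤ (4 * (M * P * a * b)) ^ t * (Lb * (Q + 1))
  | 0 => by unfold rho; simp
  | t + 1 => by
    have h := rho_le (Lb := Lb) (Q := Q) hM hP ha hb t
    have h1 : rho M P Lb Q a b (t + 1) = (M * b + 1) * (P * a + 1) * rho M P Lb Q a b t := by
      conv_lhs => unfold rho
      ring
    have h2 : M * b + 1 ≤ 2 * (M * b) := by
      have : 1 ≤ M * b := Nat.one_le_iff_ne_zero.2 (by positivity)
      omega
    have h3 : P * a + 1 ≤ 2 * (P * a) := by
      have : 1 ≤ P * a := Nat.one_le_iff_ne_zero.2 (by positivity)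
      omega
    rw [h1]
    calc (M * b + 1) * (P * a + 1) * rho M P Lb Q a b t
        ≤ (2 * (M * b)) * (2 * (P * a)) * ((4 * (M * P * a * b)) ^ t * (Lb * (Q + 1))) :=
          Nat.mul_le_mul (Nat.mul_le_mul h2 h3) h
      _ = (4 * (M * P * a * b)) ^ (t + 1) * (Lb * (Q + 1)) := by ring

/-- The constant in the size of the weights. -/
def c3 (d : ℕ) : ℕ := 4 * (2 * d * 8 ^ (d - 1) * 7 ^ (d * d)) ^ 2 * (d * d) ^ (d * d)

theorem size_bound {n m d t M Lb Q : ℕ} (hd : 1 ≤ d) (h3 : 3 * m ≤ n) (hm : 0 < m)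
    (hM : 0 < M) (hML : M ^ t * Lb ≤ m) (hL : 0 < Lb) (hQ : Q = 2 * (m * m) * Lb)
    (hn : c3 d ^ t ≤ n) (htd : (6 * t + 1) * (d * d) ≤ 290) :
    (4 * (M * (m * m * (d * d)) * (c0 (m * m) d * (m * m * (d * d)) ^ (d * d - 1)) *
      (c0 (m * m) d * M ^ (d * d - 1)))) ^ t * (Lb * (Q + 1)) ≤ n ^ 300 := by
  set P := m * m * (d * d) with hP
  have hdd : d * d = (d * d - 1) + 1 := by
    have : 1 ≤ d * d := Nat.one_le_iff_ne_zero.2 (by positivity)
    omega
  have hPow : ∀ x : ℕ, x * x ^ (d * d - 1) = x ^ (d * d) := by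
    intro x
    conv_rhs => rw [hdd, pow_succ]
    rw [mul_comm]
  have h1 : 4 * (M * P * (c0 (m * m) d * P ^ (d * d - 1)) * (c0 (m * m) d * M ^ (d * d - 1))) =
      4 * (c0 (m * m) d) ^ 2 * P ^ (d * d) * M ^ (d * d) := by
    rw [← hPow P, ← hPow M]
    ring
  have hN : m * m + 1 ≤ n ^ 2 := by nlinarith
  have hc : c0 (m * m) d ≤ (2 * d * 8 ^ (d - 1) * 7 ^ (d * d)) * n ^ (2 * (d * d)) := by
    have h2 : c0 (m * m) d = (2 * d * 8 ^ (d - 1) * 7 ^ (d * d)) * (m * m + 1) ^ (d * d) := by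
      unfold c0
      have h4 : (m * m + 1) ^ (d * d) = (m * m + 1) ^ d * ((m * m + 1) ^ d) ^ (d - 1) := by
        rw [← pow_mul, ← pow_add]
        congr 1
        obtain ⟨k, rfl⟩ : ∃ k, d = k + 1 := ⟨d - 1, by omega⟩
        simp
        ring
      rw [h4, mul_pow]
      ring
    have h7 : n ^ (2 * (d * d)) = (n ^ 2) ^ (d * d) := pow_mul _ _ _
    rw [h2, h7]
    exact Nat.mul_le_mul_left _ (Nat.pow_le_pow_left hN _)
  have hPn : P ^ (d * d) ≤ (d * d) ^ (d * d) * n ^ (2 * (d * d)) := by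
    have h7 : n ^ (2 * (d * d)) = (n ^ 2) ^ (d * d) := pow_mul _ _ _
    have h8 : P ^ (d * d) = (d * d) ^ (d * d) * (m * m) ^ (d * d) := by
      rw [hP, mul_pow, mul_comm]
    rw [h8, h7]
    exact Nat.mul_le_mul_left _ (Nat.pow_le_pow_left (by omega) _)
  have h5 : 4 * (c0 (m * m) d) ^ 2 * P ^ (d * d) * M ^ (d * d) ≤
      c3 d * n ^ (6 * (d * d)) * M ^ (d * d) := by
    refine Nat.mul_le_mul_right _ ?_
    calc 4 * (c0 (m * m) d) ^ 2 * P ^ (d * d) ≤
        4 * ((2 * d * 8 ^ (d - 1) * 7 ^ (d * d)) * n ^ (2 * (d * d))) ^ 2 *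
          ((d * d) ^ (d * d) * n ^ (2 * (d * d))) :=
          Nat.mul_le_mul (Nat.mul_le_mul_left _ (Nat.pow_le_pow_left hc _)) hPn
      _ = c3 d * n ^ (6 * (d * d)) := by
          unfold c3
          have h6 : 6 * (d * d) = 2 * (d * d) * 2 + 2 * (d * d) := by ring
          rw [h6, pow_add, pow_mul]
          ring
  have hMt : M ^ t ≤ n := by
    have : M ^ t * 1 ≤ M ^ t * Lb := Nat.mul_le_mul_left _ hL
    omega
  have hLb : Lb ≤ m := by
    have h6 : 1 ≤ M ^ t := Nat.one_le_pow _ _ hM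
    nlinarith
  have hLQ : Lb * (Q + 1) ≤ n ^ 4 := by
    rw [hQ]
    have h6 : Lb * (2 * (m * m) * Lb + 1) ≤ m * (2 * (m * m) * m + 1) :=
      Nat.mul_le_mul hLb (by nlinarith [Nat.mul_le_mul_left (2 * (m * m)) hLb])
    have h7 : m * (2 * (m * m) * m + 1) ≤ (3 * m) ^ 4 := by
      have h8 : 1 ≤ m * m * m := Nat.one_le_iff_ne_zero.2 (by positivity)
      calc m * (2 * (m * m) * m + 1) ≤ m * (2 * (m * m) * m + m * m * m) :=
            Nat.mul_le_mul_left _ (by omega)
        _ = 3 * m ^ 4 := by ring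
        _ ≤ 81 * m ^ 4 := by omega
        _ = (3 * m) ^ 4 := by ring
    exact h6.trans (h7.trans (Nat.pow_le_pow_left h3 4))
  have hn1 : 1 ≤ n := by omega
  rw [h1]
  calc (4 * (c0 (m * m) d) ^ 2 * P ^ (d * d) * M ^ (d * d)) ^ t * (Lb * (Q + 1))
      ≤ (c3 d * n ^ (6 * (d * d)) * M ^ (d * d)) ^ t * n ^ 4 :=
        Nat.mul_le_mul (Nat.pow_le_pow_left h5 t) hLQ
    _ = c3 d ^ t * n ^ (6 * (d * d) * t) * (M ^ t) ^ (d * d) * n ^ 4 := by
        rw [mul_pow, mul_pow, ← pow_mul, ← pow_mul, ← pow_mul]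
        congr 2
        rw [mul_comm (d * d) t]
    _ ≤ n * n ^ (6 * (d * d) * t) * n ^ (d * d) * n ^ 4 := by
        refine Nat.mul_le_mul_right _ ?_
        exact Nat.mul_le_mul (Nat.mul_le_mul_right _ hn) (Nat.pow_le_pow_left hMt _)
    _ = n ^ (1 + 6 * (d * d) * t + d * d + 4) := by ring
    _ ≤ n ^ 300 := by
        refine Nat.pow_le_pow_right hn1 ?_
        nlinarith

theorem fixed (t d : ℕ) (hd : 1 ≤ d) (htd : (6 * t + 1) * (d * d) ≤ 290) :
    ∃ C : ℕ, ∀ (n D e Z B R : ℕ) (A : Alg n d D e t Z B R), 100 * B ≤ n ^ 2 → Decides A →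
      (n : ℝ) ^ 3 ≤ C * (1 + D / (n : ℝ) ^ 2) ^ t * ((n : ℝ) ^ 2 + e * Z) := by
  set h : ℕ := 4 * (t + 1) with hh
  set K1 : ℕ := 48 * t * (d * d) * h ^ d * (1 + d) with hK1
  set n0 : ℕ := max 40 (c3 d ^ t) with hn0
  refine ⟨1280 * (10 * K1 + 1) ^ t + n0, ?_⟩
  intro n D e Z B R A hB hA
  have hY : (0 : ℝ) ≤ D / (n : ℝ) ^ 2 := by positivity
  have hone : (1 : ℝ) ≤ (1 + D / (n : ℝ) ^ 2) ^ t := one_le_pow₀ (by linarith)
  have heZ : (0 : ℝ) ≤ (e : ℝ) * Z := by positivity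
  rcases Nat.lt_or_ge n n0 with hn | hn
  · have h1 : (n : ℝ) ≤ n0 := by exact_mod_cast hn.le
    have h2 : (n : ℝ) ^ 3 ≤ n0 * (n : ℝ) ^ 2 := by
      have : (n : ℝ) ^ 3 = n * (n : ℝ) ^ 2 := by ring
      rw [this]
      exact mul_le_mul_of_nonneg_right h1 (by positivity)
    have h3 : ((1280 * (10 * K1 + 1) ^ t + n0 : ℕ) : ℝ) = 1280 * (10 * K1 + 1) ^ t + n0 := by
      push_cast
      ring
    rw [h3]
    have h4 : (0 : ℝ) ≤ 1280 * (10 * K1 + 1) ^ t := by positivity
    calc (n : ℝ) ^ 3 ≤ n0 * (n : ℝ) ^ 2 := h2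
      _ = n0 * 1 * (n : ℝ) ^ 2 := by ring
      _ ≤ (1280 * (10 * K1 + 1) ^ t + n0) * (1 + D / (n : ℝ) ^ 2) ^ t *
          ((n : ℝ) ^ 2 + e * Z) := by
          refine mul_le_mul (mul_le_mul (by linarith) hone zero_le_one (by positivity))
            (by linarith) (by positivity) (by positivity)
  · have hn40 : 40 ≤ n := le_trans (le_max_left _ _) hn
    have hnc : c3 d ^ t ≤ n := le_trans (le_max_right _ _) hn
    set m := n / 3 with hm
    have h3 : 3 * m ≤ n := by omega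
    have h3' : n ≤ 3 * m + 2 := by omega
    have hm13 : 13 ≤ m := by omega
    have hm0 : 0 < m := by omega
    set N := m * m with hN
    have hN0 : 0 < N := by positivity
    have hnN : n ^ 2 ≤ 10 * N := by
      have : n ^ 2 ≤ (3 * m + 2) ^ 2 := Nat.pow_le_pow_left h3' 2
      nlinarith
    set M := K1 * D / N + 1 with hM
    have hM0 : 0 < M := Nat.succ_pos _
    have hMN : K1 * D ≤ M * N := by
      have := Nat.lt_div_mul_add hN0 (a := K1 * D)
      rw [hM]
      nlinarith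
    have hd0 : (0 : ℝ) < d := by exact_mod_cast hd
    have hNr : (0 : ℝ) < N := by exact_mod_cast hN0
    have hMr : (0 : ℝ) < M := by exact_mod_cast hM0
    have hn0r : (0 : ℝ) < n := by
      have : 0 < n := by omega
      exact_mod_cast this
    -- it suffices to have the bound with `M`
    have hMle : (M : ℝ) ^ t ≤ (10 * K1 + 1) ^ t * (1 + D / (n : ℝ) ^ 2) ^ t := by
      rw [← mul_pow]
      refine pow_le_pow_left₀ hMr.le ?_ t
      have h4 : (M : ℝ) ≤ K1 * D / N + 1 := by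
        rw [hM]
        push_cast
        have := Nat.cast_div_le (α := ℝ) (m := K1 * D) (n := N)
        push_cast at this
        linarith
      have h5 : (K1 : ℝ) * D / N ≤ 10 * K1 * (D / (n : ℝ) ^ 2) := by
        rw [mul_div_assoc', div_le_div_iff₀ hNr (by positivity)]
        have h6 : ((n : ℝ)) ^ 2 ≤ 10 * N := by exact_mod_cast hnN
        have h7 : (0 : ℝ) ≤ (K1 : ℝ) * D := by positivity
        nlinarith [mul_le_mul_of_nonneg_left h6 h7]
      have h8 : (0 : ℝ) ≤ K1 := Nat.cast_nonneg _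
      nlinarith
    have hgoal : (n : ℝ) ^ 3 ≤ 1280 * (M : ℝ) ^ t * ((n : ℝ) ^ 2 + e * Z) →
        (n : ℝ) ^ 3 ≤ ((1280 * (10 * K1 + 1) ^ t + n0 : ℕ) : ℝ) * (1 + D / (n : ℝ) ^ 2) ^ t *
          ((n : ℝ) ^ 2 + e * Z) := by
      intro h4
      refine h4.trans ?_
      refine mul_le_mul_of_nonneg_right ?_ (by positivity)
      push_cast
      have h5 : (0 : ℝ) ≤ (n0 : ℝ) * (1 + D / (n : ℝ) ^ 2) ^ t := by positivity
      calc 1280 * (M : ℝ) ^ t ≤ 1280 * ((10 * K1 + 1) ^ t * (1 + D / (n : ℝ) ^ 2) ^ t) :=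
            mul_le_mul_of_nonneg_left hMle (by norm_num)
        _ ≤ (1280 * (10 * (K1 : ℝ) + 1) ^ t + n0) * (1 + D / (n : ℝ) ^ 2) ^ t := by
            linarith
    apply hgoal
    rcases Nat.lt_or_ge m (M ^ t) with hcase | hcase
    · have h4 : n ≤ 3 * M ^ t := by omega
      have h5 : (n : ℝ) ≤ 3 * (M : ℝ) ^ t := by exact_mod_cast h4
      have h6 : (0 : ℝ) ≤ (M : ℝ) ^ t := by positivity
      calc (n : ℝ) ^ 3 = n * (n : ℝ) ^ 2 := by ring
        _ ≤ (3 * (M : ℝ) ^ t) * (n : ℝ) ^ 2 := mul_le_mul_of_nonneg_right h5 (by positivity)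
        _ ≤ (1280 * (M : ℝ) ^ t) * ((n : ℝ) ^ 2 + e * Z) := by
            refine mul_le_mul (by linarith) (by linarith) (by positivity) (by positivity)
    · have hMt : 0 < M ^ t := by positivity
      set Lb := m / M ^ t with hLb
      have hL0 : 0 < Lb := Nat.div_pos hcase hMt
      have hML : M ^ t * Lb ≤ m := Nat.mul_div_le m (M ^ t)
      have hm2 : m ≤ 2 * (M ^ t * Lb) := by
        have h4 := Nat.lt_div_mul_add hMt (a := m)
        rw [← hLb] at h4
        nlinarith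
      set Q := 2 * (m * m) * Lb with hQ
      have hQ0 : 0 < Q := by positivity
      set P := m * m * (d * d) with hP
      have hP0 : 0 < P := by positivity
      have ha : 0 < c0 (m * m) d * P ^ (d * d - 1) := by
        have := c0_pos (N := m * m) hd
        positivity
      have hb : 0 < c0 (m * m) d * M ^ (d * d - 1) := by
        have := c0_pos (N := m * m) hd
        positivity
      have hh0 : 0 < h := by omega
      have hc := core (Λ := ((8 * (m * m + 1) ^ d : ℕ) : ℝ)) (H := h * P) hm0 h3 hh0 rfl hL0 hQ0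
        hM0
        (fun k => by
          have := scl_of (N := m * m) hd hP0
            (rho_pos (M := M) (P := P) (Q := Q) (b := c0 (m * m) d * M ^ (d * d - 1)) hL0 ha k)
          exact this)
        (fun k => by
          have hρ := rho_pos (M := M) (P := P) (Q := Q)
            (b := c0 (m * m) d * M ^ (d * d - 1)) hL0 ha k
          have h2 : 0 < rho2 M P Lb Q (c0 (m * m) d * P ^ (d * d - 1))
              (c0 (m * m) d * M ^ (d * d - 1)) k := by
            unfold rho2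
            omega
          exact scl_of (N := m * m) hd hM0 h2)
        hML
        ((rho_le hM0 hP0 ha hb t).trans (size_bound hd h3 hm0 hM0 hML hL0 hQ hnc htd))
        A hA
      -- evaluate
      have hhr : (0 : ℝ) < h := by exact_mod_cast hh0
      have hPr : (0 : ℝ) < P := by exact_mod_cast hP0
      have hLr : (0 : ℝ) < Lb := by exact_mod_cast hL0
      have hbern : (3 : ℝ) / 4 ≤ (1 - 1 / h) ^ t := by
        have h4 : (1 : ℝ) + t * (-(1 / h)) ≤ (1 + (-(1 / h))) ^ t := by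
          refine one_add_mul_le_pow ?_ t
          have : (1 : ℝ) / h ≤ 1 := by
            rw [div_le_one hhr]
            exact_mod_cast hh0
          linarith
        have h5 : (t : ℝ) * (1 / h) ≤ 1 / 4 := by
          rw [hh]
          push_cast
          rw [mul_one_div, div_le_div_iff₀ (by positivity) (by norm_num)]
          linarith
        have h6 : (1 : ℝ) + -(1 / h) = 1 - 1 / h := by ring
        rw [h6] at h4
        linarith
      have hphc : phc (m * m) d h (h * P) ≤ (h : ℝ) ^ d * (1 + d) := by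
        unfold phc
        refine mul_le_mul_of_nonneg_left ?_ (by positivity)
        have h4 : ((m * m : ℕ) : ℝ) * ((d : ℝ) * d / ((h * P : ℕ) : ℝ)) = 1 / h := by
          rw [hP]
          push_cast
          have hm' : (m : ℝ) ≠ 0 := by exact_mod_cast hm0.ne'
          field_simp
        rw [h4]
        have h5 : (1 : ℝ) / h ≤ 1 := by
          rw [div_le_one hhr]
          exact_mod_cast hh0
        linarith
      have hterm : (t : ℝ) * (D * (d * d / M) * phc (m * m) d h (h * P)) ≤ N / 48 := by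
        have h4 : (t : ℝ) * (D * (d * d / M) * phc (m * m) d h (h * P)) ≤
            t * (D * (d * d / M) * ((h : ℝ) ^ d * (1 + d))) := by
          refine mul_le_mul_of_nonneg_left ?_ (Nat.cast_nonneg t)
          exact mul_le_mul_of_nonneg_left hphc (by positivity)
        refine h4.trans ?_
        have h5 : (K1 : ℝ) * D ≤ M * N := by exact_mod_cast hMN
        have h6 : (t : ℝ) * (D * (d * d / M) * ((h : ℝ) ^ d * (1 + d))) =
            K1 * D / (48 * M) := by
          rw [hK1]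
          push_cast
          field_simp
        rw [h6, div_le_div_iff₀ (by positivity) (by norm_num)]
        nlinarith
      have hzero : (Z : ℝ) * (e * (2 * (((m * m : ℕ) : ℝ) / Q) + 1 / Lb)) =
          2 * (e * Z) / Lb := by
        have h4 : ((m * m : ℕ) : ℝ) / Q = 1 / (2 * Lb) := by
          rw [hQ]
          push_cast
          have hm' : (m : ℝ) ≠ 0 := by exact_mod_cast hm0.ne'
          field_simp
        rw [h4]
        field_simp
        ring
      have hBr : (B : ℝ) ≤ N / 10 := by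
        have h4 : 100 * B ≤ 10 * N := hB.trans hnN
        have h5 : (100 : ℝ) * B ≤ 10 * N := by exact_mod_cast h4
        linarith
      rw [hzero] at hc
      have hNm : ((m : ℝ) * m) = N := by
        rw [hN]
        push_cast
        ring
      rw [hNm] at hc
      have h4 : (N : ℝ) * (3 / 4) / 3 ≤ N * (1 - 1 / h) ^ t / 3 := by
        have := mul_le_mul_of_nonneg_left hbern hNr.le
        linarith
      have h5 : (N : ℝ) / 8 ≤ 2 * (e * Z) / Lb := by linarith
      have h6 : (N : ℝ) * Lb ≤ 16 * (e * Z) := by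
        rw [div_le_div_iff₀ (by norm_num) hLr] at h5
        linarith
      have h7 : (n : ℝ) ≤ 8 * ((M : ℝ) ^ t * Lb) := by
        have : n ≤ 8 * (M ^ t * Lb) := by omega
        exact_mod_cast this
      have h8 : ((n : ℝ)) ^ 2 ≤ 10 * N := by exact_mod_cast hnN
      have h9 : (0 : ℝ) ≤ (M : ℝ) ^ t := by positivity
      calc (n : ℝ) ^ 3 = n ^ 2 * n := by ring
        _ ≤ (10 * N) * (8 * ((M : ℝ) ^ t * Lb)) :=
            mul_le_mul h8 h7 hn0r.le (by positivity)
        _ = 80 * (M : ℝ) ^ t * (N * Lb) := by ring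
        _ ≤ 80 * (M : ℝ) ^ t * (16 * (e * Z)) :=
            mul_le_mul_of_nonneg_left h6 (by positivity)
        _ = 1280 * (M : ℝ) ^ t * (e * Z) := by ring
        _ ≤ 1280 * (M : ℝ) ^ t * ((n : ℝ) ^ 2 + e * Z) := by
            refine mul_le_mul_of_nonneg_left ?_ (by positivity)
            linarith [sq_nonneg (n : ℝ)]

/-- The lower bound. -/
theorem lower : ∃ C : ℝ, 0 < C ∧ ∀ n t d D e Z B R : ℕ, 1 ≤ d → (6 * t + 1) * d ^ 2 ≤ 290 →
    100 * B ≤ n ^ 2 → ∀ A : Alg n d D e t Z B R, Decides A →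
      (n : ℝ) ^ 3 ≤ C * (1 + D / (n : ℝ) ^ 2) ^ t * ((n : ℝ) ^ 2 + e * Z) := by
  classical
  choose! c hc using fun (p : ℕ × ℕ) (hp : 1 ≤ p.2 ∧ (6 * p.1 + 1) * (p.2 * p.2) ≤ 290) =>
    fixed p.1 p.2 hp.1 hp.2
  refine ⟨1 + ∑ p ∈ (range 50 ×ˢ range 50), (c p : ℝ), by positivity, ?_⟩
  intro n t d D e Z B R hd htd hB A hA
  have htd' : (6 * t + 1) * (d * d) ≤ 290 := by nlinarith
  have h1 := hc (t, d) ⟨hd, htd'⟩ n D e Z B R A hB hA
  have ht : t < 50 := by nlinarith
  have hd50 : d < 50 := by nlinarith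
  have hmem : (t, d) ∈ (range 50 ×ˢ range 50 : Finset (ℕ × ℕ)) := by
    rw [mem_product, mem_range, mem_range]
    exact ⟨ht, hd50⟩
  have h2 : (c (t, d) : ℝ) ≤ 1 + ∑ p ∈ (range 50 ×ˢ range 50), (c p : ℝ) := by
    have := Finset.single_le_sum (f := fun p : ℕ × ℕ => (c p : ℝ))
      (fun p _ => Nat.cast_nonneg _) hmem
    linarith
  refine h1.trans ?_
  refine mul_le_mul_of_nonneg_right (mul_le_mul_of_nonneg_right h2 (by positivity)) ?_
  positivity

end Pool.Agent.Helper14.PR
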