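import Pool.Agent.Helper14.PR.Poly
import Pool.Agent.Helper14.PR.Anti

set_option autoImplicit false
set_option linter.unusedSectionVars false

/-!
The reading phases: the variables of the top monomials are read until all of them are big.
-/

open Finset
open scoped BigOperators

namespace Pool.Agent.Helper14.PR

section top
variable {V : Type} [Fintype V] [DecidableEq V] {P : ℕ}

/-- The monomial `s` is a top monomial of `g`. -/
def IsTop (Λ : ℝ) (P : ℕ) (g : MvPolynomial V ℝ) (s : V →₀ ℕ) : Prop :=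
  s ∈ g.support ∧ s ≠ 0 ∧ ∀ u ∈ g.support, u ≠ 0 →
    |g.coeff u| * (Λ * P) ^ u.degree ≤ |g.coeff s| * (Λ * P) ^ s.degree

open Classical in
/-- A top monomial. -/
noncomputable def topm (Λ : ℝ) (P : ℕ) (g : MvPolynomial V ℝ) : Option (V →₀ ℕ) :=
  if h : ∃ s, IsTop Λ P g s then some h.choose else none

theorem topm_some {Λ : ℝ} {g : MvPolynomial V ℝ} {s : V →₀ ℕ}
    (h : topm Λ P g = some s) : IsTop Λ P g s := by
  unfold topm at h
  split_ifs at h with h'
  simp only [Option.some.injEq] at h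
  rw [← h]
  exact h'.choose_spec

theorem topm_none {Λ : ℝ} {g : MvPolynomial V ℝ} (h : topm Λ P g = none) :
    ∀ u ∈ g.support, u = 0 := by
  classical
  unfold topm at h
  split_ifs at h with h'
  by_contra hcon
  push Not at hcon
  obtain ⟨u, hu, hu0⟩ := hcon
  have hne : (g.support.filter fun u => u ≠ 0).Nonempty := ⟨u, by simp [hu0] at hu ⊢; exact hu⟩
  obtain ⟨s, hs, hmax⟩ := Finset.exists_max_image _
    (fun u => |g.coeff u| * (Λ * P) ^ u.degree) hne
  rw [Finset.mem_filter] at hs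
  exact h' ⟨s, hs.1, hs.2, fun u hu hu0 => hmax u (Finset.mem_filter.2 ⟨hu, hu0⟩)⟩

theorem eval_const {g : MvPolynomial V ℝ} (h : ∀ u ∈ g.support, u = 0)
    (W W' : V → ℝ) : MvPolynomial.eval W g = MvPolynomial.eval W' g := by
  rw [MvPolynomial.eval_eq', MvPolynomial.eval_eq']
  refine Finset.sum_congr rfl fun u hu => ?_
  rw [h u hu]
  simp

end top

section
variable {κ V β : Type} [Fintype V] [DecidableEq V] [Fintype β] {σ : κ → ℤ ⊕ V}

/-- The sign of a polynomial. -/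
noncomputable def sg (σ : κ → ℤ ⊕ V) (p : MvPolynomial κ ℝ) (x : V → ℤ) : SignType :=
  SignType.sign (pval (cw σ x) p)

/-- The points that agree with `v` on `A` and lie in a box of side `ρ` above `v + m` outside. -/
def Win (A : Finset V) (v m : V → ℤ) (ρ : ℤ) (x : V → ℤ) : Prop :=
  (∀ e ∈ A, x e = v e) ∧ ∀ e, e ∉ A → v e + m e ≤ x e ∧ x e ≤ v e + m e + ρ

/-- The sign of the polynomial is constant on the box. -/
def res (σ : κ → ℤ ⊕ V) (p : MvPolynomial κ ℝ) (A : Finset V) (v m : V → ℤ) (ρ : ℤ) : Prop :=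
  ∀ x x' : V → ℤ, Win A v m ρ x → Win A v m ρ x' → sg σ p x = sg σ p x'

theorem res_sub {p : MvPolynomial κ ℝ} {A A' : Finset V} {v m v' m' : V → ℤ} {ρ ρ' : ℤ}
    (h : res σ p A v m ρ) (hs : ∀ x, Win A' v' m' ρ' x → Win A v m ρ x) :
    res σ p A' v' m' ρ' := fun x x' hx hx' => h x x' (hs x hx) (hs x' hx')

/-- The conditions on the scale `s`, the number of big values `P` and the size `ρ` of the rest. -/
structure Scl (N d P : ℕ) (Λ : ℝ) (s ρ : ℤ) : Prop where
  hP : 0 < P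
  hρ0 : 0 ≤ ρ
  hs : ρ < s
  hΛ : 8 * ((N + 1 : ℕ) : ℝ) ^ d ≤ Λ
  hω : ((N : ℝ) + 1) ^ d * d * ((ρ : ℝ) / s) * Λ ^ (d - 1) / P ≤
    1 / 2 * ((1 : ℝ) / (7 * P)) ^ (d * d)

theorem Scl.two_le {N d P : ℕ} {Λ : ℝ} {s ρ : ℤ} (h : Scl N d P Λ s ρ) : 2 ≤ Λ := by
  have h1 : (1 : ℝ) ≤ ((N + 1 : ℕ) : ℝ) ^ d :=
    one_le_pow₀ (by push_cast; linarith [Nat.cast_nonneg (α := ℝ) N])
  linarith [h.hΛ]

/-- The normalised coordinates of a point. -/
noncomputable def nrm (A : Finset V) (v : V → ℤ) (s : ℤ) (x : V → ℤ) (e : V) : ℝ :=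
  if e ∈ A then 0 else ((x e : ℝ) - v e) / s

theorem pval_nrm (p : MvPolynomial κ ℝ) {A : Finset V} {v : V → ℤ} {s : ℤ} (hs : 0 < s)
    {x : V → ℤ} (hA : ∀ e ∈ A, x e = v e) :
    MvPolynomial.eval (nrm A v s x) (gp σ A v (s : ℝ) p) = pval (cw σ x) p := by
  refine gp_eval p _ _ hA (fun e he => ?_)
  have hs' : (s : ℝ) ≠ 0 := by exact_mod_cast hs.ne'
  unfold nrm
  rw [if_neg he]
  field_simp
  ring

theorem res_of_large {d P : ℕ} {Λ : ℝ} {s ρ : ℤ} (hS : Scl (Fintype.card V) d P Λ s ρ)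
    {p : MvPolynomial κ ℝ} (hp : p.totalDegree ≤ d) {A : Finset V} {v m : V → ℤ}
    (hm : ∀ e, ∃ k : ℕ, k ≤ P ∧ m e = k * s) {st : V →₀ ℕ}
    (htop : topm Λ P (gp σ A v (s : ℝ) p) = some st) {x₁ : V → ℤ} (hx₁ : Win A v m ρ x₁)
    (hl : thr d P (gp σ A v (s : ℝ) p) st < |pval (cw σ x₁) p|) : res σ p A v m ρ := by
  have hs0 : 0 < s := lt_of_le_of_lt hS.hρ0 hS.hs
  have hs' : (0 : ℝ) < s := by exact_mod_cast hs0
  obtain ⟨t1, t2, t3⟩ := topm_some htop
  have hP1 : (1 : ℝ) ≤ P := by exact_mod_cast hS.hP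
  have hρs : (ρ : ℝ) / s ≤ 1 := by
    rw [div_le_one hs']
    exact_mod_cast hS.hs.le
  have hρ0 : (0 : ℝ) ≤ ρ := by exact_mod_cast hS.hρ0
  have hb : ∀ x, Win A v m ρ x → ∀ e, |nrm A v s x e| ≤ 2 * P := by
    intro x hx e
    unfold nrm
    by_cases he : e ∈ A
    · rw [if_pos he, abs_zero]
      positivity
    · rw [if_neg he]
      obtain ⟨k, hk, hmk⟩ := hm e
      obtain ⟨h1, h2⟩ := hx.2 e he
      have h1' : (0 : ℝ) ≤ (x e : ℝ) - v e := by
        have : v e ≤ x e := by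
          have : (0 : ℤ) ≤ m e := by rw [hmk]; positivity
          linarith
        have h3 : ((v e : ℤ) : ℝ) ≤ (x e : ℝ) := by exact_mod_cast this
        linarith
      have h2' : (x e : ℝ) - v e ≤ k * s + ρ := by
        have : x e - v e ≤ k * s + ρ := by rw [← hmk]; linarith
        exact_mod_cast this
      rw [abs_of_nonneg (div_nonneg h1' hs'.le), div_le_iff₀ hs']
      have hk' : (k : ℝ) ≤ P := by exact_mod_cast hk
      have h3 : (ρ : ℝ) ≤ s := by exact_mod_cast hS.hs.le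
      nlinarith
  have hd : ∀ x x', Win A v m ρ x → Win A v m ρ x' → ∀ e,
      |nrm A v s x e - nrm A v s x' e| ≤ (ρ : ℝ) / s := by
    intro x x' hx hx' e
    unfold nrm
    by_cases he : e ∈ A
    · rw [if_pos he, if_pos he, sub_self, abs_zero]
      positivity
    · rw [if_neg he, if_neg he, ← sub_div, abs_div, abs_of_pos hs']
      refine div_le_div_of_nonneg_right ?_ hs'.le
      obtain ⟨h1, h2⟩ := hx.2 e he
      obtain ⟨h3, h4⟩ := hx'.2 e he
      have h5 : |x e - x' e| ≤ ρ := by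
        rw [abs_le]
        constructor <;> linarith
      have h6 : (x e : ℝ) - v e - ((x' e : ℝ) - v e) = ((x e - x' e : ℤ) : ℝ) := by
        push_cast
        ring
      rw [h6, ← Int.cast_abs]
      exact_mod_cast h5
  have key : ∀ x, Win A v m ρ x → sg σ p x = sg σ p x₁ := by
    intro x hx
    have h1 := robust' hS.hP (gp σ A v (s : ℝ) p) (gp_deg hp) st t1 t2 Λ _ hS.two_le t3 hS.hω
      (nrm A v s x₁) (nrm A v s x) (hb x₁ hx₁) (hb x hx) (hd x₁ x hx₁ hx)
    rw [pval_nrm p hs0 hx₁.1, pval_nrm p hs0 hx.1] at h1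
    exact (sign_eq_of_lt hl h1).symm
  intro x x' hx hx'
  rw [key x hx, key x' hx']

theorem res_of_none {P : ℕ} {Λ : ℝ} {s ρ : ℤ} (hs : 0 < s) {p : MvPolynomial κ ℝ} {A : Finset V}
    {v m : V → ℤ} (htop : topm Λ P (gp σ A v (s : ℝ) p) = none) : res σ p A v m ρ := by
  intro x x' hx hx'
  unfold sg
  rw [← pval_nrm p hs hx.1, ← pval_nrm p hs hx'.1, eval_const (topm_none htop)]

/-- The law with a macroscopic part in the scale `s`. -/
def Law.mac (L : Law β) (P H : ℕ) (s : ℤ) : Law (Fin H × β) where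
  r := fun x => (PR.mac P x.1 : ℤ) * s + L.r x.2
  τ := fun x => L.τ x.2
  ia := fun x => P ≤ (x.1 : ℕ) ∧ L.ia x.2

/-- The law with a digit in the scale `s`. -/
def Law.dig (L : Law β) (M : ℕ) (s : ℤ) : Law (Fin M × β) where
  r := fun x => (x.1 : ℕ) * s + L.r x.2
  τ := fun x => (x.1 : ℕ) * s + L.τ x.2
  ia := fun x => L.ia x.2

/-- The macroscopic parts. -/
def mm {H : ℕ} (P : ℕ) (s : ℤ) (ω : V → Fin H × β) (e : V) : ℤ := (mac P (ω e).1 : ℤ) * s

variable {L : Law β} {P H d : ℕ} {s ρ : ℤ} {Λ : ℝ}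

theorem win_val (hr : ∀ b, 0 ≤ L.r b ∧ L.r b ≤ ρ) (A : Finset V) (v : V → ℤ)
    (ω : V → Fin H × β) : Win A v (mm P s ω) ρ (val (L.mac P H s) A v ω) := by
  refine ⟨fun e he => by unfold val; rw [if_pos he], fun e he => ?_⟩
  unfold val mm
  rw [if_neg he]
  have h := hr (ω e).2
  show v e + (mac P (ω e).1 : ℤ) * s ≤ v e + ((mac P (ω e).1 : ℤ) * s + L.r (ω e).2) ∧
    v e + ((mac P (ω e).1 : ℤ) * s + L.r (ω e).2) ≤ v e + (mac P (ω e).1 : ℤ) * s + ρ
  constructor <;> linarith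

theorem res_rdv (hr : ∀ b, 0 ≤ L.r b ∧ L.r b ≤ ρ) {p : MvPolynomial κ ℝ} {A : Finset V}
    {v : V → ℤ} {ω : V → Fin H × β} (h : res σ p A v (mm P s ω) ρ) (S : Finset V) :
    res σ p (A ∪ S) (rdv (L.mac P H s) A S v ω) (mm P s ω) ρ := by
  refine res_sub h fun x hx => ⟨fun e he => ?_, fun e he => ?_⟩
  · rw [hx.1 e (mem_union_left _ he)]
    unfold rdv
    rw [if_neg fun h => h.2 he]
  · by_cases hS : e ∈ S
    · rw [hx.1 e (mem_union_right _ hS)]
      unfold rdv
      rw [if_pos ⟨hS, he⟩]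
      unfold mm
      have h := hr (ω e).2
      show v e + (mac P (ω e).1 : ℤ) * s ≤ v e + ((mac P (ω e).1 : ℤ) * s + L.r (ω e).2) ∧
        v e + ((mac P (ω e).1 : ℤ) * s + L.r (ω e).2) ≤ v e + (mac P (ω e).1 : ℤ) * s + ρ
      constructor <;> linarith
    · have h1 := hx.2 e (by rw [mem_union, not_or]; exact ⟨he, hS⟩)
      have h2 : rdv (L.mac P H s) A S v ω e = v e := by
        unfold rdv
        rw [if_neg fun h => hS h.1]
      rw [h2] at h1
      exact h1

/-- The exceptional event at a top monomial. -/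
def bad (σ : κ → ℤ ⊕ V) (L : Law β) (P d : ℕ) (s : ℤ) {H : ℕ} (p : MvPolynomial κ ℝ)
    (A : Finset V) (v : V → ℤ) (st : V →₀ ℕ) (ω : V → Fin H × β) : Prop :=
  (∀ e ∈ st.support, ((ω e).1 : ℕ) < P) ∧
    |pval (cw σ (val (L.mac P H s) A v ω)) p| ≤ thr d P (gp σ A v (s : ℝ) p) st

open Classical in
/-- The reading phase of a sign test, with the continuation `K`. -/
noncomputable def ph (σ : κ → ℤ ⊕ V) (L : Law β) (P H d : ℕ) (s : ℤ) (Λ : ℝ)
    (p : MvPolynomial κ ℝ) (K : Finset V → (V → ℤ) → (V → Fin H × β) → ℝ) :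
    ℕ → Finset V → (V → ℤ) → (V → Fin H × β) → ℝ
  | 0, A, v, ω => K A v ω
  | f + 1, A, v, ω =>
    match topm Λ P (gp σ A v (s : ℝ) p) with
    | none => K A v ω
    | some st => (if bad σ L P d s p A v st ω then (Fintype.card V : ℝ) else 0) + d +
        if ∀ e ∈ st.support, ((ω e).1 : ℕ) < P then
          K (A ∪ st.support) (rdv (L.mac P H s) A st.support v ω) ω
        else ph σ L P H d s Λ p K f (A ∪ st.support) (rdv (L.mac P H s) A st.support v ω) ω

theorem ph_nonneg {p : MvPolynomial κ ℝ} {K : Finset V → (V → ℤ) → (V → Fin H × β) → ℝ}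
    (hK : ∀ A v ω, 0 ≤ K A v ω) : ∀ f A v ω, 0 ≤ ph σ L P H d s Λ p K f A v ω := by
  intro f
  induction f with
  | zero => intro A v ω; exact hK A v ω
  | succ f ih =>
    intro A v ω
    unfold ph
    rcases topm Λ P (gp σ A v (s : ℝ) p) with _ | st
    · exact hK A v ω
    · simp only
      refine add_nonneg (add_nonneg ?_ (Nat.cast_nonneg d)) ?_
      · split_ifs <;> positivity
      · split_ifs
        · exact hK _ _ _
        · exact ih _ _ _

theorem top_disj {p : MvPolynomial κ ℝ} {A : Finset V} {v : V → ℤ} {st : V →₀ ℕ}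
    (h : topm Λ P (gp σ A v (s : ℝ) p) = some st) : ∀ e ∈ st.support, e ∉ A := by
  intro e he hA
  have h1 := gp_vars p st (topm_some h).1 e hA
  exact (Finsupp.mem_support_iff.1 he) h1

theorem rdv_congr' {γ : Type} {L : Law γ} {A S : Finset V} {v : V → ℤ} {ω ω' : V → γ}
    (h : ∀ e, e ∉ A → ω e = ω' e) : rdv L A S v ω = rdv L A S v ω' := by
  funext e
  unfold rdv
  by_cases he : e ∈ S ∧ e ∉ A
  · rw [if_pos he, if_pos he, h e he.2]
  · rw [if_neg he, if_neg he]

theorem ph_congr {p : MvPolynomial κ ℝ} {K : Finset V → (V → ℤ) → (V → Fin H × β) → ℝ}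
    (hK : ∀ A v ω ω', (∀ e, e ∉ A → ω e = ω' e) → K A v ω = K A v ω') :
    ∀ f A v ω ω', (∀ e, e ∉ A → ω e = ω' e) →
      ph σ L P H d s Λ p K f A v ω = ph σ L P H d s Λ p K f A v ω' := by
  intro f
  induction f with
  | zero => intro A v ω ω' h; exact hK A v ω ω' h
  | succ f ih =>
    intro A v ω ω' h
    unfold ph
    rcases htop : topm Λ P (gp σ A v (s : ℝ) p) with _ | st
    · exact hK A v ω ω' h
    · simp only
      have hd := top_disj htop
      have hact : (∀ e ∈ st.support, ((ω e).1 : ℕ) < P) ↔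
          (∀ e ∈ st.support, ((ω' e).1 : ℕ) < P) := by
        constructor
        · intro h1 e he
          rw [← h e (hd e he)]
          exact h1 e he
        · intro h1 e he
          rw [h e (hd e he)]
          exact h1 e he
      have hbad : bad σ L P d s p A v st ω ↔ bad σ L P d s p A v st ω' := by
        unfold bad
        rw [hact, val_congr h]
      have h' : ∀ e, e ∉ A ∪ st.support → ω e = ω' e := fun e he =>
        h e fun hA => he (mem_union_left _ hA)
      rw [rdv_congr' h, hK _ _ _ _ h', ih _ _ _ _ h']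
      congr 1
      · congr 1
        by_cases hb : bad σ L P d s p A v st ω
        · rw [if_pos hb, if_pos (hbad.1 hb)]
        · rw [if_neg hb, if_neg fun h => hb (hbad.2 h)]
      · by_cases ha : ∀ e ∈ st.support, ((ω e).1 : ℕ) < P
        · rw [if_pos ha, if_pos (hact.1 ha)]
        · rw [if_neg ha, if_neg fun h => ha (hact.2 h)]

end

end Pool.Agent.Helper14.PR
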