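import Pool.Agent.Helper14.PR.Phase

set_option autoImplicit false
set_option linter.unusedSectionVars false

/-!
The averages of the reading phases, and the inequality along each path.
-/

open Finset
open scoped BigOperators

namespace Pool.Agent.Helper14.PR

section
variable {κ V β : Type} [Fintype V] [DecidableEq V] [Fintype β] {σ : κ → ℤ ⊕ V}
  {L : Law β} {P H d : ℕ} {s ρ : ℤ} {Λ : ℝ}

open Classical in
theorem bad_avg (hH : 0 < H) (hS : Scl (Fintype.card V) d P Λ s ρ)
    (hr : ∀ b, 0 ≤ L.r b ∧ L.r b ≤ ρ) {p : MvPolynomial κ ℝ} (hp : p.totalDegree ≤ d)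
    {A : Finset V} {v : V → ℤ} {st : V →₀ ℕ}
    (htop : topm Λ P (gp σ A v (s : ℝ) p) = some st) :
    avg (fun ω : V → Fin H × β => if bad σ L P d s p A v st ω then (Fintype.card V : ℝ) else 0)
      ≤ Fintype.card V * (d * d / H) := by
  rw [avg_pair]
  have hs0 : 0 < s := lt_of_le_of_lt hS.hρ0 hS.hs
  have hs' : (0 : ℝ) < s := by exact_mod_cast hs0
  obtain ⟨t1, t2, t3⟩ := topm_some htop
  -- exchange the averages
  have hswap : (avg fun a : V → Fin H => avg fun b : V → β =>
      if bad σ L P d s p A v st (fun e => (a e, b e)) then (Fintype.card V : ℝ) else 0) =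
      avg fun b : V → β => avg fun a : V → Fin H =>
        if bad σ L P d s p A v st (fun e => (a e, b e)) then (Fintype.card V : ℝ) else 0 := by
    unfold avg
    rw [← Finset.sum_div, ← Finset.sum_div, Finset.sum_comm, div_div, div_div, mul_comm]
  rw [hswap]
  refine avg_le_of_le (by positivity) fun b => ?_
  rw [avg_ite]
  refine mul_le_mul_of_nonneg_left ?_ (Nat.cast_nonneg _)
  set low : V → ℝ := fun e => (L.r (b e) : ℝ) / s with hlow
  have hlow1 : ∀ e, 0 ≤ low e ∧ low e ≤ 1 := by
    intro e
    have h := hr (b e)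
    have h1 : (0 : ℝ) ≤ (L.r (b e) : ℝ) := by exact_mod_cast h.1
    have h2 : (L.r (b e) : ℝ) ≤ s := by exact_mod_cast (h.2.trans hS.hs.le)
    exact ⟨div_nonneg h1 hs'.le, by rw [hlow]; simp only; rw [div_le_one hs']; exact h2⟩
  have h := anti' (a := H) hS.hP hH low hlow1 (gp σ A v (s : ℝ) p) (gp_deg hp) st t1 Λ hS.hΛ t3
  have hc : (0 : ℝ) < Fintype.card (V → Fin H) := by
    have : Nonempty (Fin H) := ⟨⟨0, hH⟩⟩
    exact_mod_cast Fintype.card_pos
  rw [div_le_iff₀ hc]
  refine le_trans (le_of_eq ?_) h
  congr 1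
  refine congrArg Finset.card (Finset.filter_congr fun a _ => ?_)
  unfold bad
  have h1 : pval (cw σ (val (L.mac P H s) A v fun e => (a e, b e))) p =
      MvPolynomial.eval (wv P low a) (gp σ A v (s : ℝ) p) := by
    symm
    refine gp_eval p _ _ (fun e he => by unfold val; rw [if_pos he]) (fun e he => ?_)
    unfold val wv Law.mac
    rw [if_neg he]
    simp only [hlow]
    push_cast
    field_simp
  rw [h1]

open Classical in
theorem act_avg {h : ℕ} (hP : 0 < P) (hh : 0 < h) (hHP : H = h * P) (hβ : Nonempty β)
    (S : Finset V) (hSd : S.card ≤ d) :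
    ((1 : ℝ) / h) ^ d ≤
      avg (fun ω : V → Fin H × β => if (∀ e ∈ S, ((ω e).1 : ℕ) < P) then (1 : ℝ) else 0) := by
  rw [avg_pair]
  have h1 : (avg fun a : V → Fin H => avg fun _ : V → β =>
      if (∀ e ∈ S, ((a e : Fin H) : ℕ) < P) then (1 : ℝ) else 0) =
      avg fun a : V → Fin H => if (∀ e ∈ S, ((a e : Fin H) : ℕ) < P) then (1 : ℝ) else 0 := by
    congr 1
    funext a
    exact avg_const _
  have hH : 0 < H := by rw [hHP]; positivity
  show _ ≤ avg fun a : V → Fin H => avg fun _ : V → β =>
      if (∀ e ∈ S, ((a e : Fin H) : ℕ) < P) then (1 : ℝ) else 0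
  have h1' : (avg fun a : V → Fin H => if (∀ e ∈ S, ((a e : Fin H) : ℕ) < P) then (1 : ℝ) else 0) =
      1 * (((univ.filter fun a : V → Fin H => ∀ e ∈ S, ((a e : Fin H) : ℕ) < P).card : ℝ) /
        Fintype.card (V → Fin H)) := by
    convert avg_ite (fun a : V → Fin H => ∀ e ∈ S, ((a e : Fin H) : ℕ) < P) (1 : ℝ)
  rw [h1, h1', one_mul]
  have h2 : (univ.filter fun a : V → Fin H => ∀ e ∈ S, ((a e : Fin H) : ℕ) < P) =
      Fintype.piFinset fun e => if e ∈ S then (univ.filter fun x : Fin H => (x : ℕ) < P)
        else univ := by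
    ext a
    simp only [mem_filter, mem_univ, true_and, Fintype.mem_piFinset]
    constructor
    · intro ha e
      by_cases he : e ∈ S
      · rw [if_pos he, mem_filter]
        exact ⟨mem_univ _, ha e he⟩
      · rw [if_neg he]
        exact mem_univ _
    · intro ha e he
      have := ha e
      rw [if_pos he, mem_filter] at this
      exact this.2
  have h3 : (univ.filter fun x : Fin H => (x : ℕ) < P).card = P := by
    have hPH : P ≤ H := by rw [hHP]; nlinarith
    have h4 : (univ.filter fun x : Fin H => (x : ℕ) < P) =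
        (univ : Finset (Fin P)).map (Fin.castLEEmb hPH) := by
      ext x
      simp only [mem_filter, mem_univ, true_and, mem_map]
      constructor
      · intro hx
        exact ⟨⟨x, hx⟩, Fin.ext rfl⟩
      · rintro ⟨y, rfl⟩
        exact y.2
    rw [h4, card_map, card_univ, Fintype.card_fin]
  have h5 : ((univ.filter fun a : V → Fin H => ∀ e ∈ S, ((a e : Fin H) : ℕ) < P).card : ℝ) =
      (P : ℝ) ^ S.card * (H : ℝ) ^ (Fintype.card V - S.card) := by
    rw [h2, Fintype.card_piFinset]
    have h6 : ∀ e : V, (if e ∈ S then (univ.filter fun x : Fin H => (x : ℕ) < P)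
        else univ).card = if e ∈ S then P else H := by
      intro e
      split_ifs
      · exact h3
      · rw [card_univ, Fintype.card_fin]
    rw [prod_congr rfl fun e _ => h6 e, Finset.prod_ite, Finset.prod_const, Finset.prod_const]
    have h7 : (univ.filter fun e : V => e ∈ S) = S := by ext; simp
    have h8 : (univ.filter fun e : V => e ∉ S) = univ \ S := by ext; simp
    rw [h7, h8, Finset.card_sdiff_of_subset (subset_univ _), card_univ]
    push_cast
    rfl
  have h9 : (Fintype.card (V → Fin H) : ℝ) =
      (H : ℝ) ^ S.card * (H : ℝ) ^ (Fintype.card V - S.card) := by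
    rw [Fintype.card_fun, Fintype.card_fin, ← pow_add]
    have h10 := S.card_le_univ
    rw [show S.card + (Fintype.card V - S.card) = Fintype.card V by omega]
    push_cast
    rfl
  have hH0 : (0 : ℝ) < H := by exact_mod_cast hH
  have hP0 : (0 : ℝ) < P := by exact_mod_cast hP
  have hh0 : (0 : ℝ) < h := by exact_mod_cast hh
  rw [h5, h9, mul_div_mul_right _ _ (by positivity), ← div_pow]
  have h11 : (P : ℝ) / H = 1 / h := by
    rw [hHP]
    push_cast
    field_simp
  rw [h11]
  refine pow_le_pow_of_le_one (by positivity) ?_ hSd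
  rw [div_le_one hh0]
  exact_mod_cast hh

/-- The cost of a reading phase. -/
noncomputable def phc (N d h H : ℕ) : ℝ := (h : ℝ) ^ d * (N * (d * d / H) + d)

theorem phc_nonneg (N d h H : ℕ) : 0 ≤ phc N d h H := by
  unfold phc
  positivity

theorem ph_avg {h : ℕ} (hh : 0 < h) (hHP : H = h * P) (hβ : Nonempty β)
    (hS : Scl (Fintype.card V) d P Λ s ρ)
    (hr : ∀ b, 0 ≤ L.r b ∧ L.r b ≤ ρ) {p : MvPolynomial κ ℝ} (hp : p.totalDegree ≤ d)
    {K : Finset V → (V → ℤ) → (V → Fin H × β) → ℝ} {b : ℝ}
    (hK : ∀ A v, avg (K A v) ≤ b)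
    (hKc : ∀ A v ω ω', (∀ e, e ∉ A → ω e = ω' e) → K A v ω = K A v ω') :
    ∀ f A v, avg (ph σ L P H d s Λ p K f A v) ≤ b + phc (Fintype.card V) d h H := by
  classical
  have hH : 0 < H := by rw [hHP]; have := hS.hP; positivity
  have hne : Nonempty (Fin H × β) := ⟨(⟨0, hH⟩, hβ.some)⟩
  have hc0 := phc_nonneg (Fintype.card V) d h H
  intro f
  induction f with
  | zero =>
    intro A v
    have h0 := hK A v
    have h00 : avg (ph σ L P H d s Λ p K 0 A v) = avg (K A v) := by
      congr 1
    linarith
  | succ f ih =>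
    intro A v
    rcases htop : topm Λ P (gp σ A v (s : ℝ) p) with _ | st
    · have h0 := hK A v
      have h00 : avg (ph σ L P H d s Λ p K (f + 1) A v) = avg (K A v) := by
        congr 1
        funext ω
        unfold ph
        rw [htop]
      linarith
    · have h00 : avg (ph σ L P H d s Λ p K (f + 1) A v) =
          avg (fun ω : V → Fin H × β =>
            (if bad σ L P d s p A v st ω then (Fintype.card V : ℝ) else 0) + d +
            if ∀ e ∈ st.support, ((ω e).1 : ℕ) < P then
              K (A ∪ st.support) (rdv (L.mac P H s) A st.support v ω) ω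
            else ph σ L P H d s Λ p K f (A ∪ st.support)
              (rdv (L.mac P H s) A st.support v ω) ω) := by
        congr 1
        funext ω
        conv_lhs => unfold ph
        rw [htop]
      rw [h00, avg_add, avg_add, avg_const]
      have h1 : avg (fun ω : V → Fin H × β =>
          if bad σ L P d s p A v st ω then (Fintype.card V : ℝ) else 0) ≤
          Fintype.card V * (d * d / H) := by
        convert bad_avg hH hS hr hp htop
      have h2 := avg_diag st.support (fun ω₁ ω₂ : V → Fin H × β =>
        if ∀ e ∈ st.support, ((ω₁ e).1 : ℕ) < P then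
          K (A ∪ st.support) (rdv (L.mac P H s) A st.support v ω₁) ω₂
        else ph σ L P H d s Λ p K f (A ∪ st.support) (rdv (L.mac P H s) A st.support v ω₁) ω₂)
        (fun ω ω' ω₂ hω => by
          have hact : (∀ e ∈ st.support, ((ω e).1 : ℕ) < P) ↔
              (∀ e ∈ st.support, ((ω' e).1 : ℕ) < P) := by
            constructor
            · intro h3 e he
              rw [← hω e he]
              exact h3 e he
            · intro h3 e he
              rw [hω e he]
              exact h3 e he
          rw [rdv_congr hω]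
          by_cases ha : ∀ e ∈ st.support, ((ω e).1 : ℕ) < P
          · rw [if_pos ha, if_pos (hact.1 ha)]
          · rw [if_neg ha, if_neg fun h => ha (hact.2 h)])
        (fun ω₁ ω ω' hω => by
          have h' : ∀ e, e ∉ A ∪ st.support → ω e = ω' e := fun e he =>
            hω e fun hA => he (mem_union_right _ hA)
          rw [hKc _ _ _ _ h', ph_congr hKc f _ _ _ _ h'])
      rw [h2]
      have h3 : ∀ ω₁ : V → Fin H × β, (avg fun ω₂ : V → Fin H × β =>
          if ∀ e ∈ st.support, ((ω₁ e).1 : ℕ) < P then
            K (A ∪ st.support) (rdv (L.mac P H s) A st.support v ω₁) ω₂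
          else ph σ L P H d s Λ p K f (A ∪ st.support)
            (rdv (L.mac P H s) A st.support v ω₁) ω₂) ≤
          (b + phc (Fintype.card V) d h H) + (-phc (Fintype.card V) d h H) *
            (if (∀ e ∈ st.support, ((ω₁ e).1 : ℕ) < P) then (1 : ℝ) else 0) := by
        intro ω₁
        by_cases ha : ∀ e ∈ st.support, ((ω₁ e).1 : ℕ) < P
        · simp only [if_pos ha]
          have := hK (A ∪ st.support) (rdv (L.mac P H s) A st.support v ω₁)
          linarith
        · simp only [if_neg ha]
          have := ih (A ∪ st.support) (rdv (L.mac P H s) A st.support v ω₁)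
          linarith
      have h4 := avg_mono h3
      rw [avg_add, avg_const, avg_smul] at h4
      have hSd : st.support.card ≤ d :=
        support_card_le (gp_deg hp st (topm_some htop).1)
      have h5 : ((1 : ℝ) / h) ^ d ≤ avg (fun ω : V → Fin H × β =>
          if (∀ e ∈ st.support, ((ω e).1 : ℕ) < P) then (1 : ℝ) else 0) := by
        convert act_avg (H := H) (β := β) (d := d) hS.hP hh hHP hβ st.support hSd
      have h6 : phc (Fintype.card V) d h H * ((1 : ℝ) / h) ^ d =
          (Fintype.card V : ℝ) * (d * d / H) + d := by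
        unfold phc
        have hh0 : (h : ℝ) ≠ 0 := by exact_mod_cast hh.ne'
        rw [mul_right_comm, ← mul_pow, mul_one_div_cancel hh0, one_pow, one_mul]
      have h7 := mul_le_mul_of_nonneg_left h5 hc0
      rw [h6] at h7
      linarith

theorem ph_path {D t Z B : ℕ} {e' : ℕ} (T : Tree κ d D e' t Z B)
    (hS : Scl (Fintype.card V) d P Λ s ρ)
    (hr : ∀ b, 0 ≤ L.r b ∧ L.r b ≤ ρ) (p : Fin D → MvPolynomial κ ℝ)
    (hp : ∀ j, (p j).totalDegree ≤ d) (j : Fin D) (Rs : Fin D → Prop)
    {K : Finset V → (V → ℤ) → (V → Fin H × β) → ℝ} (hK0 : ∀ A v ω, 0 ≤ K A v ω)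
    (ω : V → Fin H × β)
    (hK : ∀ A v, (∀ i, (i = j ∨ Rs i) → res σ (p i) A v (mm P s ω) ρ) →
      Fn σ (L.mac P H s) T A v ω ≤ K A v ω) :
    ∀ f A v, Fintype.card V ≤ A.card + f →
      (∀ i, Rs i → res σ (p i) A v (mm P s ω) ρ) →
      Fn σ (L.mac P H s) T A v ω ≤ ph σ L P H d s Λ (p j) K f A v ω := by
  classical
  have hs0 : 0 < s := lt_of_le_of_lt hS.hρ0 hS.hs
  intro f
  induction f with
  | zero =>
    intro A v hA hR
    have hAu : A = univ := by
      rw [← Finset.card_eq_iff_eq_univ]
      exact le_antisymm (card_le_univ _) (by omega)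
    refine hK A v fun i hi => ?_
    rcases hi with hi | hi
    · intro x x' hx hx'
      have : x = x' := by
        funext e
        rw [hx.1 e (by rw [hAu]; exact mem_univ _), hx'.1 e (by rw [hAu]; exact mem_univ _)]
      rw [this]
    · exact hR i hi
  | succ f ih =>
    intro A v hA hR
    unfold ph
    rcases htop : topm Λ P (gp σ A v (s : ℝ) (p j)) with _ | st
    · refine hK A v fun i hi => ?_
      rcases hi with hi | hi
      · rw [hi]
        exact res_of_none hs0 htop
      · exact hR i hi
    · simp only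
      have hd := top_disj htop
      have hSd : st.support.card ≤ d :=
        support_card_le (gp_deg (hp j) st (topm_some htop).1)
      have hSd' : (st.support.card : ℝ) ≤ d := by exact_mod_cast hSd
      have h0 : 0 ≤ if ∀ e ∈ st.support, ((ω e).1 : ℕ) < P then
          K (A ∪ st.support) (rdv (L.mac P H s) A st.support v ω) ω
        else ph σ L P H d s Λ (p j) K f (A ∪ st.support)
          (rdv (L.mac P H s) A st.support v ω) ω := by
        split_ifs
        · exact hK0 _ _ _
        · exact ph_nonneg hK0 _ _ _ _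
      by_cases hb : bad σ L P d s (p j) A v st ω
      · rw [if_pos hb]
        have h1 := Fn_le_card (σ := σ) (L := L.mac P H s) T A v ω
        have h2 : (0 : ℝ) ≤ d := Nat.cast_nonneg d
        linarith
      · rw [if_neg hb, zero_add]
        have h1 := Fn_rdv (σ := σ) (L := L.mac P H s) T A st.support v ω
        have hR' : ∀ i, Rs i → res σ (p i) (A ∪ st.support)
            (rdv (L.mac P H s) A st.support v ω) (mm P s ω) ρ := fun i hi =>
          res_rdv hr (hR i hi) st.support
        have hst : st.support.Nonempty :=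
          Finsupp.support_nonempty_iff.2 (topm_some htop).2.1
        by_cases ha : ∀ e ∈ st.support, ((ω e).1 : ℕ) < P
        · rw [if_pos ha]
          have h2 : thr d P (gp σ A v (s : ℝ) (p j)) st <
              |pval (cw σ (val (L.mac P H s) A v ω)) (p j)| := by
            by_contra hcon
            push Not at hcon
            exact hb ⟨ha, hcon⟩
          have h3 : res σ (p j) A v (mm P s ω) ρ :=
            res_of_large hS (hp j) (fun e => ⟨mac P (ω e).1, mac_le _, rfl⟩) htop
              (win_val hr A v ω) h2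
          have h4 := hK (A ∪ st.support) (rdv (L.mac P H s) A st.support v ω) (fun i hi => by
            rcases hi with hi | hi
            · rw [hi]
              exact res_rdv hr h3 st.support
            · exact hR' i hi)
          linarith
        · rw [if_neg ha]
          have hcard : A.card + 1 ≤ (A ∪ st.support).card := by
            obtain ⟨e0, he0⟩ := hst
            have h5 : insert e0 A ⊆ A ∪ st.support := by
              intro x hx
              rcases mem_insert.1 hx with hx | hx
              · rw [hx]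
                exact mem_union_right _ he0
              · exact mem_union_left _ hx
            have h6 := card_le_card h5
            rw [card_insert_of_notMem (hd e0 he0)] at h6
            exact h6
          have h4 := ih (A ∪ st.support) (rdv (L.mac P H s) A st.support v ω) (by omega) hR'
          linarith

/-- The reading phases of a list of tests. -/
noncomputable def phl (σ : κ → ℤ ⊕ V) (L : Law β) (P H d : ℕ) (s : ℤ) (Λ : ℝ) {D : ℕ}
    (p : Fin D → MvPolynomial κ ℝ) (K : Finset V → (V → ℤ) → (V → Fin H × β) → ℝ) :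
    List (Fin D) → Finset V → (V → ℤ) → (V → Fin H × β) → ℝ
  | [] => K
  | j :: js => ph σ L P H d s Λ (p j) (phl σ L P H d s Λ p K js) (Fintype.card V)

theorem phl_nonneg {D : ℕ} {p : Fin D → MvPolynomial κ ℝ}
    {K : Finset V → (V → ℤ) → (V → Fin H × β) → ℝ}
    (hK : ∀ A v ω, 0 ≤ K A v ω) : ∀ js A v ω, 0 ≤ phl σ L P H d s Λ p K js A v ω := by
  intro js
  induction js with
  | nil => exact hK
  | cons j js ih => exact fun A v ω => ph_nonneg ih _ A v ω

theorem phl_congr {D : ℕ} {p : Fin D → MvPolynomial κ ℝ}
    {K : Finset V → (V → ℤ) → (V → Fin H × β) → ℝ}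
    (hK : ∀ A v ω ω', (∀ e, e ∉ A → ω e = ω' e) → K A v ω = K A v ω') :
    ∀ js A v ω ω', (∀ e, e ∉ A → ω e = ω' e) →
      phl σ L P H d s Λ p K js A v ω = phl σ L P H d s Λ p K js A v ω' := by
  intro js
  induction js with
  | nil => exact hK
  | cons j js ih => exact fun A v ω ω' h => ph_congr ih _ A v ω ω' h

theorem phl_avg {h : ℕ} (hh : 0 < h) (hHP : H = h * P) (hβ : Nonempty β)
    (hS : Scl (Fintype.card V) d P Λ s ρ)
    (hr : ∀ b, 0 ≤ L.r b ∧ L.r b ≤ ρ) {D : ℕ} {p : Fin D → MvPolynomial κ ℝ}
    (hp : ∀ j, (p j).totalDegree ≤ d)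
    {K : Finset V → (V → ℤ) → (V → Fin H × β) → ℝ} {b : ℝ}
    (hK : ∀ A v, avg (K A v) ≤ b)
    (hKc : ∀ A v ω ω', (∀ e, e ∉ A → ω e = ω' e) → K A v ω = K A v ω') :
    ∀ js A v, avg (phl σ L P H d s Λ p K js A v) ≤
      b + js.length * phc (Fintype.card V) d h H := by
  intro js
  induction js with
  | nil =>
    intro A v
    have := hK A v
    simpa [phl] using this
  | cons j js ih =>
    intro A v
    have h1 := ph_avg (σ := σ) (L := L) hh hHP hβ hS hr (hp j) ih (phl_congr hKc js)
      (Fintype.card V) A v
    rw [List.length_cons]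
    push_cast
    have h2 : (b + ((js.length : ℝ) + 1) * phc (Fintype.card V) d h H) =
        b + js.length * phc (Fintype.card V) d h H + phc (Fintype.card V) d h H := by ring
    rw [h2]
    exact h1

theorem phl_path {D t Z B : ℕ} {e' : ℕ} (T : Tree κ d D e' t Z B)
    (hS : Scl (Fintype.card V) d P Λ s ρ)
    (hr : ∀ b, 0 ≤ L.r b ∧ L.r b ≤ ρ) (p : Fin D → MvPolynomial κ ℝ)
    (hp : ∀ j, (p j).totalDegree ≤ d)
    {K : Finset V → (V → ℤ) → (V → Fin H × β) → ℝ} (hK0 : ∀ A v ω, 0 ≤ K A v ω)
    (ω : V → Fin H × β)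
    (hK : ∀ A v, (∀ i, res σ (p i) A v (mm P s ω) ρ) →
      Fn σ (L.mac P H s) T A v ω ≤ K A v ω) :
    ∀ (js : List (Fin D)) A v, (∀ i, i ∉ js → res σ (p i) A v (mm P s ω) ρ) →
      Fn σ (L.mac P H s) T A v ω ≤ phl σ L P H d s Λ p K js A v ω := by
  intro js
  induction js with
  | nil =>
    intro A v hR
    exact hK A v fun i => hR i (by simp)
  | cons j js ih =>
    intro A v hR
    refine ph_path T hS hr p hp j (fun i => i ∉ j :: js) (phl_nonneg hK0 js) ω ?_
      (Fintype.card V) A v (by omega) (fun i hi => hR i hi)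
    intro A' v' h'
    refine ih A' v' fun i hi => ?_
    by_cases hij : i = j
    · exact h' i (Or.inl hij)
    · exact h' i (Or.inr (by
        rw [List.mem_cons, not_or]
        exact ⟨hij, hi⟩))

end

end Pool.Agent.Helper14.PR
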