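import Pool.Agent.Helper14.PR.Law

set_option autoImplicit false
set_option linter.unusedSectionVars false

/-!
Polynomials in the unknown coordinates, and the number of linear divisors of a polynomial.
-/

open Finset
open scoped BigOperators

namespace Pool.Agent.Helper14.PR

section
variable {κ V : Type} [Fintype V] [DecidableEq V]

/-- The cell as a polynomial in the unknown coordinates (in the scale `s`). -/
noncomputable def cellP (σ : κ → ℤ ⊕ V) (A : Finset V) (v : V → ℤ) (s : ℝ) (c : κ) :
    MvPolynomial V ℝ :=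
  match σ c with
  | Sum.inl k => MvPolynomial.C (k : ℝ)
  | Sum.inr e => if e ∈ A then MvPolynomial.C (v e : ℝ) else
      MvPolynomial.C (v e : ℝ) + MvPolynomial.C s * MvPolynomial.X e

/-- The polynomial in the unknown coordinates. -/
noncomputable def gp (σ : κ → ℤ ⊕ V) (A : Finset V) (v : V → ℤ) (s : ℝ)
    (p : MvPolynomial κ ℝ) : MvPolynomial V ℝ :=
  MvPolynomial.bind₁ (cellP σ A v s) p

variable {σ : κ → ℤ ⊕ V} {A : Finset V} {v : V → ℤ} {s : ℝ}

theorem eval_bind {ι τ : Type} (f : ι → MvPolynomial τ ℝ) (W : τ → ℝ) (p : MvPolynomial ι ℝ) :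
    MvPolynomial.eval W (MvPolynomial.bind₁ f p) =
      MvPolynomial.eval (fun i => MvPolynomial.eval W (f i)) p := by
  rw [MvPolynomial.hom_bind₁]
  have h2 : (MvPolynomial.eval W).comp MvPolynomial.C = RingHom.id ℝ := by
    ext x
    simp
  rw [h2]
  rfl

theorem gp_eval (p : MvPolynomial κ ℝ) (W : V → ℝ) (x : V → ℤ) (hA : ∀ e ∈ A, x e = v e)
    (hW : ∀ e, e ∉ A → (x e : ℝ) = v e + s * W e) :
    MvPolynomial.eval W (gp σ A v s p) = pval (cw σ x) p := by
  unfold gp pval
  rw [eval_bind]
  congr 1
  congr 1
  funext c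
  unfold cellP cw
  rcases σ c with k | e
  · simp
  · simp only [Sum.elim_inr]
    by_cases he : e ∈ A
    · rw [if_pos he, hA e he]
      simp
    · rw [if_neg he, hW e he]
      simp

theorem bind_deg {ι τ : Type} (f : ι → MvPolynomial τ ℝ) (hf : ∀ i, (f i).totalDegree ≤ 1)
    (p : MvPolynomial ι ℝ) : (MvPolynomial.bind₁ f p).totalDegree ≤ p.totalDegree := by
  classical
  conv_lhs => rw [p.as_sum]
  rw [map_sum]
  refine (MvPolynomial.totalDegree_finsetSum _ _).trans (Finset.sup_le fun u hu => ?_)
  rw [MvPolynomial.bind₁_monomial]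
  refine (MvPolynomial.totalDegree_mul _ _).trans ?_
  rw [MvPolynomial.totalDegree_C, zero_add]
  refine (MvPolynomial.totalDegree_finsetProd _ _).trans ?_
  refine le_trans ?_ (MvPolynomial.le_totalDegree hu)
  unfold Finsupp.sum
  refine Finset.sum_le_sum fun i _ => ?_
  refine (MvPolynomial.totalDegree_pow _ _).trans ?_
  have := hf i
  nlinarith

theorem cellP_deg (c : κ) : (cellP σ A v s c).totalDegree ≤ 1 := by
  unfold cellP
  rcases σ c with k | e
  · simp only [MvPolynomial.totalDegree_C]
    exact Nat.zero_le _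
  · simp only
    by_cases he : e ∈ A
    · rw [if_pos he, MvPolynomial.totalDegree_C]
      exact Nat.zero_le _
    · rw [if_neg he]
      refine (MvPolynomial.totalDegree_add _ _).trans ?_
      rw [MvPolynomial.totalDegree_C]
      refine max_le (Nat.zero_le _) ((MvPolynomial.totalDegree_mul _ _).trans ?_)
      rw [MvPolynomial.totalDegree_C, MvPolynomial.totalDegree_X]

theorem gp_totalDegree {d : ℕ} {p : MvPolynomial κ ℝ} (hp : p.totalDegree ≤ d) :
    (gp σ A v s p).totalDegree ≤ d := (bind_deg _ cellP_deg p).trans hp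

theorem gp_deg {d : ℕ} {p : MvPolynomial κ ℝ} (hp : p.totalDegree ≤ d) :
    ∀ u ∈ (gp σ A v s p).support, u.degree ≤ d := fun _ hu =>
  (MvPolynomial.le_totalDegree hu).trans (gp_totalDegree hp)

theorem cellP_vars (c : κ) (e : V) (he : e ∈ A) : e ∉ (cellP σ A v s c).vars := by
  classical
  unfold cellP
  rcases σ c with k | e'
  · simp only
    rw [MvPolynomial.vars_C]
    exact Finset.notMem_empty _
  · simp only
    by_cases he' : e' ∈ A
    · rw [if_pos he', MvPolynomial.vars_C]
      exact Finset.notMem_empty _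
    · rw [if_neg he']
      intro h
      have h1 := MvPolynomial.vars_add_subset _ _ h
      rw [Finset.mem_union, MvPolynomial.vars_C] at h1
      rcases h1 with h1 | h1
      · simp at h1
      · have h2 := MvPolynomial.vars_mul _ _ h1
        rw [Finset.mem_union, MvPolynomial.vars_C, MvPolynomial.vars_X, Finset.mem_singleton] at h2
        rcases h2 with h2 | h2
        · simp at h2
        · rw [h2] at he
          exact he' he

theorem gp_vars (p : MvPolynomial κ ℝ) : ∀ u ∈ (gp σ A v s p).support, ∀ e ∈ A, u e = 0 := by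
  classical
  intro u hu e he
  by_contra hne
  have h1 : e ∈ (gp σ A v s p).vars := by
    rw [MvPolynomial.mem_vars_iff_mem_support]
    exact ⟨u, hu, by simpa using hne⟩
  have h2 := MvPolynomial.vars_bind₁ _ _ h1
  rw [Finset.mem_biUnion] at h2
  obtain ⟨c, _, hc⟩ := h2
  exact cellP_vars c e he hc

theorem gp_eval_congr (p : MvPolynomial κ ℝ) {W W' : V → ℝ} (h : ∀ e, e ∉ A → W e = W' e) :
    MvPolynomial.eval W (gp σ A v s p) = MvPolynomial.eval W' (gp σ A v s p) := by
  rw [MvPolynomial.eval_eq', MvPolynomial.eval_eq']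
  refine Finset.sum_congr rfl fun u hu => ?_
  congr 1
  refine Finset.prod_congr rfl fun e _ => ?_
  by_cases he : e ∈ A
  · rw [gp_vars p u hu e he, pow_zero, pow_zero]
  · rw [h e he]

theorem gp_congr {v' : V → ℤ} (p : MvPolynomial κ ℝ) (h : ∀ e, v e = v' e) :
    gp σ A v s p = gp σ A v' s p := by
  have : v = v' := funext h
  rw [this]

end

section divs
variable {V : Type} [DecidableEq V]

/-- The polynomial with the variable `e` replaced by the number `a`. -/
noncomputable def sub (q : MvPolynomial V ℝ) (e : V) (a : ℝ) : MvPolynomial V ℝ :=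
  MvPolynomial.bind₁ (Function.update MvPolynomial.X e (MvPolynomial.C a)) q

theorem sub_mul (q q' : MvPolynomial V ℝ) (e : V) (a : ℝ) :
    sub (q * q') e a = sub q e a * sub q' e a := by
  unfold sub
  rw [map_mul]

theorem sub_eval (q : MvPolynomial V ℝ) (e : V) (a : ℝ) (W : V → ℝ) :
    MvPolynomial.eval W (sub q e a) = MvPolynomial.eval (Function.update W e a) q := by
  unfold sub
  rw [eval_bind]
  congr 1
  congr 1
  funext i
  by_cases h : i = e
  · subst h
    simp
  · rw [Function.update_of_ne h, Function.update_of_ne h]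
    simp

theorem sub_deg (q : MvPolynomial V ℝ) (e : V) (a : ℝ) :
    (sub q e a).totalDegree ≤ q.totalDegree := by
  refine bind_deg _ (fun i => ?_) q
  by_cases h : i = e
  · subst h
    rw [Function.update_self, MvPolynomial.totalDegree_C]
    exact Nat.zero_le _
  · rw [Function.update_of_ne h, MvPolynomial.totalDegree_X]

theorem dvd_sub_sub (q : MvPolynomial V ℝ) (e : V) (a : ℝ) :
    (MvPolynomial.X e - MvPolynomial.C a) ∣ q - sub q e a := by
  induction q using MvPolynomial.induction_on with
  | C r =>
    unfold sub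
    rw [MvPolynomial.bind₁_C_right, sub_self]
    exact dvd_zero _
  | add q q' h h' =>
    have : q + q' - sub (q + q') e a = (q - sub q e a) + (q' - sub q' e a) := by
      unfold sub
      rw [map_add]
      ring
    rw [this]
    exact dvd_add h h'
  | mul_X q i h =>
    have : q * MvPolynomial.X i - sub (q * MvPolynomial.X i) e a =
        (q - sub q e a) * MvPolynomial.X i + sub q e a *
          (MvPolynomial.X i - Function.update MvPolynomial.X e (MvPolynomial.C a) i) := by
      rw [sub_mul]
      have : sub (MvPolynomial.X i) e a =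
          Function.update MvPolynomial.X e (MvPolynomial.C a) i := by
        unfold sub
        rw [MvPolynomial.bind₁_X_right]
      rw [this]
      ring
    rw [this]
    refine dvd_add (Dvd.dvd.mul_right h _) (Dvd.dvd.mul_left ?_ _)
    by_cases hi : i = e
    · subst hi
      rw [Function.update_self]
    · rw [Function.update_of_ne hi, sub_self]
      exact dvd_zero _

theorem X_sub_C_ne (e : V) (a : ℝ) :
    (MvPolynomial.X e - MvPolynomial.C a : MvPolynomial V ℝ) ≠ 0 := by
  intro h
  have h1 := congrArg (MvPolynomial.eval (fun _ => a + 1)) h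
  simp at h1

theorem X_sub_C_deg (e : V) (a : ℝ) :
    1 ≤ (MvPolynomial.X e - MvPolynomial.C a : MvPolynomial V ℝ).totalDegree := by
  by_contra hcon
  have h0 : (MvPolynomial.X e - MvPolynomial.C a : MvPolynomial V ℝ).totalDegree = 0 := by omega
  have h2 := MvPolynomial.totalDegree_eq_zero_iff_eq_C.1 h0
  have h3 := congrArg (MvPolynomial.eval (fun _ => a)) h2
  have h4 := congrArg (MvPolynomial.eval (fun _ => a + 1)) h2
  simp only [MvPolynomial.eval_C] at h3 h4
  rw [← h3] at h4
  simp at h4

/-- A polynomial of degree `k` has at most `k` linear divisors of the form `x e - a`. -/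
theorem card_divs : ∀ (k : ℕ) (q : MvPolynomial V ℝ), q ≠ 0 → q.totalDegree ≤ k →
    ∀ S : Finset (V × ℝ), (∀ x ∈ S, sub q x.1 x.2 = 0) → S.card ≤ k := by
  intro k
  induction k with
  | zero =>
    intro q hq hk S hS
    rw [Nat.le_zero, Finset.card_eq_zero]
    by_contra hne
    obtain ⟨x, hx⟩ := Finset.nonempty_iff_ne_empty.2 hne
    have h1 := hS x hx
    have h2 : q = MvPolynomial.C (q.coeff 0) :=
      MvPolynomial.totalDegree_eq_zero_iff_eq_C.1 (Nat.le_zero.1 hk)
    rw [h2] at h1
    unfold sub at h1
    rw [MvPolynomial.bind₁_C_right] at h1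
    rw [h2, h1] at hq
    exact hq rfl
  | succ k ih =>
    intro q hq hk S hS
    by_contra hcon
    push Not at hcon
    obtain ⟨x, hx⟩ : S.Nonempty := Finset.card_pos.1 (by omega)
    have h1 := dvd_sub_sub q x.1 x.2
    rw [hS x hx, sub_zero] at h1
    obtain ⟨q', hq'⟩ := h1
    have hq0 : q' ≠ 0 := by
      rintro rfl
      rw [mul_zero] at hq'
      exact hq hq'
    have hdeg : q'.totalDegree ≤ k := by
      have h2 := MvPolynomial.totalDegree_mul_of_isDomain (X_sub_C_ne x.1 x.2) hq0
      rw [← hq'] at h2
      have h4 := X_sub_C_deg x.1 x.2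
      omega
    have h3 := ih q' hq0 hdeg (S.erase x) (fun y hy => by
      rw [Finset.mem_erase] at hy
      have h4 := hS y hy.2
      rw [hq', sub_mul] at h4
      rcases mul_eq_zero.1 h4 with h5 | h5
      · exfalso
        apply hy.1
        unfold sub at h5
        rw [map_sub, MvPolynomial.bind₁_X_right, MvPolynomial.bind₁_C_right] at h5
        by_cases hxy : x.1 = y.1
        · rw [hxy, Function.update_self, sub_eq_zero] at h5
          have h6 := MvPolynomial.C_injective V ℝ h5
          exact (Prod.ext hxy h6.symm).symm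
        · rw [Function.update_of_ne hxy] at h5
          exact absurd h5 (X_sub_C_ne _ _)
      · exact h5)
    rw [Finset.card_erase_of_mem hx] at h3
    omega

end divs

end Pool.Agent.Helper14.PR
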