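import Pool.Agent.Helper14.PR.Phase2

set_option autoImplicit false
set_option linter.unusedSectionVars false

/-!
A node that asks for the signs of `D` polynomials costs one level of digits.
-/

open Finset
open scoped BigOperators

namespace Pool.Agent.Helper14.PR

section
variable {κ V β : Type} [Fintype V] [DecidableEq V] [Fintype β] {σ : κ → ℤ ⊕ V}
  {L : Law β} {P H d : ℕ} {s ρ : ℤ} {Λ : ℝ}

/-- The known values after all macroscopic parts have been revealed. -/
def x0 {H : ℕ} (P : ℕ) (s : ℤ) (A : Finset V) (v : V → ℤ) (ω : V → Fin H × β) (e : V) : ℤ :=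
  if e ∈ A then v e else v e + mm P s ω e

/-- The continuation after the reading phases: all macroscopic parts are revealed. -/
noncomputable def cont (σ : κ → ℤ ⊕ V) (L : Law β) (P H : ℕ) (s : ℤ) {D t Z B e' : ℕ}
    (p : Fin D → MvPolynomial κ ℝ) (next : (Fin D → SignType) → Tree κ d D e' t Z B)
    (A : Finset V) (v : V → ℤ) (ω : V → Fin H × β) : ℝ :=
  Fn σ L (next fun j => sg σ (p j) (x0 P s A v ω)) A (x0 P s A v ω) fun e => (ω e).2

theorem cont_nonneg {D t Z B e' : ℕ}
    (p : Fin D → MvPolynomial κ ℝ) (next : (Fin D → SignType) → Tree κ d D e' t Z B)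
    (A : Finset V) (v : V → ℤ) (ω : V → Fin H × β) : 0 ≤ cont σ L P H s p next A v ω :=
  Fn_nonneg _ _ _ _

theorem x0_congr {A : Finset V} {v : V → ℤ} {ω ω' : V → Fin H × β}
    (h : ∀ e, e ∉ A → (ω e).1 = (ω' e).1) : x0 P s A v ω = x0 P s A v ω' := by
  funext e
  unfold x0
  by_cases he : e ∈ A
  · rw [if_pos he, if_pos he]
  · rw [if_neg he, if_neg he]
    unfold mm
    rw [h e he]

theorem cont_congr {D t Z B e' : ℕ}
    (p : Fin D → MvPolynomial κ ℝ) (next : (Fin D → SignType) → Tree κ d D e' t Z B)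
    (A : Finset V) (v : V → ℤ) (ω ω' : V → Fin H × β) (h : ∀ e, e ∉ A → ω e = ω' e) :
    cont σ L P H s p next A v ω = cont σ L P H s p next A v ω' := by
  unfold cont
  rw [x0_congr fun e he => congrArg Prod.fst (h e he)]
  exact Fn_congr _ fun e he => congrArg Prod.snd (h e he)

theorem cont_avg {D t Z B e' : ℕ} (p : Fin D → MvPolynomial κ ℝ)
    (next : (Fin D → SignType) → Tree κ d D e' t Z B) {b : ℝ} (hb : 0 ≤ b)
    (hn : ∀ z, Bdd σ L (next z) b) (A : Finset V) (v : V → ℤ) :
    avg (cont σ L P H s p next A v) ≤ b := by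
  rw [avg_pair]
  refine avg_le_of_le hb fun a => ?_
  have h1 : ∀ b' : V → β, cont σ L P H s p next A v (fun e => (a e, b' e)) =
      Fn σ L (next fun j => sg σ (p j)
        (fun e => if e ∈ A then v e else v e + (mac P (a e) : ℤ) * s)) A
        (fun e => if e ∈ A then v e else v e + (mac P (a e) : ℤ) * s) b' := fun b' => rfl
  simp only [h1]
  exact hn _ _ _

theorem win_x0 (hρ : 0 ≤ ρ) (A : Finset V) (v : V → ℤ) (ω : V → Fin H × β) :
    Win A v (mm P s ω) ρ (x0 P s A v ω) := by
  refine ⟨fun e he => by unfold x0; rw [if_pos he], fun e he => ?_⟩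
  unfold x0
  rw [if_neg he]
  constructor <;> linarith

theorem cont_path {D t Z B e' : ℕ} (hρ : 0 ≤ ρ)
    (hr : ∀ b, 0 ≤ L.r b ∧ L.r b ≤ ρ) (hτ : ∀ b, 0 ≤ L.τ b ∧ L.τ b ≤ ρ)
    (p : Fin D → MvPolynomial κ ℝ) (hp : ∀ j, (p j).totalDegree ≤ d)
    (next : (Fin D → SignType) → Tree κ d D e' t Z B) (ω : V → Fin H × β) (A : Finset V)
    (v : V → ℤ) (hR : ∀ i, res σ (p i) A v (mm P s ω) ρ) :
    Fn σ (L.mac P H s) (Tree.signs p hp next : Tree κ d D e' (t + 1) Z B) A v ω ≤
      cont σ L P H s p next A v ω := by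
  classical
  unfold cont Fn
  have hval : val (L.mac P H s) A v ω = val L A (x0 P s A v ω) fun e => (ω e).2 := by
    funext e
    unfold val x0 mm Law.mac
    by_cases he : e ∈ A
    · simp [he]
    · simp only [if_neg he]
      ring
  have hs1 : (fun j => SignType.sign (pval (cw σ (val (L.mac P H s) A v ω)) (p j))) =
      fun j => sg σ (p j) (x0 P s A v ω) := by
    funext j
    exact hR j _ _ (win_val hr A v ω) (win_x0 hρ A v ω)
  have hsub : (univ.filter fun a : V => a ∉ A ∧ (L.mac P H s).ia (ω a) ∧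
      (Tree.signs p hp next : Tree κ d D e' (t + 1) Z B).eval
        (cw σ (val (L.mac P H s) A v ω)) ≠
      (Tree.signs p hp next : Tree κ d D e' (t + 1) Z B).eval
        (cw σ (plant (L.mac P H s) A v ω a))) ⊆
      (univ.filter fun a : V => a ∉ A ∧ L.ia (ω a).2 ∧
        (next fun j => sg σ (p j) (x0 P s A v ω)).eval
          (cw σ (val L A (x0 P s A v ω) fun e => (ω e).2)) ≠
        (next fun j => sg σ (p j) (x0 P s A v ω)).eval
          (cw σ (plant L A (x0 P s A v ω) (fun e => (ω e).2) a))) := by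
    intro a ha
    rw [mem_filter] at ha ⊢
    obtain ⟨_, h1, h2, h3⟩ := ha
    have hmac : mac P (ω a).1 = 0 := by
      unfold mac
      rw [if_neg (not_lt.2 h2.1)]
    have hx0 : x0 P s A v ω a = v a := by
      unfold x0 mm
      rw [if_neg h1, hmac]
      simp
    have hpl : plant (L.mac P H s) A v ω a =
        plant L A (x0 P s A v ω) (fun e => (ω e).2) a := by
      unfold plant
      rw [hval, hx0]
      rfl
    have hw : Win A v (mm P s ω) ρ (plant (L.mac P H s) A v ω a) := by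
      have hw0 := win_val (P := P) (H := H) (s := s) hr A v ω
      refine ⟨fun e he => ?_, fun e he => ?_⟩
      · unfold plant
        rw [Function.update_of_ne (by rintro rfl; exact h1 he)]
        exact hw0.1 e he
      · by_cases hea : e = a
        · subst hea
          unfold plant mm
          rw [Function.update_self, hmac]
          have := hτ (ω e).2
          show v e + ((0 : ℕ) : ℤ) * s ≤ v e + L.τ (ω e).2 ∧
            v e + L.τ (ω e).2 ≤ v e + ((0 : ℕ) : ℤ) * s + ρ
          constructor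
          · push_cast
            linarith
          · push_cast
            linarith
        · unfold plant
          rw [Function.update_of_ne hea]
          exact hw0.2 e he
    have hs2 : (fun j => SignType.sign (pval (cw σ (plant (L.mac P H s) A v ω a)) (p j))) =
        fun j => sg σ (p j) (x0 P s A v ω) := by
      funext j
      exact hR j _ _ hw (win_x0 hρ A v ω)
    refine ⟨mem_univ _, h1, h2.2, ?_⟩
    simp only [Tree.eval] at h3
    rw [hs1, hs2, hval, hpl] at h3
    exact h3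
  exact_mod_cast card_le_card hsub

/-- The macroscopic half of a level. -/
theorem mac_bound {h : ℕ} (hh : 0 < h) (hHP : H = h * P) (hβ : Nonempty β)
    (hS : Scl (Fintype.card V) d P Λ s ρ)
    (hr : ∀ b, 0 ≤ L.r b ∧ L.r b ≤ ρ) (hτ : ∀ b, 0 ≤ L.τ b ∧ L.τ b ≤ ρ)
    {D t Z B e' : ℕ} (p : Fin D → MvPolynomial κ ℝ) (hp : ∀ j, (p j).totalDegree ≤ d)
    (next : (Fin D → SignType) → Tree κ d D e' t Z B) {b : ℝ} (hb : 0 ≤ b)
    (hn : ∀ z, Bdd σ L (next z) b) (A : Finset V) (v : V → ℤ) (J : Finset (Fin D))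
    (hJ : ∀ ω : V → Fin H × β, ∀ j, j ∉ J → res σ (p j) A v (mm P s ω) ρ) :
    avg (fun ω : V → Fin H × β =>
      Fn σ (L.mac P H s) (Tree.signs p hp next : Tree κ d D e' (t + 1) Z B) A v ω) ≤
      b + J.card * phc (Fintype.card V) d h H := by
  have h1 : ∀ ω : V → Fin H × β,
      Fn σ (L.mac P H s) (Tree.signs p hp next : Tree κ d D e' (t + 1) Z B) A v ω ≤
      phl σ L P H d s Λ p (cont σ L P H s p next) J.toList A v ω := by
    intro ω
    refine phl_path _ hS hr p hp (cont_nonneg p next) ω (fun A' v' h' =>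
      cont_path hS.hρ0 hr hτ p hp next ω A' v' h') J.toList A v (fun i hi => hJ ω i ?_)
    simpa using hi
  refine (avg_mono h1).trans ?_
  have h2 := phl_avg (σ := σ) (L := L) hh hHP hβ hS hr hp (cont_avg (P := P) (H := H) (s := s)
    p next hb hn) (cont_congr p next) J.toList A v
  rw [Finset.length_toList] at h2
  exact h2

/-- The known values after the digits have been revealed. -/
def vd {M : ℕ} (S : ℤ) (A : Finset V) (v : V → ℤ) (δ : V → Fin M) (e : V) : ℤ :=
  if e ∈ A then v e else v e + (δ e : ℕ) * S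

theorem Fn_dig {β' : Type} [Fintype β'] {L' : Law β'} {M : ℕ} {S : ℤ} {D t Z B e' : ℕ}
    (T : Tree κ d D e' t Z B) (A : Finset V) (v : V → ℤ) (δ : V → Fin M) (ω : V → β') :
    Fn σ (L'.dig M S) T A v (fun e => (δ e, ω e)) = Fn σ L' T A (vd S A v δ) ω := by
  classical
  unfold Fn
  have hval : val (L'.dig M S) A v (fun e => (δ e, ω e)) = val L' A (vd S A v δ) ω := by
    funext e
    unfold val vd Law.dig
    by_cases he : e ∈ A
    · simp [he]
    · simp only [if_neg he]
      ring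
  congr 1
  congr 1
  refine Finset.filter_congr fun a _ => ?_
  have hpl : a ∉ A → plant (L'.dig M S) A v (fun e => (δ e, ω e)) a =
      plant L' A (vd S A v δ) ω a := by
    intro ha
    unfold plant
    rw [hval]
    congr 1
    unfold vd Law.dig
    simp only [if_neg ha]
    ring
  rw [hval]
  constructor
  · rintro ⟨h1, h2, h3⟩
    rw [hpl h1] at h3
    exact ⟨h1, h2, h3⟩
  · rintro ⟨h1, h2, h3⟩
    rw [← hpl h1] at h3
    exact ⟨h1, h2, h3⟩

/-- The test is not decided by the digits. -/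
def flg (σ : κ → ℤ ⊕ V) {M : ℕ} (d : ℕ) (Λ : ℝ) (S : ℤ) (p : MvPolynomial κ ℝ) (A : Finset V)
    (v : V → ℤ) (δ : V → Fin M) : Prop :=
  ∃ st, topm Λ M (gp σ A v (S : ℝ) p) = some st ∧
    |pval (cw σ (vd S A v δ)) p| ≤ thr d M (gp σ A v (S : ℝ) p) st

theorem res_of_not_flg {M : ℕ} {S ρ₂ : ℤ} (hρ : 0 ≤ ρ)
    (hS₂ : Scl (Fintype.card V) d M Λ S ρ₂) (hs : 0 ≤ s) (hρ₂ : P * s + ρ ≤ ρ₂)
    {p : MvPolynomial κ ℝ} (hp : p.totalDegree ≤ d) {A : Finset V} {v : V → ℤ}
    {δ : V → Fin M} (hf : ¬ flg σ d Λ S p A v δ) (ω : V → Fin H × β) :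
    res σ p A (vd S A v δ) (mm P s ω) ρ := by
  have hS0 : 0 < S := lt_of_le_of_lt hS₂.hρ0 hS₂.hs
  set m : V → ℤ := fun e => ((δ e : ℕ) : ℤ) * S with hm
  have hsub : ∀ x, Win A (vd S A v δ) (mm P s ω) ρ x → Win A v m ρ₂ x := by
    intro x hx
    refine ⟨fun e he => ?_, fun e he => ?_⟩
    · rw [hx.1 e he]
      unfold vd
      rw [if_pos he]
    · have h := hx.2 e he
      have h1 : vd S A v δ e = v e + m e := by
        unfold vd
        rw [if_neg he]
      rw [h1] at h
      have h2 : 0 ≤ mm P s ω e := by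
        unfold mm
        positivity
      have h3 : mm P s ω e ≤ P * s := by
        unfold mm
        have : (mac P (ω e).1 : ℤ) ≤ P := by exact_mod_cast mac_le (ω e).1
        nlinarith
      constructor <;> linarith
  rcases htop : topm Λ M (gp σ A v (S : ℝ) p) with _ | st
  · exact res_sub (res_of_none (ρ := ρ₂) (m := m) hS0 htop) hsub
  · have hl : thr d M (gp σ A v (S : ℝ) p) st < |pval (cw σ (vd S A v δ)) p| := by
      by_contra hcon
      push Not at hcon
      exact hf ⟨st, htop, hcon⟩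
    refine res_sub (res_of_large hS₂ hp (fun e => ⟨(δ e : ℕ), (δ e).2.le, rfl⟩) htop ?_ hl) hsub
    refine ⟨fun e he => by unfold vd; rw [if_pos he], fun e he => ?_⟩
    have h1 : vd S A v δ e = v e + m e := by
      unfold vd
      rw [if_neg he]
    rw [h1]
    constructor
    · exact le_rfl
    · linarith [hS₂.hρ0]

open Classical in
theorem flg_avg {M : ℕ} {S ρ₂ : ℤ} (hS₂ : Scl (Fintype.card V) d M Λ S ρ₂)
    {p : MvPolynomial κ ℝ} (hp : p.totalDegree ≤ d) (A : Finset V) (v : V → ℤ) :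
    avg (fun δ : V → Fin M => if flg σ d Λ S p A v δ then (1 : ℝ) else 0) ≤ d * d / M := by
  have hM := hS₂.hP
  have hM0 : (0 : ℝ) < M := by exact_mod_cast hM
  rcases htop : topm Λ M (gp σ A v (S : ℝ) p) with _ | st
  · have h1 : ∀ δ : V → Fin M, ¬ flg σ d Λ S p A v δ := by
      rintro δ ⟨st, h, _⟩
      rw [htop] at h
      exact absurd h (by simp)
    refine avg_le_of_le (by positivity) fun δ => ?_
    rw [if_neg (h1 δ)]
    positivity
  · obtain ⟨t1, t2, t3⟩ := topm_some htop
    rw [avg_ite, one_mul]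
    have hc : (0 : ℝ) < Fintype.card (V → Fin M) := by
      have : Nonempty (Fin M) := ⟨⟨0, hM⟩⟩
      exact_mod_cast Fintype.card_pos
    rw [div_le_iff₀ hc]
    have h := anti' (a := M) hM hM (fun _ => 0) (fun _ => ⟨le_rfl, zero_le_one⟩)
      (gp σ A v (S : ℝ) p) (gp_deg hp) st t1 Λ hS₂.hΛ t3
    refine le_trans ?_ h
    have h2 : (univ.filter fun δ : V → Fin M => flg σ d Λ S p A v δ) ⊆
        (univ.filter fun μ : V → Fin M => (∀ e ∈ st.support, (μ e : ℕ) < M) ∧
          |MvPolynomial.eval (wv M (fun _ => 0) μ) (gp σ A v (S : ℝ) p)| ≤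
            thr d M (gp σ A v (S : ℝ) p) st) := by
      intro δ hδ
      rw [mem_filter] at hδ ⊢
      obtain ⟨_, st', hst', hle⟩ := hδ
      rw [htop, Option.some.injEq] at hst'
      rw [← hst'] at hle
      refine ⟨mem_univ _, fun e _ => (δ e).2, ?_⟩
      have h3 : MvPolynomial.eval (wv M (fun _ => 0) δ) (gp σ A v (S : ℝ) p) =
          pval (cw σ (vd S A v δ)) p := by
        refine gp_eval p _ _ (fun e he => by unfold vd; rw [if_pos he]) (fun e he => ?_)
        unfold vd wv mac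
        rw [if_neg he, if_pos (δ e).2]
        push_cast
        ring
      rw [h3]
      exact hle
    exact_mod_cast card_le_card h2

/-- A node with `D` sign tests. -/
theorem Bdd_signs {h M : ℕ} (hh : 0 < h) (hHP : H = h * P) (hβ : Nonempty β)
    (hS : Scl (Fintype.card V) d P Λ s ρ) {S ρ₂ : ℤ}
    (hS₂ : Scl (Fintype.card V) d M Λ S ρ₂) (hρ₂ : P * s + ρ ≤ ρ₂)
    (hr : ∀ b, 0 ≤ L.r b ∧ L.r b ≤ ρ) (hτ : ∀ b, 0 ≤ L.τ b ∧ L.τ b ≤ ρ)
    {D t Z B e' : ℕ} (p : Fin D → MvPolynomial κ ℝ) (hp : ∀ j, (p j).totalDegree ≤ d)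
    (next : (Fin D → SignType) → Tree κ d D e' t Z B) {b : ℝ} (hb : 0 ≤ b)
    (hn : ∀ z, Bdd σ L (next z) b) :
    Bdd σ ((L.mac P H s).dig M S) (Tree.signs p hp next : Tree κ d D e' (t + 1) Z B)
      (b + D * (d * d / M) * phc (Fintype.card V) d h H) := by
  classical
  intro A v
  have hs0 : 0 < s := lt_of_le_of_lt hS.hρ0 hS.hs
  have hM := hS₂.hP
  have hc := phc_nonneg (Fintype.card V) d h H
  rw [avg_pair]
  simp only [Fn_dig]
  have h1 : ∀ δ : V → Fin M, (avg fun ω : V → Fin H × β =>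
      Fn σ (L.mac P H s) (Tree.signs p hp next : Tree κ d D e' (t + 1) Z B) A (vd S A v δ) ω) ≤
      b + phc (Fintype.card V) d h H *
        ∑ j : Fin D, (if flg σ d Λ S (p j) A v δ then (1 : ℝ) else 0) := by
    intro δ
    have h2 := mac_bound hh hHP hβ hS hr hτ p hp next hb hn A (vd S A v δ)
      (univ.filter fun j => flg σ d Λ S (p j) A v δ) (fun ω j hj =>
        res_of_not_flg hS.hρ0 hS₂ hs0.le hρ₂ (hp j) (by simpa using hj) ω)
    have h3 : (((univ.filter fun j => flg σ d Λ S (p j) A v δ).card : ℕ) : ℝ) =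
        ∑ j : Fin D, (if flg σ d Λ S (p j) A v δ then (1 : ℝ) else 0) := by
      rw [Finset.card_filter]
      push_cast
      rfl
    rw [h3, mul_comm] at h2
    exact h2
  refine (avg_mono h1).trans ?_
  have hne : Nonempty (V → Fin M) := ⟨fun _ => ⟨0, hM⟩⟩
  rw [avg_add, avg_const, avg_smul, avg_sum]
  have h4 : ∑ j : Fin D, avg (fun δ : V → Fin M =>
      if flg σ d Λ S (p j) A v δ then (1 : ℝ) else 0) ≤ D * (d * d / M) := by
    refine (Finset.sum_le_sum fun j _ => flg_avg hS₂ (hp j) A v).trans ?_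
    rw [Finset.sum_const, Finset.card_univ, Fintype.card_fin, nsmul_eq_mul]
  have h5 := mul_le_mul_of_nonneg_left h4 hc
  linarith

end

end Pool.Agent.Helper14.PR
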